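import Pool.Agent.Run7.h712.HE.Ptc

set_option autoImplicit false
set_option linter.unusedSectionVars false
set_option linter.unusedVariables false

/-! The numbers of points. -/

namespace Pool.Agent.Run7.h712.HE

open Finset
open Run7.h3.ST hiding one_pow

/-- the number of the solutions of `y ^ 2 = x ^ D + ∑ c_i x ^ i` over the field with `p ^ j` elements -/
noncomputable def points {D : ℕ} (c : Fin D → ℤ) (p j : ℕ) [Fact p.Prime] : ℕ :=
  Nat.card {P : GaloisField p j × GaloisField p j // P.2 ^ 2 = P.1 ^ D + ∑ i, (c i : GaloisField p j) * P.1 ^ (i : ℕ)}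

theorem card_sq {k : Type} [Field k] [Fintype k] [DecidableEq k] (hk : ringChar k ≠ 2) (f : k → k) :
    (Nat.card {P : k × k // P.2 ^ 2 = f P.1} : ℤ) = Fintype.card k + ∑ x, quadraticChar k (f x) := by
  have h1 : ∀ a : k, ((univ.filter fun y : k => y ^ 2 = a).card : ℤ) = quadraticChar k a + 1 := by
    intro a
    have h := quadraticChar_card_sqrts hk a
    rw [← h]
    congr 1
    congr 1
    ext y
    simp
  have h2 : Nat.card {P : k × k // P.2 ^ 2 = f P.1} = ∑ x : k, (univ.filter fun y : k => y ^ 2 = f x).card := by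
    rw [Nat.card_eq_fintype_card, Fintype.card_subtype, card_filter, Fintype.sum_prod_type]
    refine sum_congr rfl fun x _ => ?_
    rw [card_filter]
  rw [h2]
  push_cast
  simp only [h1]
  rw [sum_add_distrib, sum_const, card_univ, nsmul_eq_mul, mul_one, add_comm]

theorem points_eq {p : ℕ} [hp : Fact p.Prime] (h2 : p ≠ 2) {d : ℕ} (c : Fin (d + 1) → ℤ) {j : ℕ} (hj : 1 ≤ j) :
    (points c p j : ℝ) = (p : ℝ) ^ j + SS j (fun i => (c i : ZMod p)) := by
  classical
  have hk : Nat.card (GaloisField p j) = p ^ j := GaloisField.card p j (by omega)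
  have hfin : Finite (GaloisField p j) := inferInstance
  letI : Fintype (GaloisField p j) := Fintype.ofFinite _
  have halg : Algebra.IsAlgebraic (ZMod p) (GaloisField p j) := by
    infer_instance
  have hk' : Fintype.card (GaloisField p j) = p ^ j := by rw [← Nat.card_eq_fintype_card, hk]
  obtain ⟨σ, -⟩ : ∃ σ : GaloisField p j →ₐ[ZMod p] KB p, True := ⟨IsAlgClosed.lift, trivial⟩
  have hch : ringChar (GaloisField p j) ≠ 2 := by
    rw [ringChar_of_card hj hk']
    exact h2
  have h1 := card_sq hch (fun x : GaloisField p j => x ^ (d + 1) + ∑ i, (c i : GaloisField p j) * x ^ (i : ℕ))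
  have h3 : SS j (fun i => (c i : ZMod p)) = ((∑ a : GaloisField p j, quadraticChar (GaloisField p j)
      (a ^ (d + 1) + ∑ i, (c i : GaloisField p j) * a ^ (i : ℕ)) : ℤ) : ℝ) := by
    unfold SS
    rw [sum_emb hj hk' σ.toRingHom, Int.cast_sum]
    refine sum_congr rfl fun a _ => ?_
    have h3 : (fv (fun i => (c i : ZMod p)) (σ a) : KB p) = σ (a ^ (d + 1) + ∑ i, (c i : GaloisField p j) * a ^ (i : ℕ)) := by
      unfold fv
      rw [map_add, map_pow, map_sum]
      congr 1
      refine sum_congr rfl fun i _ => ?_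
      rw [map_mul, map_pow, map_intCast, map_intCast]
    show chi p j (fv (fun i => (c i : ZMod p)) (σ a)) = _
    rw [h3]
    exact chi_emb h2 hj hk' σ.toRingHom _
  rw [h3]
  have h4 : (points c p j : ℤ) = Fintype.card (GaloisField p j) + ∑ x, quadraticChar (GaloisField p j)
      (x ^ (d + 1) + ∑ i, (c i : GaloisField p j) * x ^ (i : ℕ)) := h1
  rw [hk'] at h4
  have h5 := congrArg (fun z : ℤ => (z : ℝ)) h4
  push_cast at h5 ⊢
  exact h5

end Pool.Agent.Run7.h712.HE
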