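import Pool.Agent.Run7.h712.HE.Fun

set_option autoImplicit false
set_option linter.unusedSectionVars false
set_option linter.unusedVariables false

/-! The values of the functional at the products of the coefficients are the numbers of the multigraphs with given degrees. -/

namespace Pool.Agent.Run7.h712.HE

open Finset MvPolynomial

variable {ι : Type} [Fintype ι] [DecidableEq ι]

/-- the degree of the vertex `i` in the multigraph with `e z` edges `z` (a loop contributes `2`) -/
def deg (e : Sym2 ι → ℕ) (i : ι) : ℕ := (∑ i', e s(i, i')) + e s(i, i)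

/-- the number of the multigraphs with loops with the degrees `k i` -/
noncomputable def gr (k : ι → ℕ) : ℕ := Set.ncard {e : Sym2 ι → ℕ | ∀ i, deg e i = k i}

/-- the multigraphs with the degrees `k i` -/
def MG (k : ι → ℕ) : Finset (Sym2 ι → ℕ) :=
  (Fintype.piFinset fun _ => range (∑ i, k i + 1)).filter fun e => ∀ i, deg e i = k i

theorem le_deg (e : Sym2 ι → ℕ) (a b : ι) : e s(a, b) ≤ deg e a := by
  unfold deg
  exact (single_le_sum (f := fun i' => e s(a, i')) (fun _ _ => Nat.zero_le _) (mem_univ b)).trans (Nat.le_add_right _ _)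

theorem mem_MG {k : ι → ℕ} {e : Sym2 ι → ℕ} : e ∈ MG k ↔ ∀ i, deg e i = k i := by
  unfold MG
  rw [mem_filter, Fintype.mem_piFinset]
  refine ⟨fun h => h.2, fun h => ⟨fun z => ?_, h⟩⟩
  induction z using Sym2.ind with
  | _ a b =>
    rw [mem_range]
    have h1 := le_deg e a b
    rw [h a] at h1
    have h2 : k a ≤ ∑ i, k i := single_le_sum (f := fun i => k i) (fun _ _ => Nat.zero_le _) (mem_univ a)
    omega

theorem gr_eq (k : ι → ℕ) : gr k = (MG k).card := by
  unfold gr
  rw [← Set.ncard_coe_finset]
  congr 1
  ext e
  rw [mem_coe, mem_MG]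
  rfl

theorem deg_add (e e' : Sym2 ι → ℕ) (i : ι) : deg (e + e') i = deg e i + deg e' i := by
  unfold deg
  simp only [Pi.add_apply, sum_add_distrib]
  ring

/-- the degrees of one edge -/
def dz (a b : ι) (i : ι) : ℕ := (if i = a then 1 else 0) + (if i = b then 1 else 0)

theorem deg_single (a b : ι) (j : ℕ) (i : ι) : deg (Pi.single s(a, b) j : Sym2 ι → ℕ) i = j * dz a b i := by
  unfold deg dz
  simp only [Pi.single_apply]
  have h1 : ∀ i' : ι, (s(i, i') = s(a, b)) ↔ (i = a ∧ i' = b) ∨ (i = b ∧ i' = a) := by
    intro i'
    rw [Sym2.eq_iff]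
  by_cases ha : i = a
  · by_cases hb : i = b
    · subst ha
      subst hb
      have h2 : ∑ i' : ι, (if s(i, i') = s(i, i) then j else 0) = j := by
        rw [sum_eq_single i]
        · rw [if_pos rfl]
        · intro c _ hc
          rw [if_neg]
          rw [h1]
          rintro (h | h) <;> exact hc h.2
        · intro h
          exact absurd (mem_univ _) h
      rw [h2, if_pos rfl, if_pos rfl]
      ring
    · subst ha
      have h2 : ∑ i' : ι, (if s(i, i') = s(i, b) then j else 0) = j := by
        rw [sum_eq_single b]
        · rw [if_pos rfl]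
        · intro c _ hc
          rw [if_neg]
          rw [h1]
          rintro (h | h)
          · exact hc h.2
          · exact hb h.1
        · intro h
          exact absurd (mem_univ _) h
      have h3 : ¬ (s(i, i) = s(i, b)) := by
        rw [h1]
        rintro (h | h)
        · exact hb h.2
        · exact hb h.1
      rw [h2, if_neg h3, if_pos rfl, if_neg hb]
      ring
  · by_cases hb : i = b
    · subst hb
      have h2 : ∑ i' : ι, (if s(i, i') = s(a, i) then j else 0) = j := by
        rw [sum_eq_single a]
        · rw [if_pos Sym2.eq_swap]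
        · intro c _ hc
          rw [if_neg]
          rw [h1]
          rintro (h | h)
          · exact ha h.1
          · exact hc h.2
        · intro h
          exact absurd (mem_univ _) h
      have h3 : ¬ (s(i, i) = s(a, i)) := by
        rw [h1]
        rintro (h | h)
        · exact ha h.1
        · exact ha h.2
      rw [h2, if_neg h3, if_neg ha, if_pos rfl]
      ring
    · have h2 : ∑ i' : ι, (if s(i, i') = s(a, b) then j else 0) = 0 := by
        refine sum_eq_zero fun c _ => ?_
        rw [if_neg]
        rw [h1]
        rintro (h | h)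
        · exact ha h.1
        · exact hb h.1
      have h3 : ¬ (s(i, i) = s(a, b)) := by
        rw [h1]
        rintro (h | h)
        · exact ha h.1
        · exact hb h.1
      rw [h2, if_neg h3, if_neg ha, if_neg hb]
      ring

/-- `k` minus the degrees of `j` edges -/
def sb (k : ι → ℕ) (a b : ι) (j : ℕ) (i : ι) : ℕ := k i - j * dz a b i

theorem count_edge (k : ι → ℕ) (a b : ι) (j : ℕ) :
    ((MG k).filter fun e => j ≤ e s(a, b)).card = if (∀ i, j * dz a b i ≤ k i) then (MG (sb k a b j)).card else 0 := by
  by_cases h : ∀ i, j * dz a b i ≤ k i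
  · rw [if_pos h]
    have key : ∀ e : Sym2 ι → ℕ, j ≤ e s(a, b) → (e - Pi.single s(a, b) j) + Pi.single s(a, b) j = e := by
      intro e he
      funext z
      rw [Pi.add_apply, Pi.sub_apply]
      by_cases hz : z = s(a, b)
      · subst hz
        rw [Pi.single_eq_same]
        omega
      · rw [Pi.single_eq_of_ne hz]
        omega
    refine card_bij' (fun e _ => e - Pi.single s(a, b) j) (fun e _ => e + Pi.single s(a, b) j) (fun e he => ?_) (fun e he => ?_)
      (fun e he => ?_) (fun e he => ?_)
    · rw [mem_filter, mem_MG] at he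
      rw [mem_MG]
      intro i
      have h1 := deg_add (e - Pi.single s(a, b) j) (Pi.single s(a, b) j) i
      rw [key e he.2, he.1 i, deg_single] at h1
      unfold sb
      omega
    · rw [mem_MG] at he
      rw [mem_filter, mem_MG]
      refine ⟨fun i => ?_, ?_⟩
      · rw [deg_add, he i, deg_single]
        unfold sb
        have := h i
        omega
      · rw [Pi.add_apply, Pi.single_eq_same]
        omega
    · rw [mem_filter] at he
      exact key e he.2
    · funext z
      rw [Pi.sub_apply, Pi.add_apply]
      omega
  · rw [if_neg h, card_eq_zero, filter_eq_empty_iff]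
    intro e he hj
    rw [mem_MG] at he
    apply h
    intro i
    rw [← he i]
    have h2 : Pi.single s(a, b) j ≤ e := by
      intro z
      by_cases hz : z = s(a, b)
      · subst hz
        rw [Pi.single_eq_same]
        exact hj
      · rw [Pi.single_eq_of_ne hz]
        exact Nat.zero_le _
    have h3 : (e - Pi.single s(a, b) j) + Pi.single s(a, b) j = e := by
      funext z
      have : (Pi.single s(a, b) j : Sym2 ι → ℕ) z ≤ e z := h2 z
      rw [Pi.add_apply, Pi.sub_apply]
      omega
    have h4 := deg_add (e - Pi.single s(a, b) j) (Pi.single s(a, b) j) i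
    rw [h3, deg_single] at h4
    omega

/-- the terms of the recursion -/
def TT (F : (ι → ℕ) → ℝ) (k : ι → ℕ) (a b : ι) : ℝ := ∑ j ∈ Icc 1 (k a), if (∀ i, j * dz a b i ≤ k i) then F (sb k a b j) else 0

theorem sum_ind {x N : ℕ} (h : x ≤ N) : ∑ j ∈ Icc 1 N, (if j ≤ x then 1 else 0) = x := by
  rw [← card_filter]
  have : (Icc 1 N).filter (fun j => j ≤ x) = Icc 1 x := by
    ext j
    rw [mem_filter, mem_Icc, mem_Icc]
    omega
  rw [this, Nat.card_Icc]
  omega

theorem sum_edge (k : ι → ℕ) (a b : ι) : ((∑ e ∈ MG k, e s(a, b) : ℕ) : ℝ) = TT (fun k => (gr k : ℝ)) k a b := by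
  have h1 : ∑ e ∈ MG k, e s(a, b) = ∑ j ∈ Icc 1 (k a), ((MG k).filter fun e => j ≤ e s(a, b)).card := by
    simp only [card_filter]
    rw [sum_comm]
    refine sum_congr rfl fun e he => ?_
    rw [mem_MG] at he
    rw [sum_ind]
    rw [← he a]
    exact le_deg e a b
  rw [h1]
  unfold TT
  rw [Nat.cast_sum]
  refine sum_congr rfl fun j _ => ?_
  rw [count_edge]
  split_ifs with h
  · show ((MG (sb k a b j)).card : ℝ) = (gr (sb k a b j) : ℝ)
    rw [gr_eq]
  · simp

/-- the recursion for the numbers of multigraphs -/
theorem gr_rec (k : ι → ℕ) (a : ι) : (k a : ℝ) * gr k = ∑ b, TT (fun k => (gr k : ℝ)) k a b + TT (fun k => (gr k : ℝ)) k a a := by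
  have h1 : k a * (MG k).card = ∑ e ∈ MG k, deg e a := by
    rw [sum_congr rfl fun e he => (mem_MG.1 he a), sum_const, smul_eq_mul, mul_comm]
  have h2 : ∑ e ∈ MG k, deg e a = (∑ b, ∑ e ∈ MG k, e s(a, b)) + ∑ e ∈ MG k, e s(a, a) := by
    unfold deg
    rw [sum_add_distrib, sum_comm]
  rw [gr_eq]
  have h3 : ((k a * (MG k).card : ℕ) : ℝ) = (((∑ b, ∑ e ∈ MG k, e s(a, b)) + ∑ e ∈ MG k, e s(a, a) : ℕ) : ℝ) := by rw [h1, h2]
  push_cast at h3
  rw [h3]
  congr 1
  · refine sum_congr rfl fun b _ => ?_
    rw [← sum_edge]
    push_cast
    rfl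
  · rw [← sum_edge]
    push_cast
    rfl

theorem gr_zero {k : ι → ℕ} (h : ∀ i, k i = 0) : gr k = 1 := by
  rw [gr_eq, card_eq_one]
  refine ⟨0, ?_⟩
  ext e
  rw [mem_MG, mem_singleton]
  constructor
  · intro he
    funext z
    induction z using Sym2.ind with
    | _ a b =>
      have h1 := le_deg e a b
      rw [he a, h a] at h1
      exact Nat.le_zero.1 h1
  · rintro rfl i
    rw [h i]
    simp [deg]

/-! ### the functional -/

/-- the value of the functional at the product of the coefficients -/
noncomputable def FF (k : ι → ℕ) : ℝ := LF (∏ i, AK (k i))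

theorem prod_upd (k : ι → ℕ) (i : ι) (n : ℕ) : AK n * ∏ i' ∈ univ.erase i, AK (k i') = ∏ i', AK (Function.update k i n i') := by
  rw [← mul_prod_erase univ (fun i' => AK (Function.update k i n i')) (mem_univ i), Function.update_self]
  congr 1
  refine prod_congr rfl fun i' hi' => ?_
  rw [Function.update_of_ne (ne_of_mem_erase hi')]

theorem pderiv_prod_AK (l : ℕ) (S : Finset ι) (k : ι → ℕ) :
    pderiv l (∏ i ∈ S, AK (k i)) = ∑ i ∈ S, (pderiv l (AK (k i))) * ∏ i' ∈ S.erase i, AK (k i') := by
  induction S using Finset.induction_on with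
  | empty =>
    simp only [prod_empty, sum_empty]
    exact pderiv_one
  | insert a S ha ih =>
    rw [prod_insert ha, pderiv_mul, ih, sum_insert ha, erase_insert ha, mul_sum]
    congr 1
    refine sum_congr rfl fun i hi => ?_
    have hia : a ≠ i := fun h => ha (h ▸ hi)
    rw [erase_insert_of_ne hia, prod_insert (fun h => ha (mem_of_mem_erase h))]
    ring

theorem LF_deriv (l : ℕ) (k : ι → ℕ) : ((l : ℝ) + 1) * LF (pderiv l (∏ i, AK (k i))) =
    ∑ i, if l < k i then FF (Function.update k i (k i - 1 - l)) else 0 := by
  rw [pderiv_prod_AK, map_sum, mul_sum]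
  refine sum_congr rfl fun i _ => ?_
  rw [pderiv_AK]
  split_ifs with h
  · rw [mul_assoc, prod_upd, ← smul_eq_C_mul, map_smul, smul_eq_mul, ← mul_assoc, mul_one_div_cancel (by positivity), one_mul]
    rfl
  · rw [zero_mul, map_zero, mul_zero]

/-- the recursion for the functional -/
theorem FF_rec (k : ι → ℕ) (a : ι) (ha : 1 ≤ k a) : (k a : ℝ) * FF k = ∑ b, TT FF k a b + TT FF k a a := by
  obtain ⟨n, hn⟩ : ∃ n, k a = n + 1 := ⟨k a - 1, by omega⟩
  have h1 : (k a : ℝ) * FF k = LF (C ((n : ℝ) + 1) * AK (n + 1) * ∏ i' ∈ univ.erase a, AK (k i')) := by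
    rw [mul_assoc, ← smul_eq_C_mul, map_smul, smul_eq_mul, hn]
    push_cast
    congr 1
    unfold FF
    rw [← mul_prod_erase univ (fun i => AK (k i)) (mem_univ a), hn]
  rw [h1, AK_succ, sum_mul, map_sum]
  have h2 : ∀ l ∈ range (n + 1), LF ((X l + C (eta (l + 1))) * AK (n - l) * ∏ i' ∈ univ.erase a, AK (k i')) =
      (∑ b, if (∀ i, (l + 1) * dz a b i ≤ k i) then FF (sb k a b (l + 1)) else 0) + eta (l + 1) * FF (Function.update k a (n - l)) := by
    intro l hl
    rw [mem_range] at hl
    rw [mul_assoc, prod_upd, add_mul, map_add, LF_X, LF_deriv, ← smul_eq_C_mul, map_smul, smul_eq_mul]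
    congr 1
    refine sum_congr rfl fun b _ => ?_
    by_cases hb : b = a
    · subst hb
      rw [Function.update_self]
      have e1 : (∀ i, (l + 1) * dz b b i ≤ k i) ↔ l < n - l := by
        constructor
        · intro h
          have := h b
          unfold dz at this
          rw [if_pos rfl, hn] at this
          omega
        · intro h i
          unfold dz
          by_cases hi : i = b
          · rw [if_pos hi, hi, hn]
            omega
          · rw [if_neg hi]
            simp
      by_cases h3 : l < n - l
      · rw [if_pos h3, if_pos (e1.2 h3)]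
        congr 1
        funext i
        unfold sb dz
        by_cases hi : i = b
        · subst hi
          rw [Function.update_self, if_pos rfl]
          omega
        · rw [Function.update_of_ne hi, Function.update_of_ne hi, if_neg hi]
          simp
      · rw [if_neg h3, if_neg (fun h => h3 (e1.1 h))]
    · rw [Function.update_of_ne hb]
      have e1 : (∀ i, (l + 1) * dz a b i ≤ k i) ↔ l < k b := by
        constructor
        · intro h
          have := h b
          unfold dz at this
          rw [if_neg hb, if_pos rfl] at this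
          omega
        · intro h i
          unfold dz
          by_cases hi : i = a
          · rw [if_pos hi, if_neg (fun h => hb (h.symm.trans hi)), hi]
            omega
          · by_cases hi2 : i = b
            · rw [if_neg hi, if_pos hi2, hi2]
              omega
            · rw [if_neg hi, if_neg hi2]
              simp
      by_cases h3 : l < k b
      · rw [if_pos h3, if_pos (e1.2 h3)]
        congr 1
        funext i
        unfold sb dz
        by_cases hi2 : i = b
        · subst hi2
          rw [Function.update_self, if_neg hb, if_pos rfl]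
          omega
        · rw [Function.update_of_ne hi2]
          by_cases hi : i = a
          · subst hi
            rw [Function.update_self, if_pos rfl, if_neg hi2]
            omega
          · rw [Function.update_of_ne hi, if_neg hi, if_neg hi2]
            simp
      · rw [if_neg h3, if_neg (fun h => h3 (e1.1 h))]
  rw [sum_congr rfl h2, sum_add_distrib]
  congr 1
  · rw [sum_comm]
    refine sum_congr rfl fun b _ => ?_
    unfold TT
    rw [hn, ← sum_image (f := fun j => if (∀ i, j * dz a b i ≤ k i) then FF (sb k a b j) else 0) (g := fun l => l + 1) (s := range (n + 1))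
      (fun x _ y _ h => by simpa using h)]
    refine sum_congr ?_ fun _ _ => rfl
    ext j
    rw [mem_image, mem_Icc]
    constructor
    · rintro ⟨l, hl, rfl⟩
      rw [mem_range] at hl
      omega
    · intro h
      exact ⟨j - 1, mem_range.2 (by omega), by omega⟩
  · -- the even terms
    unfold TT
    have e1 : ∀ l ∈ range (n + 1), eta (l + 1) * FF (Function.update k a (n - l)) = if Even (l + 1) then FF (Function.update k a (n - l)) else 0 := by
      intro l _
      unfold eta
      split_ifs <;> simp
    rw [sum_congr rfl e1, ← sum_filter]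
    have e2 : ∀ j, (∀ i, j * dz a a i ≤ k i) ↔ 2 * j ≤ k a := by
      intro j
      constructor
      · intro h
        have := h a
        unfold dz at this
        rw [if_pos rfl] at this
        omega
      · intro h i
        unfold dz
        by_cases hi : i = a
        · rw [if_pos hi, hi]
          omega
        · rw [if_neg hi]
          simp
    simp only [e2]
    rw [← sum_filter]
    symm
    refine sum_bij (fun j _ => 2 * j - 1) (fun j hj => ?_) (fun j hj j' hj' h => ?_) (fun l hl => ?_) (fun j hj => ?_)
    · rw [mem_filter, mem_Icc] at hj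
      rw [mem_filter, mem_range]
      refine ⟨by omega, ?_⟩
      rw [show 2 * j - 1 + 1 = 2 * j by omega]
      exact even_two_mul j
    · rw [mem_filter, mem_Icc] at hj hj'
      omega
    · rw [mem_filter, mem_range] at hl
      obtain ⟨c, hc⟩ := hl.2
      exact ⟨c, by rw [mem_filter, mem_Icc]; omega, by omega⟩
    · rw [mem_filter, mem_Icc] at hj
      congr 1
      funext i
      unfold sb dz
      by_cases hi : i = a
      · subst hi
        rw [Function.update_self, if_pos rfl]
        omega
      · rw [Function.update_of_ne hi, if_neg hi]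
        simp

theorem TT_congr (F G : (ι → ℕ) → ℝ) (k : ι → ℕ) (a b : ι) (h : ∀ k', ∑ i, k' i < ∑ i, k i → F k' = G k') : TT F k a b = TT G k a b := by
  unfold TT
  refine sum_congr rfl fun j hj => ?_
  rw [mem_Icc] at hj
  split_ifs with h1
  · refine h _ (sum_lt_sum (fun i _ => Nat.sub_le _ _) ⟨a, mem_univ a, ?_⟩)
    unfold sb dz
    rw [if_pos rfl]
    have : 1 ≤ j * (1 + if a = b then 1 else 0) := Nat.mul_pos hj.1 (by omega)
    omega
  · rfl

/-- **the moments of the coefficients are the numbers of multigraphs** -/
theorem FF_eq (k : ι → ℕ) : FF k = gr k := by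
  obtain ⟨N, hN⟩ : ∃ N, N = ∑ i, k i := ⟨_, rfl⟩
  induction N using Nat.strong_induction_on generalizing k with
  | _ N ih =>
    by_cases h0 : ∀ i, k i = 0
    · rw [gr_zero h0]
      unfold FF
      have h1 : ∏ i, AK (k i) = 1 := by
        refine prod_eq_one fun i _ => ?_
        rw [h0 i, AK_zero]
      rw [h1, LF_one, Nat.cast_one]
    · push Not at h0
      obtain ⟨a, ha⟩ := h0
      have h1 := FF_rec k a (Nat.pos_of_ne_zero ha)
      have h2 := gr_rec k a
      have h3 : ∀ k' : ι → ℕ, ∑ i, k' i < ∑ i, k i → FF k' = gr k' := fun k' hk' => ih _ (by rw [hN]; exact hk') k' rfl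
      have h4 : ∀ b, TT FF k a b = TT (fun k => (gr k : ℝ)) k a b := fun b => TT_congr _ _ k a b h3
      rw [sum_congr rfl fun b _ => h4 b, h4 a, ← h2] at h1
      have h5 : (k a : ℝ) ≠ 0 := by exact_mod_cast ha
      exact mul_left_cancel₀ h5 h1

end Pool.Agent.Run7.h712.HE
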