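import Pool.Agent.Run7.h712.HE.Coe

set_option autoImplicit false
set_option linter.unusedSectionVars false
set_option linter.unusedVariables false

/-! The joint moments of the coefficients of the L-polynomials of a product of hyperelliptic Jacobians. -/

namespace Pool.Agent.Run7.h712.HE

open Finset
open Q282.CL (av av_pi av_const av_add av_sum)

/-! ### the product formula -/

theorem coe_succ (t : ℕ → ℝ) (k : ℕ) : ((k : ℝ) + 1) * coe t (k + 1) = ∑ j ∈ range (k + 1), t j * coe t (k - j) := by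
  rw [coe, mul_div_cancel₀ _ (by positivity), Finset.sum_range]

/-- the generating series -/
noncomputable def gs (t : ℕ → ℝ) : PowerSeries ℝ := PowerSeries.mk (coe t)

theorem gs_deriv (t : ℕ → ℝ) : PowerSeries.derivative ℝ (gs t) = PowerSeries.mk t * gs t := by
  ext k
  rw [PowerSeries.coeff_derivative, PowerSeries.coeff_mul]
  unfold gs
  rw [Finset.Nat.sum_antidiagonal_eq_sum_range_succ_mk]
  simp only [PowerSeries.coeff_mk]
  rw [mul_comm, coe_succ]

theorem gs_unique (t : ℕ → ℝ) (G : PowerSeries ℝ) (h0 : PowerSeries.coeff 0 G = 1)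
    (h : PowerSeries.derivative ℝ G = PowerSeries.mk t * G) : G = gs t := by
  ext k
  induction k using Nat.strong_induction_on with
  | _ k ih =>
    rcases k with _ | k
    · rw [h0]
      unfold gs
      rw [PowerSeries.coeff_mk, coe]
    · have h1 := congrArg (PowerSeries.coeff k) h
      have h2 := congrArg (PowerSeries.coeff k) (gs_deriv t)
      rw [PowerSeries.coeff_derivative, PowerSeries.coeff_mul] at h1 h2
      have h3 : ∑ x ∈ antidiagonal k, PowerSeries.coeff x.1 (PowerSeries.mk t) * PowerSeries.coeff x.2 G =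
          ∑ x ∈ antidiagonal k, PowerSeries.coeff x.1 (PowerSeries.mk t) * PowerSeries.coeff x.2 (gs t) := by
        refine sum_congr rfl fun x hx => ?_
        rw [ih x.2 (by have := mem_antidiagonal.1 hx; omega)]
      rw [h3, ← h2] at h1
      exact mul_right_cancel₀ (by positivity) h1

theorem gs_add (s t : ℕ → ℝ) : gs (fun j => s j + t j) = gs s * gs t := by
  symm
  apply gs_unique
  · rw [PowerSeries.coeff_mul, Finset.Nat.antidiagonal_zero, sum_singleton]
    unfold gs
    simp only [PowerSeries.coeff_mk]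
    rw [coe, coe, one_mul]
  · rw [Derivation.leibniz, gs_deriv, gs_deriv, smul_eq_mul, smul_eq_mul]
    have : PowerSeries.mk (fun j => s j + t j) = PowerSeries.mk s + PowerSeries.mk t := by
      ext k
      simp
    rw [this]
    ring

theorem gs_zero : gs (fun _ => 0) = 1 := by
  symm
  apply gs_unique
  · simp
  · have : PowerSeries.mk (fun _ : ℕ => (0 : ℝ)) = 0 := by
      ext k
      simp
    rw [this, zero_mul, Derivation.map_one_eq_zero]

section
variable {R : Type} [Fintype R] [DecidableEq R]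

theorem gs_sum (S : Finset R) (s : R → ℕ → ℝ) : gs (fun j => ∑ l ∈ S, s l j) = ∏ l ∈ S, gs (s l) := by
  induction S using Finset.induction_on with
  | empty =>
    simp only [sum_empty, prod_empty]
    exact gs_zero
  | insert a S ha ih =>
    simp only [sum_insert ha, prod_insert ha]
    rw [gs_add (s a) (fun j => ∑ l ∈ S, s l j), ih]

theorem coe_sum (s : R → ℕ → ℝ) (n : ℕ) :
    coe (fun j => ∑ l, s l j) n = ∑ a ∈ finsuppAntidiag (univ : Finset R) n, ∏ l, coe (s l) (a l) := by
  have h1 := congrArg (PowerSeries.coeff n) (gs_sum univ s)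
  rw [PowerSeries.coeff_prod] at h1
  unfold gs at h1
  simp only [PowerSeries.coeff_mk] at h1
  exact h1

variable {ι : Type} [Fintype ι] [DecidableEq ι]

/-- the ways to distribute the degrees over the factors -/
def Dk (R : Type) [Fintype R] [DecidableEq R] (k : ι → ℕ) : Finset (ι → (R →₀ ℕ)) :=
  Fintype.piFinset fun i => finsuppAntidiag (univ : Finset R) (k i)

theorem mem_Dk {k : ι → ℕ} {A : ι → (R →₀ ℕ)} : A ∈ Dk R k ↔ ∀ i, ∑ l, A i l = k i := by
  unfold Dk
  rw [Fintype.mem_piFinset]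
  refine forall_congr' fun i => ?_
  rw [mem_finsuppAntidiag]
  exact ⟨fun h => h.1, fun h => ⟨h, subset_univ _⟩⟩

theorem prod_coe (s : R → ℕ → ℝ) (k : ι → ℕ) :
    ∏ i, coe (fun j => ∑ l, s l j) (k i) = ∑ A ∈ Dk R k, ∏ l, ∏ i, coe (s l) (A i l) := by
  simp only [coe_sum]
  rw [prod_univ_sum]
  refine sum_congr rfl fun A _ => ?_
  rw [prod_comm]

/-- the number of the families of multigraphs with loops with the total degrees `k i` -/
noncomputable def gR (R : Type) [Fintype R] [DecidableEq R] (k : ι → ℕ) : ℕ := Set.ncard {e : R → Sym2 ι → ℕ | ∀ i, ∑ l, deg (e l) i = k i}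

theorem gR_eq (k : ι → ℕ) : gR R k = ∑ A ∈ Dk R k, ∏ l, gr fun i => A i l := by
  have h1 : ∀ A : ι → (R →₀ ℕ), ∏ l, gr (fun i => A i l) = (Fintype.piFinset fun l => MG fun i => A i l).card := by
    intro A
    rw [Fintype.card_piFinset]
    exact prod_congr rfl fun l _ => gr_eq _
  simp only [h1]
  rw [← card_biUnion]
  · unfold gR
    rw [← Set.ncard_coe_finset]
    congr 1
    ext e
    rw [mem_coe, mem_biUnion]
    constructor
    · intro h
      refine ⟨fun i => Finsupp.equivFunOnFinite.symm fun l => deg (e l) i, ?_, ?_⟩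
      · rw [mem_Dk]
        intro i
        exact h i
      · rw [Fintype.mem_piFinset]
        intro l
        rw [mem_MG]
        intro i
        rfl
    · rintro ⟨A, hA, he⟩
      rw [mem_Dk] at hA
      rw [Fintype.mem_piFinset] at he
      intro i
      rw [← hA i]
      refine sum_congr rfl fun l _ => ?_
      exact mem_MG.1 (he l) i
  · intro A _ A' _ hne
    rw [Function.onFun, disjoint_left]
    intro e he he'
    rw [Fintype.mem_piFinset] at he he'
    apply hne
    funext i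
    ext l
    exact (mem_MG.1 (he l) i).symm.trans (mem_MG.1 (he' l) i)

/-! ### the moments -/

variable {d : R → ℕ}

/-- the normalised character sums of the product -/
noncomputable def sP (p : ℕ) [Fact p.Prime] (u : ∀ l, Fin (d l + 1) → ZMod p) (j : ℕ) : ℝ := ∑ l, sn p (u l) j

theorem sP_abs {p : ℕ} [hp : Fact p.Prime] (h2 : p ≠ 2) (hd : ∀ l, Odd (d l + 1)) (u : ∀ l, Fin (d l + 1) → ZMod p) (j : ℕ) :
    |sP p u j| ≤ ∑ l, (d l : ℝ) :=
  (abs_sum_le_sum_abs _ _).trans (sum_le_sum fun l _ => sn_abs h2 (hd l) (u l) j)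

/-- the product of the coefficients -/
noncomputable def PC (p : ℕ) [Fact p.Prime] (k : ι → ℕ) (u : ∀ l, Fin (d l + 1) → ZMod p) : ℝ := ∏ i, coe (sP p u) (k i)

theorem coe_bound (b : ℝ) (hb : 0 ≤ b) (k : ℕ) : ∃ M : ℝ, 0 ≤ M ∧ ∀ t : ℕ → ℝ, (∀ i, |t i| ≤ b) → |coe t k| ≤ M := by
  obtain ⟨M, hM, h⟩ := lip (fun _ => b + 1) (AK k)
  refine ⟨M, hM, fun t ht => ?_⟩
  have h1 : ∀ i, |t i - eta (i + 1)| ≤ b + 1 := fun i => by
    have h3 := abs_sub (t i) (eta (i + 1))
    have h4 : |eta (i + 1)| ≤ 1 := by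
      unfold eta
      split_ifs <;> norm_num
    have := ht i
    linarith
  have h3 := (h (fun i => t i - eta (i + 1)) (fun i => t i - eta (i + 1)) 0 le_rfl h1 h1 (fun i => by simp)).1
  rwa [eval_AK] at h3

theorem PC_bound (hd : ∀ l, Odd (d l + 1)) (k : ι → ℕ) : ∃ M : ℝ, 0 ≤ M ∧ ∀ (p : ℕ) (hp : Fact p.Prime), p ≠ 2 →
    ∀ u : ∀ l, Fin (d l + 1) → ZMod p, |PC p k u| ≤ M := by
  have h1 : ∀ i : ι, ∃ M : ℝ, 0 ≤ M ∧ ∀ t : ℕ → ℝ, (∀ i, |t i| ≤ ∑ l, (d l : ℝ)) → |coe t (k i)| ≤ M := fun i =>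
    coe_bound _ (sum_nonneg fun l _ => Nat.cast_nonneg _) (k i)
  choose M hM h using h1
  refine ⟨∏ i, M i, prod_nonneg fun i _ => hM i, fun p hp h2 u => ?_⟩
  unfold PC
  rw [abs_prod]
  exact prod_le_prod (fun i _ => abs_nonneg _) fun i _ => h i _ fun j => sP_abs h2 hd u j

/-- **the joint moments for products** -/
theorem PC_mom (hd : ∀ l, Odd (d l + 1)) (k : ι → ℕ) (hk : ∀ l, ∑ i, k i ≤ d l + 1) :
    Nr (fun p _ => av (fun u : ∀ l, Fin (d l + 1) → ZMod p => PC p k u)) (gR R k) := by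
  have h1 : ∀ A ∈ Dk R k, Nr (fun p _ => ∏ l, av (fun u : Fin (d l + 1) → ZMod p => ∏ i, coe (sn p u) (A i l)))
      (∏ l, (gr (fun i => A i l) : ℝ)) := by
    intro A hA
    rw [mem_Dk] at hA
    refine Nr.prod univ (fun l p _ => av (fun u : Fin (d l + 1) → ZMod p => ∏ i, coe (sn p u) (A i l))) _ fun l _ => ?_
    refine coe_mom (d l) (hd l) (fun i => A i l) (le_trans (sum_le_sum fun i _ => ?_) (hk l))
    rw [← hA i]
    exact single_le_sum (f := fun l => A i l) (fun _ _ => Nat.zero_le _) (mem_univ l)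
  have h2 := Nr.sum (Dk R k) (fun A p _ => ∏ l, av (fun u : Fin (d l + 1) → ZMod p => ∏ i, coe (sn p u) (A i l)))
    (fun A => ∏ l, (gr (fun i => A i l) : ℝ)) h1
  have h3 : ((gR R k : ℕ) : ℝ) = ∑ A ∈ Dk R k, ∏ l, (gr (fun i => A i l) : ℝ) := by
    rw [gR_eq]
    push_cast
    rfl
  rw [h3]
  refine h2.congr fun p hp hp2 => ?_
  have h4 : (fun u : ∀ l, Fin (d l + 1) → ZMod p => PC p k u) = fun u => ∑ A ∈ Dk R k, ∏ l, ∏ i, coe (sn p (u l)) (A i l) := by
    funext u
    exact prod_coe (fun l => sn p (u l)) k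
  show ∑ A ∈ Dk R k, ∏ l, av (fun u : Fin (d l + 1) → ZMod p => ∏ i, coe (sn p u) (A i l)) = av (fun u : ∀ l, Fin (d l + 1) → ZMod p => PC p k u)
  rw [h4, av_sum]
  refine sum_congr rfl fun A _ => ?_
  exact (av_pi (fun l (v : Fin (d l + 1) → ZMod p) => ∏ i, coe (sn p v) (A i l))).symm

end

end Pool.Agent.Run7.h712.HE
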