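import Pool.Agent.Run7.h3.ST.Mom

set_option autoImplicit false
set_option linter.unusedSectionVars false
set_option linter.unusedVariables false

/-! Random values which are independent up to a given total weight, and the moments of sums of centred
functions of them (adapted from `Run7/h3/ST/Mod.lean` and `Run7/h3/ST/Mom.lean` of helper3, which treat
indicator variables). -/

namespace Pool.Agent.Run7.h712.HE

open Finset
open Q282.CL
open Q282MM (gm)

section

variable {K ι β : Type} [Fintype K] [Nonempty K] [DecidableEq ι]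

/-- the values `V x`, `x ∈ S`, are independent if the total weight of `S` is at most `m` -/
def Ind (V : ι → K → β) (w : ι → ℕ) (Ω : Finset ι) (m : ℕ) : Prop :=
  ∀ S ⊆ Ω, ∑ x ∈ S, w x ≤ m → ∀ g : ι → β → ℝ,
    av (fun c => ∏ x ∈ S, g x (V x c)) = ∏ x ∈ S, av (fun c => g x (V x c))

variable {V : ι → K → β} {w : ι → ℕ} {Ω : Finset ι} {m : ℕ}

/-- sums of products of functions of the values at points in `A` of total weight at most `μ` -/
def PV (V : ι → K → β) (w : ι → ℕ) (A : Finset ι) (μ : ℕ) : Submodule ℝ (K → ℝ) :=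
  Submodule.span ℝ {f | ∃ S ⊆ A, ∑ x ∈ S, w x ≤ μ ∧ ∃ g : ι → β → ℝ, f = fun c => ∏ x ∈ S, g x (V x c)}

theorem PV.const (A : Finset ι) (μ : ℕ) (a : ℝ) : (fun _ => a) ∈ PV V w A μ := by
  have h1 : (fun _ : K => a) = a • fun c => ∏ x ∈ (∅ : Finset ι), (fun _ _ => (1 : ℝ)) x (V x c) := by
    funext c
    simp
  rw [h1]
  exact Submodule.smul_mem _ _ (Submodule.subset_span ⟨∅, empty_subset _, by simp, (fun _ _ => (1 : ℝ)), rfl⟩)

theorem PV.var {A : Finset ι} {μ : ℕ} {x : ι} (hx : x ∈ A) (hw : w x ≤ μ) (g : β → ℝ) :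
    (fun c => g (V x c)) ∈ PV V w A μ :=
  Submodule.subset_span ⟨{x}, singleton_subset_iff.2 hx, by simpa using hw, fun _ => g, by funext c; simp⟩

theorem PV.mono {A A' : Finset ι} {μ μ' : ℕ} (hA : A ⊆ A') (hμ : μ ≤ μ') : PV V w A μ ≤ PV V w A' μ' := by
  refine Submodule.span_mono ?_
  rintro f ⟨S, hS, hw, g, rfl⟩
  exact ⟨S, hS.trans hA, hw.trans hμ, g, rfl⟩

theorem prod_two (g g' : ι → β → ℝ) (S T : Finset ι) (v : ι → β) :
    (∏ x ∈ S, g x (v x)) * ∏ x ∈ T, g' x (v x) =
      ∏ x ∈ S ∪ T, (fun (x : ι) (b : β) => (if x ∈ S then g x b else 1) * (if x ∈ T then g' x b else 1)) x (v x) := by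
  rw [prod_mul_distrib]
  congr 1
  · rw [← prod_subset (subset_union_left : S ⊆ S ∪ T)]
    · exact prod_congr rfl fun x hx => by rw [if_pos hx]
    · intro x _ hx
      rw [if_neg hx]
  · rw [← prod_subset (subset_union_right : T ⊆ S ∪ T)]
    · exact prod_congr rfl fun x hx => by rw [if_pos hx]
    · intro x _ hx
      rw [if_neg hx]

theorem PV.mul {A A' : Finset ι} {μ μ' : ℕ} {f g : K → ℝ}
    (hf : f ∈ PV V w A μ) (hg : g ∈ PV V w A' μ') : (fun c => f c * g c) ∈ PV V w (A ∪ A') (μ + μ') := by
  induction hf using Submodule.span_induction with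
  | mem f hf =>
    obtain ⟨S, hS, hw, a, rfl⟩ := hf
    induction hg using Submodule.span_induction with
    | mem g hg =>
      obtain ⟨T, hT, hw', b, rfl⟩ := hg
      refine Submodule.subset_span ⟨S ∪ T, union_subset_union hS hT, ?_,
        (fun x y => (if x ∈ S then a x y else 1) * (if x ∈ T then b x y else 1)), ?_⟩
      · refine le_trans ?_ (Nat.add_le_add hw hw')
        rw [← sum_union_inter]
        exact Nat.le_add_right _ _
      · funext c
        exact prod_two a b S T fun x => V x c
    | zero =>
      convert Submodule.zero_mem _ using 1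
      funext c
      simp
    | add g g' _ _ h1 h2 =>
      convert Submodule.add_mem _ h1 h2 using 1
      funext c
      simp [mul_add]
    | smul a g _ h1 =>
      convert Submodule.smul_mem _ a h1 using 1
      funext c
      simp only [Pi.smul_apply, smul_eq_mul]
      ring
  | zero =>
    convert Submodule.zero_mem _ using 1
    funext c
    simp
  | add f f' _ _ h1 h2 =>
    convert Submodule.add_mem _ h1 h2 using 1
    funext c
    simp [add_mul]
  | smul a f _ h1 =>
    convert Submodule.smul_mem _ a h1 using 1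
    funext c
    simp only [Pi.smul_apply, smul_eq_mul]
    ring

theorem PV.pow {A : Finset ι} {μ : ℕ} {f : K → ℝ}
    (hf : f ∈ PV V w A μ) (k : ℕ) : (fun c => f c ^ k) ∈ PV V w A (μ * k) := by
  induction k with
  | zero =>
    simp only [pow_zero, mul_zero]
    exact PV.const A 0 1
  | succ k ih =>
    have h1 := PV.mul ih hf
    rw [union_self] at h1
    simp only [pow_succ]
    rw [mul_add, mul_one]
    exact h1

theorem PV.prod {α : Type} [DecidableEq α] (R : Finset α) (A : α → Finset ι)
    (μ : α → ℕ) (f : α → K → ℝ) (hf : ∀ e ∈ R, f e ∈ PV V w (A e) (μ e)) :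
    (fun c => ∏ e ∈ R, f e c) ∈ PV V w (R.biUnion A) (∑ e ∈ R, μ e) := by
  induction R using Finset.induction_on with
  | empty =>
    simp only [prod_empty, sum_empty]
    exact PV.const _ _ 1
  | insert a R ha ih =>
    have h1 := PV.mul (hf a (mem_insert_self _ _)) (ih fun e he => hf e (mem_insert_of_mem he))
    rw [biUnion_insert, sum_insert ha]
    simp only [prod_insert ha]
    exact h1

/-- independence -/
theorem Ind.av_mul (h : Ind V w Ω m) {A A' : Finset ι} {μ μ' : ℕ} {f g : K → ℝ} (hA : A ⊆ Ω)
    (hA' : A' ⊆ Ω) (hd : Disjoint A A') (hμ : μ + μ' ≤ m) (hf : f ∈ PV V w A μ)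
    (hg : g ∈ PV V w A' μ') : av (fun c => f c * g c) = av f * av g := by
  induction hf using Submodule.span_induction with
  | mem f hf =>
    obtain ⟨S, hS, hw, a, rfl⟩ := hf
    induction hg using Submodule.span_induction with
    | mem g hg =>
      obtain ⟨T, hT, hw', b, rfl⟩ := hg
      have hST : Disjoint S T := Finset.disjoint_of_subset_left hS (Finset.disjoint_of_subset_right hT hd)
      have h1 : (fun c => (∏ x ∈ S, a x (V x c)) * ∏ x ∈ T, b x (V x c)) =
          fun c => ∏ x ∈ S ∪ T, (fun (x : ι) (y : β) => if x ∈ S then a x y else b x y) x (V x c) := by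
        funext c
        rw [prod_union hST]
        congr 1
        · exact prod_congr rfl fun x hx => by simp only [if_pos hx]
        · refine prod_congr rfl fun x hx => ?_
          have : x ∉ S := fun h => (disjoint_left.1 hST h) hx
          simp only [if_neg this]
      rw [h1, h (S ∪ T) (union_subset (hS.trans hA) (hT.trans hA')) (by rw [sum_union hST]; omega)
        (fun (x : ι) (y : β) => if x ∈ S then a x y else b x y),
        h S (hS.trans hA) (by omega) a, h T (hT.trans hA') (by omega) b, prod_union hST]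
      congr 1
      · exact prod_congr rfl fun x hx => by simp only [if_pos hx]
      · refine prod_congr rfl fun x hx => ?_
        have : x ∉ S := fun h => (disjoint_left.1 hST h) hx
        simp only [if_neg this]
    | zero =>
      simp only [Pi.zero_apply, mul_zero]
      rw [show (0 : K → ℝ) = fun _ => 0 from rfl, av_const, mul_zero]
    | add g g' _ _ h1 h2 =>
      simp only [Pi.add_apply, mul_add]
      rw [show g + g' = fun c => g c + g' c from rfl, av_add, av_add, h1, h2, mul_add]
    | smul b g _ h1 =>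
      have h2 : (fun c => (∏ x ∈ S, a x (V x c)) * (b • g) c) = fun c => b * ((∏ x ∈ S, a x (V x c)) * g c) := by
        funext c
        simp only [Pi.smul_apply, smul_eq_mul]
        ring
      rw [h2, Q282.CL.av_mul, h1, show b • g = fun c => b * g c from rfl, Q282.CL.av_mul]
      ring
  | zero =>
    simp only [Pi.zero_apply, zero_mul]
    rw [show (0 : K → ℝ) = fun _ => 0 from rfl, av_const, zero_mul]
  | add f f' _ _ h1 h2 =>
    simp only [Pi.add_apply, add_mul]
    rw [show f + f' = fun c => f c + f' c from rfl, av_add, av_add, h1, h2, add_mul]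
  | smul a f _ h1 =>
    have h2 : (fun c => (a • f) c * g c) = fun c => a * (f c * g c) := by
      funext c
      simp only [Pi.smul_apply, smul_eq_mul]
      ring
    rw [h2, Q282.CL.av_mul, h1, show a • f = fun c => a * f c from rfl, Q282.CL.av_mul]
    ring

/-- independence of several blocks -/
theorem Ind.av_prod (h : Ind V w Ω m) {α : Type} [DecidableEq α] (R : Finset α) (A : α → Finset ι)
    (μ : α → ℕ) (f : α → K → ℝ) (hA : ∀ e ∈ R, A e ⊆ Ω)
    (hd : (R : Set α).PairwiseDisjoint A) (hμ : ∑ e ∈ R, μ e ≤ m)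
    (hf : ∀ e ∈ R, f e ∈ PV V w (A e) (μ e)) :
    av (fun c => ∏ e ∈ R, f e c) = ∏ e ∈ R, av (f e) := by
  induction R using Finset.induction_on with
  | empty =>
    simp only [prod_empty]
    exact av_const 1
  | insert a R ha ih =>
    simp only [prod_insert ha]
    rw [sum_insert ha] at hμ
    have h1 := PV.prod (w := w) R A μ f fun e he => hf e (mem_insert_of_mem he)
    have h2 : Disjoint (A a) (R.biUnion A) := by
      rw [disjoint_biUnion_right]
      intro e he
      refine hd (by simp) (by simp [he]) ?_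
      rintro rfl
      exact ha he
    have h3 : R.biUnion A ⊆ Ω := biUnion_subset.2 fun e he => hA e (mem_insert_of_mem he)
    rw [h.av_mul (hA a (mem_insert_self _ _)) h3 h2 hμ (hf a (mem_insert_self _ _)) h1,
      ih (fun e he => hA e (mem_insert_of_mem he))
        (hd.subset (by rw [coe_insert]; exact Set.subset_insert _ _)) (by omega)
        fun e he => hf e (mem_insert_of_mem he)]

/-- the sum of the variables `g (V x)`, `x ∈ A` -/
noncomputable def cs (V : ι → K → β) (g : β → ℝ) (A : Finset ι) (c : K) : ℝ := ∑ x ∈ A, g (V x c)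

theorem PV.cs {A : Finset ι} {e : ℕ} (hw : ∀ x ∈ A, w x ≤ e) (g : β → ℝ) : cs V g A ∈ PV V w A e := by
  have h1 : Pool.Agent.Run7.h712.HE.cs V g A = ∑ x ∈ A, (fun c => g (V x c)) := by
    funext c
    rw [Finset.sum_apply]
    rfl
  rw [h1]
  exact Submodule.sum_mem _ fun x hx => PV.var hx (hw x hx) g

theorem cs_insert (V : ι → K → β) (g : β → ℝ) {a : ι} {A : Finset ι} (ha : a ∉ A) (c : K) :
    cs V g (insert a A) c = g (V a c) + cs V g A c := by
  unfold cs
  rw [sum_insert ha]

variable {g : β → ℝ} {e : ℕ} {E : ℕ → ℝ}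

/-- the moments of one more summand -/
theorem cs_rec (h : Ind V w Ω m) (hE0 : E 0 = 1) (a : ι) {A : Finset ι} (ha : a ∉ A) (hA : insert a A ⊆ Ω)
    (hl : ∀ t ∈ insert a A, w t = e ∧ ∀ j, 1 ≤ j → av (fun c => g (V t c) ^ j) = E j) (k : ℕ) (hk : e * k ≤ m) :
    av (fun c : K => cs V g (insert a A) c ^ k) =
      ∑ j ∈ range (k + 1), (k.choose j : ℝ) * (E j * av (fun c : K => cs V g A c ^ (k - j))) := by
  have h1 : (fun c : K => cs V g (insert a A) c ^ k) =
      fun c => ∑ j ∈ range (k + 1), (k.choose j : ℝ) * (g (V a c) ^ j * cs V g A c ^ (k - j)) := by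
    funext c
    rw [cs_insert V g ha, add_pow]
    refine sum_congr rfl fun j _ => ?_
    ring
  rw [h1, av_sum]
  refine sum_congr rfl fun j hj => ?_
  rw [mem_range] at hj
  rw [Q282.CL.av_mul]
  congr 1
  rcases Nat.eq_zero_or_pos j with rfl | hj0
  · simp only [pow_zero, one_mul]
    rw [hE0, one_mul]
  · have haΩ : a ∈ Ω := hA (mem_insert_self _ _)
    have hwa := (hl a (mem_insert_self _ _)).1
    have he1 : e ≤ m := le_trans (Nat.le_mul_of_pos_right e (by omega)) hk
    have hf : (fun c => g (V a c) ^ j) ∈ PV V w {a} e :=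
      PV.var (mem_singleton_self a) hwa.le (fun b => g b ^ j)
    have hg : (fun c => cs V g A c ^ (k - j)) ∈ PV V w A (e * (k - j)) :=
      PV.pow (PV.cs (fun x hx => (hl x (mem_insert_of_mem hx)).1.le) _) _
    have hμ : e + e * (k - j) ≤ m := by
      refine le_trans ?_ hk
      have h3 : e + e * (k - j) = e * (1 + (k - j)) := by ring
      rw [h3]
      exact Nat.mul_le_mul_left e (by omega)
    rw [h.av_mul (singleton_subset_iff.2 haΩ) ((subset_insert a A).trans hA)
      (disjoint_singleton_left.2 ha) hμ hf hg, (hl a (mem_insert_self _ _)).2 j hj0]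

theorem cs_one (hE1 : E 1 = 0) {A : Finset ι}
    (hl : ∀ t ∈ A, w t = e ∧ ∀ j, 1 ≤ j → av (fun c => g (V t c) ^ j) = E j) : av (fun c : K => cs V g A c) = 0 := by
  unfold cs
  rw [av_sum]
  refine sum_eq_zero fun x hx => ?_
  have h1 := (hl x hx).2 1 le_rfl
  simp only [pow_one] at h1
  rw [h1, hE1]

theorem cs_two (h : Ind V w Ω m) (hE0 : E 0 = 1) (hE1 : E 1 = 0) {A : Finset ι} (hA : A ⊆ Ω)
    (hl : ∀ t ∈ A, w t = e ∧ ∀ j, 1 ≤ j → av (fun c => g (V t c) ^ j) = E j) (he : e * 2 ≤ m) :
    av (fun c : K => cs V g A c ^ 2) = A.card * E 2 := by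
  induction A using Finset.induction_on with
  | empty =>
    unfold cs
    simp only [sum_empty, card_empty, Nat.cast_zero, zero_mul]
    rw [zero_pow two_ne_zero]
    exact av_const 0
  | insert a A ha ih =>
    have h1 := cs_rec h hE0 a ha hA hl 2 he
    rw [h1, sum_range_succ, sum_range_succ, sum_range_succ, sum_range_zero]
    simp only [Nat.choose_zero_right, Nat.cast_one, one_mul, Nat.sub_zero, zero_add, Nat.sub_self, pow_zero, Nat.choose_self]
    rw [hE0, hE1, ih ((subset_insert a A).trans hA) (fun t ht => hl t (mem_insert_of_mem ht)),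
      av_const, card_insert_of_notMem ha]
    push_cast
    ring

end

/-- **the moments of the sum are close to those of the normal law** -/
theorem mom_near (k : ℕ) : ∃ C : ℝ, 1 ≤ C ∧ ∀ (ι K β : Type) [Fintype K] [Nonempty K] [DecidableEq ι] (V : ι → K → β) (w : ι → ℕ)
    (Ω : Finset ι) (m e : ℕ) (g : β → ℝ) (E : ℕ → ℝ) (r : ℝ), Ind V w Ω m → 1 ≤ r → E 0 = 1 → E 1 = 0 → 0 ≤ E 2 →
    (∀ j, |E j| ≤ 1) →
    ∀ A : Finset ι, A ⊆ Ω → (∀ t ∈ A, w t = e ∧ ∀ j, 1 ≤ j → av (fun c => g (V t c) ^ j) = E j) → (A.card : ℝ) ≤ r ^ 2 → ∀ j ≤ k, e * j ≤ m →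
      |av (fun c : K => cs V g A c ^ j) - (gm j : ℝ) * (A.card * E 2) ^ (j / 2)| ≤ C * r ^ (j - 1) := by
  induction k with
  | zero =>
    refine ⟨1, le_rfl, fun ι K β _ _ _ V w Ω m e g E r hI hr hE0 hE1 hE2 hE A hs hl hA2 j hj hjm => ?_⟩
    have hj0 : j = 0 := by omega
    subst hj0
    simp only [pow_zero]
    rw [av_const, Run7.h3.ST.gm_zero, Nat.cast_one]
    norm_num
  | succ k ih =>
    obtain ⟨C, hC, ih⟩ := ih
    obtain ⟨G, hG⟩ : ∃ G : ℝ, G = ∑ j ∈ range (k + 2), (gm j : ℝ) := ⟨_, rfl⟩
    have hGj : ∀ j ≤ k + 1, (gm j : ℝ) ≤ G := fun j hj => by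
      rw [hG]
      exact single_le_sum (f := fun j => (gm j : ℝ)) (fun i _ => Nat.cast_nonneg _) (mem_range.2 (by omega))
    have hG0 : 0 ≤ G := (Nat.cast_nonneg _).trans (hGj 0 (by omega))
    obtain ⟨W, hW⟩ : ∃ W : ℝ, W = G * (k + 1) ^ 2 + 2 ^ (k + 1) * (G + 2 * C) := ⟨_, rfl⟩
    have hW0 : 0 ≤ W := by
      rw [hW]
      positivity
    refine ⟨C + W, by linarith, ?_⟩
    intro ι K β _ _ _ V w Ω m e g E r hI hr hE0 hE1 hE2 hE A hs hl hA2 j hj hjm
    obtain ⟨σ, hσe⟩ : ∃ σ : ℝ, σ = E 2 := ⟨_, rfl⟩
    have hσ : 0 ≤ σ := by rw [hσe]; exact hE2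
    have hσq : σ ≤ 1 := by rw [hσe]; exact (le_abs_self _).trans (hE 2)
    rw [← hσe]
    rcases Nat.lt_or_ge j (k + 1) with hjk | hjk
    · have h0 := ih ι K β V w Ω m e g E r hI hr hE0 hE1 hE2 hE A hs hl hA2 j (by omega) hjm
      rw [← hσe] at h0
      refine h0.trans ?_
      exact mul_le_mul_of_nonneg_right (by linarith) (by positivity)
    · have hjk : j = k + 1 := by omega
      subst hjk
      classical
      have hr0 : 0 < r := by linarith
      rcases Nat.lt_or_ge k 2 with hk2 | hk2
      · -- the moments of order one and two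
        have hz : |av (fun c : K => cs V g A c ^ (k + 1)) - (gm (k + 1) : ℝ) * (A.card * σ) ^ ((k + 1) / 2)| = 0 := by
          rcases (by omega : k = 0 ∨ k = 1) with rfl | rfl
          · have h1 := cs_one hE1 hl
            simp only [zero_add, pow_one]
            rw [h1, Run7.h3.ST.gm_odd (by decide)]
            simp
          · have h1 := cs_two hI hE0 hE1 hs hl (by simpa using hjm)
            simp only [Nat.reduceAdd]
            rw [h1, ← hσe]
            have : gm 2 = 1 := by
              unfold gm
              rw [if_pos (by decide)]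
              rfl
            rw [this]
            simp
        rw [hz]
        positivity
      · -- the higher moments
        have key : ∀ A : Finset ι, A ⊆ Ω → (∀ t ∈ A, w t = e ∧ ∀ j, 1 ≤ j → av (fun c => g (V t c) ^ j) = E j) → (A.card : ℝ) ≤ r ^ 2 →
            |av (fun c : K => cs V g A c ^ (k + 1)) - (gm (k + 1) : ℝ) * (A.card * σ) ^ ((k + 1) / 2)| ≤ A.card * (W * r ^ (k - 2)) := by
          intro A
          induction A using Finset.induction_on with
          | empty =>
            intro _ _ _
            have h1 : (fun c : K => cs V g ∅ c ^ (k + 1)) = fun _ => (0 : ℝ) := by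
              funext c
              unfold cs
              rw [sum_empty, zero_pow (by omega)]
            rw [h1, av_const]
            simp only [card_empty, Nat.cast_zero, zero_mul]
            rw [zero_pow (by omega)]
            simp
          | insert a A ha ihA =>
            intro hs hl hA2
            have hcard : ((insert a A).card : ℝ) = A.card + 1 := by
              rw [card_insert_of_notMem ha]
              push_cast
              rfl
            rw [hcard] at hA2 ⊢
            have hs' : A ⊆ Ω := (subset_insert a A).trans hs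
            have hl' : ∀ t ∈ A, w t = e ∧ ∀ j, 1 ≤ j → av (fun c => g (V t c) ^ j) = E j := fun t ht => hl t (mem_insert_of_mem ht)
            have hA0 : (0 : ℝ) ≤ A.card := Nat.cast_nonneg _
            have hA2' : (A.card : ℝ) ≤ r ^ 2 := by linarith
            have hA1' : (A.card : ℝ) * σ ≤ r ^ 2 := by nlinarith
            have hA1 : ((A.card : ℝ) + 1) * σ ≤ r ^ 2 := by nlinarith
            have h1 := ihA hs' hl' hA2'
            have hM : ∀ j ≤ k, |av (fun c : K => cs V g A c ^ j) - (gm j : ℝ) * (A.card * σ) ^ (j / 2)| ≤ C * r ^ (j - 1) := fun j hj => by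
              have := ih ι K β V w Ω m e g E r hI hr hE0 hE1 hE2 hE A hs' hl' hA2' j hj ((Nat.mul_le_mul_left e (by omega)).trans hjm)
              rwa [← hσe] at this
            have hMa : ∀ j ≤ k, |av (fun c : K => cs V g A c ^ j)| ≤ (G + C) * r ^ j := by
              intro j hj
              have h2 := hM j hj
              have h3 : (gm j : ℝ) * (A.card * σ) ^ (j / 2) ≤ G * r ^ j := by
                have h4 : ((A.card : ℝ) * σ) ^ (j / 2) ≤ r ^ j := by
                  refine (pow_le_pow_left₀ (by positivity) hA1' (j / 2)).trans ?_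
                  rw [← pow_mul]
                  exact pow_le_pow_right₀ hr (by omega)
                exact mul_le_mul (hGj j (by omega)) h4 (by positivity) hG0
              have h4 : C * r ^ (j - 1) ≤ C * r ^ j := mul_le_mul_of_nonneg_left (pow_le_pow_right₀ hr (by omega)) (by linarith)
              have h5 : 0 ≤ (gm j : ℝ) * (A.card * σ) ^ (j / 2) := by positivity
              have h6 := abs_sub_abs_le_abs_sub (av fun c : K => cs V g A c ^ j) ((gm j : ℝ) * (A.card * σ) ^ (j / 2))
              rw [abs_of_nonneg h5] at h6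
              linarith
            -- the recursion
            have hrec := cs_rec hI hE0 a ha hs hl (k + 1) hjm
            obtain ⟨k', rfl⟩ : ∃ k', k = k' + 2 := ⟨k - 2, by omega⟩
            rw [sum_range_succ', sum_range_succ', sum_range_succ'] at hrec
            simp only [pow_zero, Nat.choose_zero_right, Nat.cast_one, one_mul, Nat.sub_zero, zero_add, pow_one, Nat.reduceAdd] at hrec
            rw [hE0, hE1, ← hσe, zero_mul, mul_zero, add_zero, one_mul] at hrec
            have h2 : k' + 2 + 1 - 2 = k' + 1 := by omega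
            rw [h2] at hrec
            have hinc := Run7.h3.ST.gm_inc (A.card * σ) σ 1 r (by positivity) hσ le_rfl hr (by rw [div_one]; exact hσq) (by linarith) (k' + 2 + 1) (by omega)
            rw [h2] at hinc
            have h3 : (((A.card : ℝ) + 1) * σ) = A.card * σ + σ := by ring
            rw [hrec, h3]
            -- the sum of the high terms
            obtain ⟨S, hS⟩ : ∃ S : ℝ, S = ∑ x ∈ range (k' + 1), (((k' + 2 + 1).choose (x + 1 + 1 + 1) : ℕ) : ℝ) *
              (E (x + 1 + 1 + 1) * av (fun c : K => cs V g A c ^ (k' + 2 + 1 - (x + 1 + 1 + 1)))) := ⟨_, rfl⟩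
            have hS1 : |S| ≤ 2 ^ (k' + 3) * ((G + C) * r ^ k') := by
              rw [hS]
              refine (abs_sum_le_sum_abs _ _).trans ?_
              have h4 : ∀ x ∈ range (k' + 1), |(((k' + 2 + 1).choose (x + 1 + 1 + 1) : ℕ) : ℝ) *
                  (E (x + 1 + 1 + 1) * av (fun c : K => cs V g A c ^ (k' + 2 + 1 - (x + 1 + 1 + 1))))| ≤
                  (((k' + 2 + 1).choose (x + 3) : ℕ) : ℝ) * ((G + C) * r ^ k') := by
                intro x hx
                rw [mem_range] at hx
                rw [abs_mul, Nat.abs_cast, abs_mul]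
                refine mul_le_mul_of_nonneg_left ?_ (Nat.cast_nonneg _)
                have h5 : |E (x + 1 + 1 + 1)| * |av (fun c : K => cs V g A c ^ (k' + 2 + 1 - (x + 1 + 1 + 1)))| ≤ 1 * ((G + C) * r ^ k') := by
                  refine mul_le_mul (hE _) ?_ (abs_nonneg _) zero_le_one
                  refine (hMa _ (by omega)).trans ?_
                  exact mul_le_mul_of_nonneg_left (pow_le_pow_right₀ hr (by omega)) (by linarith)
                rwa [one_mul] at h5
              refine (sum_le_sum h4).trans ?_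
              rw [← sum_mul]
              refine mul_le_mul_of_nonneg_right ?_ (by positivity)
              have h5 : ∑ x ∈ range (k' + 1), (((k' + 2 + 1).choose (x + 3) : ℕ) : ℝ) ≤ ∑ x ∈ range (k' + 4), (((k' + 3).choose x : ℕ) : ℝ) := by
                rw [← Nat.cast_sum, ← Nat.cast_sum]
                refine Nat.cast_le.2 ?_
                rw [sum_range_succ' _ (k' + 3), sum_range_succ' _ (k' + 2), sum_range_succ' _ (k' + 1)]
                refine le_trans (le_of_eq (sum_congr rfl fun x _ => ?_)) (le_trans (Nat.le_add_right _ _) (le_trans (Nat.le_add_right _ _) (Nat.le_add_right _ _)))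
                rfl
              refine h5.trans ?_
              have h6 := Nat.sum_range_choose (k' + 3)
              have h7 : ∑ x ∈ range (k' + 4), (((k' + 3).choose x : ℕ) : ℝ) = 2 ^ (k' + 3) := by exact_mod_cast h6
              rw [h7]
            have hM1 : |((k' + 2 + 1).choose 2 : ℝ) * (σ * av (fun c : K => cs V g A c ^ (k' + 1))) -
                ((k' + 2 + 1).choose 2 : ℝ) * σ * ((gm (k' + 1) : ℝ) * (A.card * σ) ^ ((k' + 1) / 2))| ≤ 2 ^ (k' + 3) * (C * r ^ k') := by
              have h4 : ((k' + 2 + 1).choose 2 : ℝ) * (σ * av (fun c : K => cs V g A c ^ (k' + 1))) -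
                  ((k' + 2 + 1).choose 2 : ℝ) * σ * ((gm (k' + 1) : ℝ) * (A.card * σ) ^ ((k' + 1) / 2)) =
                  ((k' + 2 + 1).choose 2 : ℝ) * (σ * (av (fun c : K => cs V g A c ^ (k' + 1)) - (gm (k' + 1) : ℝ) * (A.card * σ) ^ ((k' + 1) / 2))) := by
                ring
              rw [h4, abs_mul, Nat.abs_cast, abs_mul, abs_of_nonneg hσ]
              have h5 : ((k' + 2 + 1).choose 2 : ℝ) ≤ 2 ^ (k' + 3) := by
                exact_mod_cast Nat.choose_le_two_pow (k' + 3) 2
              have h6 := hM (k' + 1) (by omega)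
              rw [Nat.add_sub_cancel] at h6
              have h7 : σ * |av (fun c : K => cs V g A c ^ (k' + 1)) - (gm (k' + 1) : ℝ) * (A.card * σ) ^ ((k' + 1) / 2)| ≤ 1 * (C * r ^ k') :=
                mul_le_mul hσq h6 (abs_nonneg _) zero_le_one
              rw [one_mul] at h7
              exact mul_le_mul h5 h7 (by positivity) (by positivity)
            have h4 : k' + 2 - 2 = k' := by omega
            have h5 : k' + 2 + 1 - 3 = k' := by omega
            rw [h4] at h1 ⊢
            rw [h5] at hinc
            have h6 : (gm (k' + 2 + 1) : ℝ) * ((k' + 2 + 1 : ℕ) : ℝ) ^ 2 / 1 * r ^ k' ≤ G * ((k' + 2 : ℕ) + 1) ^ 2 * (r ^ k') := by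
              have h7 : (gm (k' + 2 + 1) : ℝ) * ((k' + 2 + 1 : ℕ) : ℝ) ^ 2 / 1 * r ^ k' =
                  (gm (k' + 2 + 1) : ℝ) * (((k' + 2 : ℕ) : ℝ) + 1) ^ 2 * (r ^ k') := by
                push_cast
                ring
              rw [h7]
              refine mul_le_mul_of_nonneg_right ?_ (by positivity)
              exact mul_le_mul_of_nonneg_right (hGj _ le_rfl) (by positivity)
            have h7 : ((A.card : ℝ) + 1) * (W * r ^ k') = A.card * (W * r ^ k') +
                (G * ((k' + 2 : ℕ) + 1) ^ 2 * (r ^ k') + 2 ^ (k' + 3) * ((G + C) * r ^ k') + 2 ^ (k' + 3) * (C * r ^ k')) := by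
              rw [hW]
              push_cast
              ring
            rw [h7, ← hS]
            rw [abs_le] at h1 hinc hS1 hM1 ⊢
            constructor <;> linarith [h1.1, h1.2, hinc.1, hinc.2, hS1.1, hS1.2, hM1.1, hM1.2]
        have h1 := key A hs hl hA2
        refine h1.trans ?_
        have h2 : (A.card : ℝ) * (W * r ^ (k - 2)) ≤ (r ^ 2) * (W * r ^ (k - 2)) :=
          mul_le_mul_of_nonneg_right hA2 (by positivity)
        refine h2.trans ?_
        have h3 : (r ^ 2) * (W * r ^ (k - 2)) = W * r ^ (k + 1 - 1) := by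
          have h4 : r ^ (k + 1 - 1) = r ^ 2 * r ^ (k - 2) := by
            rw [← pow_add]
            congr 1
            omega
          rw [h4]
          ring
        rw [h3]
        exact mul_le_mul_of_nonneg_right (by linarith) (by positivity)

end Pool.Agent.Run7.h712.HE
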