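import Pool.Agent.Y57.FD.Mom2
import Pool.Agent.H341R2.WeilSharp

/-!
# Monic polynomials of odd degree over a prime field

The values of a random monic polynomial, Weil's bound for the sums of the quadratic character of the values at the points of a finite
extension, and the number of the polynomials which are not separable. (The lemmas on `pol` are copied from the starting file
`Pool/Agent/Y57/FD/HypM.lean`, Weil's bound over extensions from `Pool/Agent/V11210/G2/Loc.lean`, because their imports are long.)
-/

set_option autoImplicit false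
set_option linter.unusedSectionVars false

namespace Pool.Agent.Run7.h712.HE

open Finset

section One

variable (p : ℕ) [Fact p.Prime]

variable (p : ℕ) [Fact p.Prime]

/-- the polynomial with the coefficients `u` -/
noncomputable def pol {D : ℕ} (u : Fin D → ZMod p) : Polynomial (ZMod p) :=
  Polynomial.X ^ D + ∑ i, Polynomial.C (u i) * Polynomial.X ^ (i : ℕ)

lemma deg_low {D : ℕ} (u : Fin D → ZMod p) : (∑ i, Polynomial.C (u i) * Polynomial.X ^ (i : ℕ) : Polynomial (ZMod p)).degree < D := by
  exact Polynomial.degree_sum_fin_lt u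

lemma pol_monic {D : ℕ} (u : Fin D → ZMod p) : (pol p u).Monic := Polynomial.monic_X_pow_add (deg_low p u)

lemma pol_natDegree {D : ℕ} (u : Fin D → ZMod p) : (pol p u).natDegree = D := by
  apply Polynomial.natDegree_eq_of_degree_eq_some
  unfold pol
  rw [Polynomial.degree_add_eq_left_of_degree_lt, Polynomial.degree_X_pow]
  rw [Polynomial.degree_X_pow]
  exact deg_low p u

/-- there are few polynomials which are not separable -/
lemma bad_fiber {g : ℕ} (hpg : 2 * g + 1 < p) (w : Fin (2 * g) → ZMod p) :
    {z : ZMod p | ¬ (pol p (D := 2 * g + 1) (Fin.cons z w)).Separable}.ncard ≤ 2 * g + 1 := by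
  classical
  obtain ⟨h, hh⟩ : ∃ h : Polynomial (ZMod p), h = pol p (D := 2 * g + 1) (Fin.cons 0 w) := ⟨_, rfl⟩
  have hz : ∀ z : ZMod p, pol p (D := 2 * g + 1) (Fin.cons z w) = h + Polynomial.C z := by
    intro z
    rw [hh]
    unfold pol
    rw [Fin.sum_univ_succ, Fin.sum_univ_succ (f := fun i => Polynomial.C ((Fin.cons 0 w : Fin (2 * g + 1) → ZMod p) i) * Polynomial.X ^ (i : ℕ))]
    simp only [Fin.cons_zero, Fin.cons_succ, Fin.val_zero, pow_zero, mul_one, Polynomial.C_0, zero_add]
    ring
  have hd : ∀ z : ZMod p, (pol p (D := 2 * g + 1) (Fin.cons z w)).derivative = h.derivative := by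
    intro z
    rw [hz, Polynomial.derivative_add, Polynomial.derivative_C, add_zero]
  have hd0 : h.derivative ≠ 0 := by
    intro h0
    have h1 := congrArg (fun f => f.coeff (2 * g)) h0
    simp only [Polynomial.coeff_derivative, Polynomial.coeff_zero] at h1
    have h2 : h.coeff (2 * g + 1) = 1 := by
      have h3 := pol_monic p (D := 2 * g + 1) (Fin.cons 0 w)
      rw [← hh] at h3
      have h4 := h3.coeff_natDegree
      have h5 := pol_natDegree p (D := 2 * g + 1) (Fin.cons 0 w)
      rw [← hh] at h5
      rwa [h5] at h4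
    rw [h2, one_mul] at h1
    have h6 : (((2 * g + 1 : ℕ)) : ZMod p) = 0 := by
      push_cast
      push_cast at h1
      exact h1
    rw [ZMod.natCast_eq_zero_iff] at h6
    have := Nat.le_of_dvd (by omega) h6
    omega
  have hdeg : h.derivative.natDegree ≤ 2 * g + 1 := by
    have h1 := Polynomial.natDegree_derivative_le h
    have h5 := pol_natDegree p (D := 2 * g + 1) (Fin.cons 0 w)
    rw [← hh] at h5
    omega
  obtain ⟨R, hR⟩ : ∃ R : Finset (AlgebraicClosure (ZMod p)), R = (h.derivative.aroots (AlgebraicClosure (ZMod p))).toFinset := ⟨_, rfl⟩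
  have hRc : R.card ≤ 2 * g + 1 := by
    rw [hR]
    refine (Multiset.toFinset_card_le _).trans ?_
    refine (Polynomial.card_roots' _).trans ?_
    refine (Polynomial.natDegree_map_le).trans hdeg
  have hsub : (algebraMap (ZMod p) (AlgebraicClosure (ZMod p))) '' {z : ZMod p | ¬ (pol p (D := 2 * g + 1) (Fin.cons z w)).Separable} ⊆
      ((R.image (fun β => -(Polynomial.aeval β h)) : Finset (AlgebraicClosure (ZMod p))) : Set (AlgebraicClosure (ZMod p))) := by
    rintro _ ⟨z, hz1, rfl⟩
    rw [Set.mem_ofPred_eq] at hz1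
    unfold Polynomial.Separable at hz1
    rw [Polynomial.isCoprime_iff_aeval_ne_zero_of_isAlgClosed (ZMod p) (AlgebraicClosure (ZMod p))] at hz1
    push Not at hz1
    obtain ⟨β, h1, h2⟩ := hz1
    rw [hd] at h2
    rw [hz, map_add, Polynomial.aeval_C] at h1
    rw [coe_image]
    refine ⟨β, ?_, ?_⟩
    · rw [hR, mem_coe, Multiset.mem_toFinset, Polynomial.mem_aroots]
      exact ⟨hd0, h2⟩
    · exact (eq_neg_of_add_eq_zero_right h1).symm
  rw [← Set.ncard_image_of_injective _ (algebraMap (ZMod p) (AlgebraicClosure (ZMod p))).injective]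
  refine (Set.ncard_le_ncard hsub (finite_toSet _)).trans ?_
  rw [Set.ncard_coe_finset]
  exact card_image_le.trans hRc

open Classical in
lemma bad_card {g : ℕ} (hpg : 2 * g + 1 < p) :
    ((univ : Finset (Fin (2 * g + 1) → ZMod p)).filter (fun u => ¬ (pol p u).Separable)).card ≤ (2 * g + 1) * p ^ (2 * g) := by
  have h1 : ((univ : Finset (Fin (2 * g + 1) → ZMod p)).filter (fun u => ¬ (pol p u).Separable)).card =
      ∑ w : Fin (2 * g) → ZMod p, ((univ : Finset (ZMod p)).filter (fun z => ¬ (pol p (D := 2 * g + 1) (Fin.cons z w)).Separable)).card := by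
    rw [card_filter]
    simp only [card_filter]
    rw [sum_comm, ← Fintype.sum_prod_type' (f := fun (z : ZMod p) (w : Fin (2 * g) → ZMod p) =>
      if ¬ (pol p (D := 2 * g + 1) (Fin.cons z w)).Separable then 1 else 0)]
    refine (Fintype.sum_equiv (Fin.consEquiv (fun _ : Fin (2 * g + 1) => ZMod p)) _ _ ?_).symm
    intro x
    rfl
  rw [h1]
  have h2 : ∀ w : Fin (2 * g) → ZMod p,
      ((univ : Finset (ZMod p)).filter (fun z => ¬ (pol p (D := 2 * g + 1) (Fin.cons z w)).Separable)).card ≤ 2 * g + 1 := by
    intro w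
    refine le_trans (le_of_eq ?_) (bad_fiber p hpg w)
    rw [← Set.ncard_coe_finset]
    congr 1
    ext z
    simp
  refine (sum_le_sum fun w _ => h2 w).trans (le_of_eq ?_)
  rw [sum_const, card_univ, Fintype.card_pi_const, ZMod.card, smul_eq_mul]
  ring


end One

section Two

open Polynomial

variable {K L : Type} [Field K] [Field L] [Algebra K L]

/-- the value of the monic polynomial of degree `D` with the coefficients `u` -/
def fv {D : ℕ} (u : Fin D → K) (y : L) : L := y ^ D + ∑ i, algebraMap K L (u i) * y ^ (i : ℕ)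

/-- the polynomial -/
noncomputable def pl {D : ℕ} (u : Fin D → K) : K[X] := X ^ D + ∑ i, C (u i) * X ^ (i : ℕ)

lemma pl_monic {D : ℕ} (u : Fin D → K) : (pl u).Monic := monic_X_pow_add (degree_sum_fin_lt u)

lemma pl_natDegree {D : ℕ} (u : Fin D → K) : (pl u).natDegree = D := by
  apply natDegree_eq_of_degree_eq_some
  unfold pl
  rw [degree_add_eq_left_of_degree_lt, degree_X_pow]
  rw [degree_X_pow]
  exact degree_sum_fin_lt u

lemma aeval_pl {D : ℕ} (u : Fin D → K) (y : L) : aeval y (pl u) = fv u y := by
  unfold pl fv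
  simp

lemma charL (hK : ringChar K ≠ 2) : ringChar L ≠ 2 := by
  rwa [← Algebra.ringChar_eq K L]

/-- Weil's bound -/
lemma weilL [Fintype L] [DecidableEq L] (hK : ringChar K ≠ 2) {D : ℕ} (hD : Odd D) (u : Fin D → K) :
    |∑ y : L, (quadraticChar L (fv u y) : ℝ)| ≤ (D - 1) * Real.sqrt (Fintype.card L) := by
  have hm : ((pl u).map (algebraMap K L)).Monic := (pl_monic u).map _
  have hn : ((pl u).map (algebraMap K L)).natDegree = D := by
    rw [natDegree_map]
    exact pl_natDegree u
  have h1 := Pool.Agent.H341R2.Sharp.weil_sharp_monic (charL (K := K) hK) hm (by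
    rw [hn]
    exact hD.pos) (by
    intro c h hc
    have h3 : (pl u).map (algebraMap K L) ≠ 0 := hm.ne_zero
    have hc0 : c ≠ 0 := by
      rintro rfl
      rw [C_0, zero_mul] at hc
      exact h3 hc
    rw [hc, natDegree_C_mul hc0, natDegree_pow] at hn
    rw [← hn] at hD
    exact (Nat.not_even_iff_odd.2 hD) ⟨_, two_mul _⟩)
  rw [hn] at h1
  have h2 : ∀ y : L, ((pl u).map (algebraMap K L)).eval y = fv u y := by
    intro y
    rw [eval_map_algebraMap, aeval_pl]
  simp only [h2] at h1
  exact h1

/-- the number of the zeros of a monic polynomial -/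
lemma zeros_le {D : ℕ} (u : Fin D → K) (Z : Finset L) (hZ : ∀ y ∈ Z, fv u y = 0) : Z.card ≤ D := by
  classical
  have hm : ((pl u).map (algebraMap K L)).Monic := (pl_monic u).map _
  have hn : ((pl u).map (algebraMap K L)).natDegree = D := by
    rw [natDegree_map]
    exact pl_natDegree u
  have hsub : Z ⊆ ((pl u).map (algebraMap K L)).roots.toFinset := by
    intro y hy
    rw [Multiset.mem_toFinset, mem_roots hm.ne_zero, IsRoot.def, eval_map_algebraMap, aeval_pl]
    exact hZ y hy
  have h3 := (card_le_card hsub).trans ((Multiset.toFinset_card_le _).trans (card_roots' _))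
  rwa [hn] at h3

end Two

end Pool.Agent.Run7.h712.HE
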