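import Pool.Agent.Run7.h3.ST.Pts
import Pool.Agent.Run7.h712.HE.Pol
import Pool.Agent.Run7.h712.HE.Mod

set_option autoImplicit false
set_option linter.unusedSectionVars false
set_option linter.unusedVariables false

/-! The quadratic characters of the finite fields inside an algebraic closure. -/

namespace Pool.Agent.Run7.h712.HE

open Finset
open Run7.h3.ST (KB Fx mem_Fx card_Fx range_emb)
open Q282.CL (av)

section

variable {p : ℕ} [hp : Fact p.Prime]

/-- the quadratic character of the field with `p ^ e` elements -/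
noncomputable def chi (p e : ℕ) [Fact p.Prime] (y : KB p) : ℝ :=
  open scoped Classical in if y = 0 then 0 else if y ^ (p ^ e / 2) = 1 then 1 else -1

theorem chi_abs (e : ℕ) (y : KB p) : |chi p e y| ≤ 1 := by
  unfold chi
  split_ifs <;> norm_num

theorem chi_zero (e : ℕ) : chi p e 0 = 0 := by
  unfold chi
  rw [if_pos rfl]

theorem chi_sq {e : ℕ} {y : KB p} (hy : y ≠ 0) : chi p e y ^ 2 = 1 := by
  unfold chi
  rw [if_neg hy]
  split_ifs <;> norm_num

theorem odd_pow (h2 : p ≠ 2) (e : ℕ) : Odd (p ^ e) := (hp.out.odd_of_ne_two h2).pow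

theorem half_pow (h2 : p ≠ 2) (e : ℕ) : p ^ e = 2 * (p ^ e / 2) + 1 := by
  have := Nat.odd_iff.1 (odd_pow h2 e)
  omega

/-- the character is the quadratic character -/
theorem chi_emb (h2 : p ≠ 2) {k : Type} [Field k] [Fintype k] [DecidableEq k] {j : ℕ} (hj : 1 ≤ j)
    (hk : Fintype.card k = p ^ j) (σ : k →+* KB p) (a : k) : chi p j (σ a) = (quadraticChar k a : ℝ) := by
  classical
  have hcp : CharP k p := by
    have h1 : CharP (KB p) p := inferInstance
    exact (RingHom.charP_iff σ σ.injective p).2 h1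
  have hch : ringChar k ≠ 2 := by
    rw [ringChar.eq k p]
    exact h2
  by_cases ha : a = 0
  · rw [ha, map_zero, chi_zero, quadraticChar_zero]
    simp
  · have h1 : σ a ≠ 0 := fun h => ha (σ.injective (by rw [h, map_zero]))
    have h3 := quadraticChar_eq_pow_of_char_ne_two hch ha
    rw [hk] at h3
    have h4 : (σ a ^ (p ^ j / 2) = 1) ↔ a ^ (p ^ j / 2) = 1 := by
      rw [← map_pow]
      constructor
      · intro h
        exact σ.injective (by rw [h, map_one])
      · intro h
        rw [h, map_one]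
    unfold chi
    rw [if_neg h1, h3]
    by_cases h5 : a ^ (p ^ j / 2) = 1
    · rw [if_pos (h4.2 h5), if_pos h5]
      simp
    · rw [if_neg (fun h => h5 (h4.1 h)), if_neg h5]
      simp

theorem pow_half_cases (h2 : p ≠ 2) {e : ℕ} {y : KB p} (hy : y ≠ 0) (hf : y ^ (p ^ e) = y) :
    y ^ (p ^ e / 2) = 1 ∨ y ^ (p ^ e / 2) = -1 := by
  have h1 : y ^ (p ^ e / 2) * y ^ (p ^ e / 2) = 1 := by
    rw [← pow_add]
    have h3 : y ^ (p ^ e / 2 + p ^ e / 2) * y = 1 * y := by
      rw [← pow_succ, one_mul]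
      conv_rhs => rw [← hf]
      congr 1
      have := half_pow h2 e
      omega
    exact mul_right_cancel₀ hy h3
  exact mul_self_eq_one_iff.1 h1

theorem geom_half {q h : ℕ} (hq : q = 2 * h + 1) (k : ℕ) : q ^ k = 2 * (h * ∑ i ∈ range k, q ^ i) + 1 := by
  induction k with
  | zero => simp
  | succ k ih =>
    rw [sum_range_succ, mul_add, pow_succ]
    have h1 : q ^ k * q = q ^ k * (2 * h) + q ^ k := by
      have h3 : q ^ k * q = q ^ k * (2 * h + 1) := congrArg _ hq
      rw [h3]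
      ring
    rw [h1]
    have h2 : 2 * (h * ∑ i ∈ range k, q ^ i + h * q ^ k) + 1 = (2 * (h * ∑ i ∈ range k, q ^ i) + 1) + q ^ k * (2 * h) := by ring
    rw [h2, ← ih]
    ring

theorem geom_parity {q : ℕ} (hq : Odd q) (k : ℕ) : (∑ i ∈ range k, q ^ i) % 2 = k % 2 := by
  induction k with
  | zero => simp
  | succ k ih =>
    rw [sum_range_succ, Nat.add_mod, ih, Nat.odd_iff.1 (hq.pow)]
    omega

/-- the characters of extensions: the norm -/
theorem chi_ext (h2 : p ≠ 2) {e k : ℕ} (hk : 1 ≤ k) {y : KB p} (hf : y ^ (p ^ e) = y) :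
    chi p (e * k) y = chi p e y ^ k := by
  classical
  by_cases hy : y = 0
  · rw [hy, chi_zero, chi_zero, zero_pow (by omega)]
  · have h1 : p ^ (e * k) / 2 = (p ^ e / 2) * ∑ i ∈ range k, (p ^ e) ^ i := by
      have h3 := geom_half (half_pow h2 e) k
      rw [pow_mul, h3]
      omega
    have h3 := geom_parity (odd_pow h2 e) k
    unfold chi
    rw [if_neg hy, if_neg hy, h1, pow_mul]
    rcases pow_half_cases h2 hy hf with h4 | h4
    · rw [h4, one_pow, if_pos rfl, one_pow]
    · rw [h4]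
      have hne : (-1 : KB p) ≠ 1 := by
        intro h
        have h5 : (2 : KB p) = 0 := by
          have : (1 : KB p) + 1 = 0 := by
            nth_rewrite 1 [← h]
            exact neg_add_cancel 1
          rw [← this]
          norm_num
        have h6 : ((2 : ℕ) : KB p) = 0 := by exact_mod_cast h5
        rw [CharP.cast_eq_zero_iff (KB p) p] at h6
        exact h2 ((Nat.prime_dvd_prime_iff_eq hp.out Nat.prime_two).1 h6)
      rw [if_neg hne]
      rcases Nat.even_or_odd k with hk2 | hk2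
      · have h7 : Even (∑ i ∈ range k, (p ^ e) ^ i) := by
          rw [Nat.even_iff, h3]
          exact Nat.even_iff.1 hk2
        rw [h7.neg_one_pow, hk2.neg_one_pow, if_pos rfl]
      · have h7 : Odd (∑ i ∈ range k, (p ^ e) ^ i) := by
          rw [Nat.odd_iff, h3]
          exact Nat.odd_iff.1 hk2
        rw [h7.neg_one_pow, hk2.neg_one_pow, if_neg hne]

theorem chi_frob (e s : ℕ) (y : KB p) : chi p e (y ^ p ^ s) = chi p e y := by
  unfold chi
  have h1 : y ^ p ^ s = 0 ↔ y = 0 := pow_eq_zero_iff (pow_ne_zero _ hp.out.ne_zero)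
  have h2 : (y ^ p ^ s) ^ (p ^ e / 2) = 1 ↔ y ^ (p ^ e / 2) = 1 := by
    rw [← pow_mul, mul_comm, pow_mul]
    constructor
    · intro h
      have h3 : (y ^ (p ^ e / 2) - 1) ^ p ^ s = 0 := by
        rw [sub_pow_char_pow, one_pow, h, sub_self]
      have h4 := eq_zero_of_pow_eq_zero h3
      exact sub_eq_zero.1 h4
    · intro h
      rw [h, one_pow]
  by_cases hy : y = 0
  · rw [if_pos (h1.2 hy), if_pos hy]
  · rw [if_neg (fun h => hy (h1.1 h)), if_neg hy]
    by_cases h3 : y ^ (p ^ e / 2) = 1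
    · rw [if_pos (h2.2 h3), if_pos h3]
    · rw [if_neg (fun h => h3 (h2.1 h)), if_neg h3]

/-- sums over the field with `p ^ j` elements -/
theorem sum_emb {k : Type} [Field k] [Fintype k] {j : ℕ} (hj : 1 ≤ j) (hk : Fintype.card k = p ^ j)
    (σ : k →+* KB p) (F : KB p → ℝ) : ∑ y ∈ Fx p j, F y = ∑ a : k, F (σ a) := by
  classical
  symm
  refine sum_bij (fun a _ => σ a) (fun a _ => ?_) (fun a _ b _ h => σ.injective h) (fun y hy => ?_) (fun a _ => rfl)
  · rw [mem_Fx hj]
    exact (range_emb hj (by rw [Nat.card_eq_fintype_card]; exact hk) σ _).2 ⟨a, rfl⟩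
  · rw [mem_Fx hj] at hy
    obtain ⟨a, ha⟩ := (range_emb hj (by rw [Nat.card_eq_fintype_card]; exact hk) σ y).1 hy
    exact ⟨a, mem_univ a, ha⟩

/-- the moments of the character -/
noncomputable def Em (p e j : ℕ) [Fact p.Prime] : ℝ := (∑ y ∈ Fx p e, chi p e y ^ j) / (p : ℝ) ^ e

theorem exists_field (e : ℕ) (he : 1 ≤ e) : ∃ (k : Type) (_ : Field k) (_ : Fintype k) (_ : DecidableEq k) (_ : Algebra (ZMod p) k)
    (_ : k →ₐ[ZMod p] KB p), Fintype.card k = p ^ e := by
  classical
  have hk : Nat.card (GaloisField p e) = p ^ e := GaloisField.card p e (by omega)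
  have hfin : Finite (GaloisField p e) := inferInstance
  letI : Fintype (GaloisField p e) := Fintype.ofFinite _
  have halg : Algebra.IsAlgebraic (ZMod p) (GaloisField p e) := by
    have : Module.Finite (ZMod p) (GaloisField p e) := Module.Finite.of_finite
    infer_instance
  exact ⟨GaloisField p e, inferInstance, inferInstance, Classical.decEq _, inferInstance,
    (IsAlgClosed.lift : GaloisField p e →ₐ[ZMod p] KB p), by rw [← Nat.card_eq_fintype_card]; exact hk⟩

theorem ringChar_of_card {k : Type} [Field k] [Fintype k] {e : ℕ} (he : 1 ≤ e) (hk : Fintype.card k = p ^ e) : ringChar k = p := by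
  have h1 : CharP k p := by
    refine charP_of_card_eq_prime_pow (f := e) (p := p) ?_
    exact hk
  exact ringChar.eq k p |>.symm ▸ rfl

theorem Em_eq (h2 : p ≠ 2) {e : ℕ} (he : 1 ≤ e) (j : ℕ) : ∃ (k : Type) (_ : Field k) (_ : Fintype k) (_ : DecidableEq k),
    Fintype.card k = p ^ e ∧ ringChar k ≠ 2 ∧ Em p e j = Pool.Agent.Y57.FD.Mom.e k j := by
  obtain ⟨k, _, _, _, _, σ, hk⟩ := exists_field (p := p) e he
  refine ⟨k, inferInstance, inferInstance, inferInstance, hk, ?_, ?_⟩
  · rw [ringChar_of_card he hk]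
    exact h2
  · unfold Em Pool.Agent.Y57.FD.Mom.e
    rw [sum_emb he hk σ.toRingHom, hk]
    push_cast
    congr 1
    refine sum_congr rfl fun a _ => ?_
    rw [chi_emb h2 he hk]

theorem Em_zero (h2 : p ≠ 2) {e : ℕ} (he : 1 ≤ e) : Em p e 0 = 1 := by
  obtain ⟨k, _, _, _, hk, hc, h⟩ := Em_eq h2 he 0
  rw [h, Pool.Agent.Y57.FD.Mom.e_zero]

theorem Em_odd (h2 : p ≠ 2) {e : ℕ} (he : 1 ≤ e) {j : ℕ} (hj : Odd j) : Em p e j = 0 := by
  obtain ⟨k, _, _, _, hk, hc, h⟩ := Em_eq h2 he j
  rw [h, Pool.Agent.Y57.FD.Mom.e_odd k hc j hj]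

theorem Em_even (h2 : p ≠ 2) {e : ℕ} (he : 1 ≤ e) {j : ℕ} (hj : Even j) (hj0 : j ≠ 0) : Em p e j = 1 - 1 / (p : ℝ) ^ e := by
  obtain ⟨k, _, _, _, hk, hc, h⟩ := Em_eq h2 he j
  rw [h, Pool.Agent.Y57.FD.Mom.e_even k j hj hj0, hk]
  push_cast
  rfl

theorem Em_abs (h2 : p ≠ 2) {e : ℕ} (he : 1 ≤ e) (j : ℕ) : |Em p e j| ≤ 1 := by
  have h1 : (1 : ℝ) ≤ (p : ℝ) ^ e := by
    have : (1 : ℝ) ≤ p := by exact_mod_cast hp.out.one_lt.le
    exact one_le_pow₀ this
  rcases Nat.even_or_odd j with hj | hj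
  · rcases Nat.eq_zero_or_pos j with rfl | hj0
    · rw [Em_zero h2 he]
      norm_num
    · rw [Em_even h2 he hj hj0.ne']
      have h3 : 1 / (p : ℝ) ^ e ≤ 1 := by
        rw [div_le_one (by positivity)]
        exact h1
      have h4 : 0 ≤ 1 / (p : ℝ) ^ e := by positivity
      rw [abs_le]
      constructor <;> linarith
  · rw [Em_odd h2 he hj]
    norm_num

end

end Pool.Agent.Run7.h712.HE
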