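import Pool.Agent.Run7.h712.HE.Gse

set_option autoImplicit false
set_option linter.unusedSectionVars false
set_option linter.unusedVariables false

/-! The irreducible characters of the symplectic group as polynomials in the coefficients, and the vanishing of their means. -/

namespace Pool.Agent.Run7.h712.HE

open Finset

variable {n : ℕ}

/-- the coefficient with the index `m - r`, and zero if this is negative -/
noncomputable def AS (m r : ℕ) : MvPolynomial ℕ ℝ := if r ≤ m then AK (m - r) else 0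

theorem prod_pow_eq (p : Fin n → ℕ) :
    (∏ i, (MvPowerSeries.X i : MvPowerSeries (Fin n) ℝ) ^ p i) = MvPowerSeries.monomial (Finsupp.equivFunOnFinite.symm p) 1 := by
  simp only [MvPowerSeries.X_pow_eq]
  rw [MvPowerSeries.prod_monomial, prod_const_one]
  have h1 : ∑ i : Fin n, Finsupp.single i (p i) = Finsupp.equivFunOnFinite.symm p :=
    Finsupp.univ_sum_single (Finsupp.equivFunOnFinite.symm p)
  rw [h1]

theorem coeff_prod_pow (m p : Fin n → ℕ) :
    MvPowerSeries.coeff (Finsupp.equivFunOnFinite.symm m) ((∏ i, MvPowerSeries.X i ^ p i) * GS n) = LF (∏ i, AS (m i) (p i)) := by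
  classical
  rw [prod_pow_eq, MvPowerSeries.coeff_monomial_mul, one_mul]
  unfold AS
  by_cases h : ∀ i, p i ≤ m i
  · have h1 : (Finsupp.equivFunOnFinite.symm p : Fin n →₀ ℕ) ≤ Finsupp.equivFunOnFinite.symm m := h
    rw [if_pos h1, coeff_GS, prod_congr rfl (fun i _ => if_pos (h i)), ← FF_eq]
    rfl
  · have h1 : ¬ (Finsupp.equivFunOnFinite.symm p : Fin n →₀ ℕ) ≤ Finsupp.equivFunOnFinite.symm m := h
    rw [if_neg h1]
    push Not at h
    obtain ⟨i, hi⟩ := h
    rw [prod_eq_zero (mem_univ i) (if_neg (by omega)), map_zero]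

theorem expand {R : Type} [CommRing R] (f g : Fin n → R) :
    ∏ i, (f i - g i) = ∑ t : Finset (Fin n), (-1) ^ #t * ∏ i, (if i ∈ t then g i else f i) := by
  rw [Finset.prod_sub, powerset_univ]
  refine sum_congr rfl fun t _ => ?_
  rw [prod_ite, mul_assoc, mul_comm (∏ i ∈ univ \ t, f i)]
  congr 2
  · refine prod_congr ?_ fun _ _ => rfl
    ext i
    simp
  · refine prod_congr ?_ fun _ _ => rfl
    ext i
    simp

theorem sign_lin {R : Type} [CommRing R] (φ : R →+ ℝ) (k : ℕ) (y : R) : φ ((-1) ^ k * y) = (-1) ^ k * φ y := by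
  rcases neg_one_pow_eq_or R k with h | h
  · rcases Nat.even_or_odd k with h1 | h1
    · rw [h1.neg_one_pow, h1.neg_one_pow, one_mul, one_mul]
    · rw [h1.neg_one_pow, h1.neg_one_pow, neg_mul, one_mul, map_neg, neg_mul, one_mul]
  · rcases Nat.even_or_odd k with h1 | h1
    · rw [h1.neg_one_pow, h1.neg_one_pow, one_mul, one_mul]
    · rw [h1.neg_one_pow, h1.neg_one_pow, neg_mul, one_mul, map_neg, neg_mul, one_mul]

theorem perm_lin {R : Type} [CommRing R] (φ : R →+ ℝ) (σ : Equiv.Perm (Fin n)) (y : R) :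
    φ (((Equiv.Perm.sign σ : ℤˣ) : ℤ) * y) = (((Equiv.Perm.sign σ : ℤˣ) : ℤ) : ℝ) * φ y := by
  rcases Int.units_eq_one_or (Equiv.Perm.sign σ) with h | h
  · rw [h]
    simp
  · rw [h]
    simp

theorem coeff_prod_sub (m p q : Fin n → ℕ) :
    MvPowerSeries.coeff (Finsupp.equivFunOnFinite.symm m) ((∏ i, (MvPowerSeries.X i ^ p i - MvPowerSeries.X i ^ q i)) * GS n) =
      LF (∏ i, (AS (m i) (p i) - AS (m i) (q i))) := by
  rw [expand, expand, sum_mul, map_sum, map_sum]
  refine sum_congr rfl fun t _ => ?_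
  have h1 : ∏ i, (if i ∈ t then (MvPowerSeries.X i : MvPowerSeries (Fin n) ℝ) ^ q i else MvPowerSeries.X i ^ p i) =
      ∏ i, MvPowerSeries.X i ^ (if i ∈ t then q i else p i) := by
    refine prod_congr rfl fun i _ => ?_
    split_ifs <;> rfl
  have h2 : ∏ i, (if i ∈ t then AS (m i) (q i) else AS (m i) (p i)) = ∏ i, AS (m i) (if i ∈ t then q i else p i) := by
    refine prod_congr rfl fun i _ => ?_
    split_ifs <;> rfl
  rw [h1, h2, mul_assoc]
  have h3 := sign_lin (MvPowerSeries.coeff (R := ℝ) (Finsupp.equivFunOnFinite.symm m)).toAddMonoidHom #t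
    ((∏ i, MvPowerSeries.X i ^ (if i ∈ t then q i else p i)) * GS n)
  have h4 := sign_lin LF.toAddMonoidHom #t (∏ i, AS (m i) (if i ∈ t then q i else p i))
  exact (h3.trans (congrArg (fun z => (-1) ^ #t * z) (coeff_prod_pow m fun i => if i ∈ t then q i else p i))).trans h4.symm

/-- the matrix of the character -/
noncomputable def CM (μ : Fin n → ℕ) : Matrix (Fin n) (Fin n) (MvPolynomial ℕ ℝ) :=
  Matrix.of fun i j => AS (μ i + n) (n + (i : ℕ) - (j : ℕ)) - AS (μ i + n) (n + (i : ℕ) + (j : ℕ) + 2)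

/-- the character, as a polynomial -/
noncomputable def CP (μ : Fin n → ℕ) : MvPolynomial ℕ ℝ := (CM μ).det

theorem LF_CP (μ : Fin n → ℕ) : LF (CP μ) = MvPowerSeries.coeff (Finsupp.equivFunOnFinite.symm fun i => μ i + n)
    ((Matrix.of fun i j : Fin n => (MvPowerSeries.X i : MvPowerSeries (Fin n) ℝ) ^ (n + (i : ℕ) - (j : ℕ)) -
      MvPowerSeries.X i ^ (n + (i : ℕ) + (j : ℕ) + 2)).det * GS n) := by
  unfold CP
  rw [← Matrix.det_transpose, Matrix.det_apply', ← Matrix.det_transpose (Matrix.of fun i j : Fin n =>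
    (MvPowerSeries.X i : MvPowerSeries (Fin n) ℝ) ^ (n + (i : ℕ) - (j : ℕ)) - MvPowerSeries.X i ^ (n + (i : ℕ) + (j : ℕ) + 2)), Matrix.det_apply',
    map_sum, sum_mul, map_sum]
  refine sum_congr rfl fun σ _ => ?_
  simp only [Matrix.transpose_apply]
  unfold CM
  simp only [Matrix.of_apply]
  rw [mul_assoc]
  have h3 := perm_lin (MvPowerSeries.coeff (R := ℝ) (Finsupp.equivFunOnFinite.symm fun i => μ i + n)).toAddMonoidHom σ
    ((∏ i : Fin n, (MvPowerSeries.X i ^ (n + (i : ℕ) - ((σ i : Fin n) : ℕ)) - MvPowerSeries.X i ^ (n + (i : ℕ) + ((σ i : Fin n) : ℕ) + 2))) * GS n)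
  have h4 := perm_lin LF.toAddMonoidHom σ
    (∏ i : Fin n, (AS (μ i + n) (n + (i : ℕ) - ((σ i : Fin n) : ℕ)) - AS (μ i + n) (n + (i : ℕ) + ((σ i : Fin n) : ℕ) + 2)))
  exact h4.trans ((h3.trans (congrArg (fun z => ((((Equiv.Perm.sign σ : ℤˣ) : ℤ) : ℝ)) * z)
    (coeff_prod_sub (fun i => μ i + n) (fun i => n + (i : ℕ) - ((σ i : Fin n) : ℕ)) fun i => n + (i : ℕ) + ((σ i : Fin n) : ℕ) + 2))).symm)

theorem vanish (m : Fin n → ℕ) (h0 : 0 < n) (h : n < m ⟨0, h0⟩) (y : MvPowerSeries (Fin n) ℝ)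
    (hy : y = (∏ i : Fin n, (MvPowerSeries.X i : MvPowerSeries (Fin n) ℝ) ^ ((i : ℕ) + 1)) * ∏ i, ∏ j ∈ Ioi i, (MvPowerSeries.X j - MvPowerSeries.X i)) :
    MvPowerSeries.coeff (Finsupp.equivFunOnFinite.symm m) y = 0 := by
  classical
  rw [hy, ← Matrix.det_vandermonde, ← Matrix.det_transpose, Matrix.det_apply', mul_sum, map_sum]
  refine sum_eq_zero fun σ _ => ?_
  rw [mul_left_comm]
  have h3 := perm_lin (MvPowerSeries.coeff (R := ℝ) (Finsupp.equivFunOnFinite.symm m)).toAddMonoidHom σ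
    ((∏ i : Fin n, (MvPowerSeries.X i : MvPowerSeries (Fin n) ℝ) ^ ((i : ℕ) + 1)) *
      ∏ i, (Matrix.vandermonde fun i : Fin n => (MvPowerSeries.X i : MvPowerSeries (Fin n) ℝ)).transpose (σ i) i)
  refine h3.trans ?_
  simp only [Matrix.transpose_apply, Matrix.vandermonde_apply]
  rw [← prod_mul_distrib]
  have h4 : ∏ i : Fin n, ((MvPowerSeries.X i : MvPowerSeries (Fin n) ℝ) ^ ((i : ℕ) + 1) * MvPowerSeries.X i ^ ((σ i : Fin n) : ℕ)) =
      ∏ i : Fin n, (MvPowerSeries.X i : MvPowerSeries (Fin n) ℝ) ^ ((i : ℕ) + 1 + ((σ i : Fin n) : ℕ)) :=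
    prod_congr rfl fun i _ => (pow_add _ _ _).symm
  rw [h4, prod_pow_eq]
  have h5 : MvPowerSeries.coeff (Finsupp.equivFunOnFinite.symm m)
      (MvPowerSeries.monomial (Finsupp.equivFunOnFinite.symm fun i : Fin n => (i : ℕ) + 1 + ((σ i : Fin n) : ℕ)) (1 : ℝ)) = 0 := by
    rw [MvPowerSeries.coeff_monomial, if_neg]
    intro h6
    have h7 := congrArg (fun f : Fin n →₀ ℕ => f ⟨0, h0⟩) h6
    have h8 : m ⟨0, h0⟩ = 0 + 1 + ((σ ⟨0, h0⟩ : Fin n) : ℕ) := h7
    have h9 := (σ ⟨0, h0⟩).2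
    omega
  exact (congrArg (fun z => ((((Equiv.Perm.sign σ : ℤˣ) : ℤ) : ℝ)) * z) h5).trans (mul_zero _)

/-- **the means of the nontrivial characters vanish** -/
theorem LF_CP_zero (μ : Fin n → ℕ) (h0 : 0 < n) (h : 1 ≤ μ ⟨0, h0⟩) : LF (CP μ) = 0 := by
  have hdom : IsDomain (MvPowerSeries (Fin n) ℝ) := NoZeroDivisors.to_isDomain _
  rw [LF_CP, det_domain (fun i => (MvPowerSeries.X i : MvPowerSeries (Fin n) ℝ)) fun i => by
    intro h1
    have h2 := congrArg (MvPowerSeries.coeff (Finsupp.single i 1)) h1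
    classical
    rw [MvPowerSeries.coeff_X, if_pos rfl, map_zero] at h2
    exact one_ne_zero h2]
  have h1 : (∏ i : Fin n, (MvPowerSeries.X i : MvPowerSeries (Fin n) ℝ) ^ ((i : ℕ) + 1) * (1 - MvPowerSeries.X i ^ 2)) *
      (∏ i : Fin n, ∏ j ∈ Ioi i, ((MvPowerSeries.X j : MvPowerSeries (Fin n) ℝ) - MvPowerSeries.X i) * (MvPowerSeries.X i * MvPowerSeries.X j - 1)) * GS n =
      (∏ i : Fin n, ∏ j ∈ Ioi i, (-1)) * ((∏ i : Fin n, (MvPowerSeries.X i : MvPowerSeries (Fin n) ℝ) ^ ((i : ℕ) + 1)) *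
        ∏ i, ∏ j ∈ Ioi i, (MvPowerSeries.X j - MvPowerSeries.X i)) := by
    have h2 : (∏ i : Fin n, ∏ j ∈ Ioi i, ((MvPowerSeries.X j : MvPowerSeries (Fin n) ℝ) - MvPowerSeries.X i) * (MvPowerSeries.X i * MvPowerSeries.X j - 1)) =
        (∏ i : Fin n, ∏ j ∈ Ioi i, (-1)) * (∏ i, ∏ j ∈ Ioi i, ((MvPowerSeries.X j : MvPowerSeries (Fin n) ℝ) - MvPowerSeries.X i)) *
          ∏ i : Fin n, ∏ j ∈ Ioi i, (1 - MvPowerSeries.X i * MvPowerSeries.X j) := by
      rw [← prod_mul_distrib, ← prod_mul_distrib]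
      refine prod_congr rfl fun i _ => ?_
      rw [← prod_mul_distrib, ← prod_mul_distrib]
      refine prod_congr rfl fun j _ => ?_
      ring
    rw [h2, prod_mul_distrib]
    have h3 := GS_mul (n := n)
    linear_combination ((∏ i : Fin n, ∏ j ∈ Ioi i, (-1)) * ((∏ i : Fin n, (MvPowerSeries.X i : MvPowerSeries (Fin n) ℝ) ^ ((i : ℕ) + 1)) *
        ∏ i, ∏ j ∈ Ioi i, (MvPowerSeries.X j - MvPowerSeries.X i))) * h3
  rw [h1]
  simp only [prod_const, prod_pow_eq_pow_sum]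
  have h4 := sign_lin (MvPowerSeries.coeff (R := ℝ) (Finsupp.equivFunOnFinite.symm fun i => μ i + n)).toAddMonoidHom (∑ i : Fin n, #(Ioi i))
    ((∏ i : Fin n, (MvPowerSeries.X i : MvPowerSeries (Fin n) ℝ) ^ ((i : ℕ) + 1)) * ∏ i, ∏ j ∈ Ioi i, (MvPowerSeries.X j - MvPowerSeries.X i))
  refine h4.trans ?_
  have h5 := vanish (fun i => μ i + n) h0 (by omega) _ rfl
  exact (congrArg (fun z => (-1 : ℝ) ^ (∑ i : Fin n, #(Ioi i)) * z) h5).trans (mul_zero _)

/-- the weight of the character -/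
theorem CP_WS (μ : Fin n → ℕ) : CP μ ∈ WS (∑ i, μ i) := by
  unfold CP
  rw [← Matrix.det_transpose, Matrix.det_apply']
  refine Submodule.sum_mem _ fun σ _ => ?_
  have h1 : ∏ i, (CM μ).transpose (σ i) i ∈ WS (∑ i, μ i) := by
    simp only [Matrix.transpose_apply]
    unfold CM
    simp only [Matrix.of_apply]
    by_cases h : ∀ i : Fin n, (i : ℕ) ≤ μ i + ((σ i : Fin n) : ℕ)
    · have h2 : ∑ i : Fin n, (μ i + ((σ i : Fin n) : ℕ) - (i : ℕ)) = ∑ i, μ i := by
        have h3 : ∑ i : Fin n, (μ i + ((σ i : Fin n) : ℕ) - (i : ℕ)) + ∑ i : Fin n, (i : ℕ) = ∑ i, μ i + ∑ i : Fin n, (i : ℕ) := by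
          rw [← sum_add_distrib]
          have h4 : ∑ i : Fin n, ((σ i : Fin n) : ℕ) = ∑ i : Fin n, (i : ℕ) := Equiv.sum_comp σ fun i : Fin n => (i : ℕ)
          conv_rhs => rw [← h4]
          rw [← sum_add_distrib]
          refine sum_congr rfl fun i _ => ?_
          have := h i
          omega
        omega
      rw [← h2]
      refine WS.prod univ _ _ fun i _ => ?_
      have hi := h i
      have hσ := (σ i).2
      refine Submodule.sub_mem _ ?_ ?_
      · unfold AS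
        rw [if_pos (by omega), show μ i + n - (n + (i : ℕ) - ((σ i : Fin n) : ℕ)) = μ i + ((σ i : Fin n) : ℕ) - (i : ℕ) by omega]
        exact WS.AK _
      · unfold AS
        split_ifs with h5
        · exact WS.mono (by omega) (WS.AK _)
        · exact Submodule.zero_mem _
    · push Not at h
      obtain ⟨i, hi⟩ := h
      have hσ := (σ i).2
      rw [prod_eq_zero (mem_univ i)]
      · exact Submodule.zero_mem _
      · unfold AS
        rw [if_neg (by omega), if_neg (by omega), sub_zero]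
  rcases Int.units_eq_one_or (Equiv.Perm.sign σ) with h | h
  · rw [h]
    simpa using h1
  · rw [h]
    simpa using h1

/-- the coefficient with the index `m - r`, and zero if this is negative -/
noncomputable def cz (t : ℕ → ℝ) (m r : ℕ) : ℝ := if r ≤ m then coe t (m - r) else 0

theorem eval_AS (t : ℕ → ℝ) (m r : ℕ) : MvPolynomial.eval (fun i => t i - eta (i + 1)) (AS m r) = cz t m r := by
  unfold AS cz
  split_ifs
  · exact eval_AK t _
  · exact map_zero _

/-- the character -/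
noncomputable def ch (t : ℕ → ℝ) (μ : Fin n → ℕ) : ℝ :=
  (Matrix.of fun i j : Fin n => cz t (μ i + n) (n + (i : ℕ) - (j : ℕ)) - cz t (μ i + n) (n + (i : ℕ) + (j : ℕ) + 2)).det

theorem eval_CP (t : ℕ → ℝ) (μ : Fin n → ℕ) : MvPolynomial.eval (fun i => t i - eta (i + 1)) (CP μ) = ch t μ := by
  unfold CP ch
  rw [RingHom.map_det]
  congr 1
  ext i j
  unfold CM
  rw [RingHom.mapMatrix_apply, Matrix.map_apply, Matrix.of_apply, Matrix.of_apply, map_sub, eval_AS, eval_AS]

end Pool.Agent.Run7.h712.HE
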