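import Pool.Agent.Run7.h712.HE.Fam
import Pool.Agent.Run7.h712.HE.Sym

set_option autoImplicit false
set_option linter.unusedSectionVars false
set_option linter.unusedVariables false

/-! The means of class functions over products of hyperelliptic families. -/

namespace Pool.Agent.Run7.h712.HE

open Finset MvPolynomial
open Q282.CL (av av_pi av_const av_add av_sum)
open Pool.Agent.Y722.HS (EM red PR mem_PR)

/-- the value of a class function -/
noncomputable def ev (p : ℕ) [Fact p.Prime] {d : ℕ} (Q : MvPolynomial ℕ ℝ) (u : Fin (d + 1) → ZMod p) : ℝ :=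
  eval (fun i => sn p u i - eta (i + 1)) Q

theorem ev_bd (d : ℕ) (hd : Odd (d + 1)) (Q : MvPolynomial ℕ ℝ) : ∃ M : ℝ, 0 ≤ M ∧ ∀ (p : ℕ) (hp : Fact p.Prime), p ≠ 2 →
    ∀ u : Fin (d + 1) → ZMod p, |ev p Q u| ≤ M ∧ |ev p Q u - eval (fun i => ta p (i + 1) u) Q| ≤ M / Real.sqrt p := by
  obtain ⟨M, hM, h⟩ := lip (Be d) Q
  refine ⟨M, hM, fun p hp h2 u => ?_⟩
  have hs := one_le_sqrt p hp
  have hs0 := sqrt_pos p hp
  have hδ : 1 / Real.sqrt p ≤ 1 := by
    rw [div_le_one hs0]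
    exact hs
  have hC : ∀ i : ℕ, 0 ≤ ((i : ℝ) + 1) * (((i : ℝ) + 1) * (d + 1) + (i + 1) + 1) := fun i => by positivity
  have heta : ∀ i : ℕ, |eta i| ≤ 1 := fun i => by
    unfold eta
    split_ifs <;> norm_num
  have h1 : ∀ i, |sn p u i - eta (i + 1)| ≤ d + 1 := fun i => by
    have h3 := sn_abs h2 hd u i
    have h4 := heta (i + 1)
    have h5 := abs_sub (sn p u i) (eta (i + 1))
    linarith
  have h3 : ∀ i, |sn p u i - eta (i + 1) - ta p (i + 1) u| ≤ Be d i * (1 / Real.sqrt p) := fun i => by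
    refine (sn_near h2 u i).trans ?_
    refine mul_le_mul_of_nonneg_right ?_ (by positivity)
    unfold Be
    have : (0 : ℝ) ≤ d + 1 := by positivity
    linarith
  have h4 : ∀ i, |ta p (i + 1) u| ≤ Be d i := fun i => by
    have h5 := sn_near h2 u i
    have h6 := h1 i
    have h7 : |ta p (i + 1) u| ≤ |sn p u i - eta (i + 1)| + |sn p u i - eta (i + 1) - ta p (i + 1) u| := by
      have h8 := abs_sub (sn p u i - eta (i + 1)) (sn p u i - eta (i + 1) - ta p (i + 1) u)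
      rwa [sub_sub_cancel] at h8
    have h8 : ((i : ℝ) + 1) * (((i : ℝ) + 1) * (d + 1) + (i + 1) + 1) * (1 / Real.sqrt p) ≤
        ((i : ℝ) + 1) * (((i : ℝ) + 1) * (d + 1) + (i + 1) + 1) := mul_le_of_le_one_right (hC i) hδ
    unfold Be
    linarith
  obtain ⟨a1, a2, a3⟩ := h (fun i => sn p u i - eta (i + 1)) (fun i => ta p (i + 1) u) (1 / Real.sqrt p) (by positivity)
    (fun i => (h1 i).trans (by unfold Be; have := hC i; linarith)) h4 h3
  refine ⟨a1, ?_⟩
  rw [← mul_one_div]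
  exact a3

theorem ev_mom (d : ℕ) (hd : Odd (d + 1)) (Q : MvPolynomial ℕ ℝ) (hQ : Q ∈ WS (d + 1)) :
    Nr (fun p _ => av (fun u : Fin (d + 1) → ZMod p => ev p Q u)) (LF Q) := by
  classical
  obtain ⟨M, hM, h⟩ := ev_bd d hd Q
  refine Nr.near M (fun p hp h2 => ?_) (av_WS d Q hQ)
  have h4 : av (fun u : Fin (d + 1) → ZMod p => ev p Q u) - av (fun u : Fin (d + 1) → ZMod p => eval (fun i => ta p (i + 1) u) Q) =
      av (fun u : Fin (d + 1) → ZMod p => ev p Q u - eval (fun i => ta p (i + 1) u) Q) := by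
    unfold av
    rw [← sub_div, ← sum_sub_distrib]
  show |av (fun u : Fin (d + 1) → ZMod p => ev p Q u) - av (fun u : Fin (d + 1) → ZMod p => eval (fun i => ta p (i + 1) u) Q)| ≤ M / Real.sqrt p
  rw [h4]
  unfold av
  have hc : (0 : ℝ) < Fintype.card (Fin (d + 1) → ZMod p) := by exact_mod_cast Fintype.card_pos
  rw [abs_div, abs_of_pos hc, div_le_iff₀ hc]
  refine (abs_sum_le_sum_abs _ _).trans ((sum_le_sum fun u _ => (h p hp h2 u).2).trans (le_of_eq ?_))
  rw [sum_const, card_univ, nsmul_eq_mul, mul_comm]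

section
variable {R : Type} [Fintype R] [DecidableEq R] {g : R → ℕ}

/-- the product of class functions of the factors -/
noncomputable def PE (g : R → ℕ) (Q : R → MvPolynomial ℕ ℝ) (p : ℕ) [Fact p.Prime] (u : ∀ l, Fin (2 * g l + 1) → ZMod p) : ℝ :=
  ∏ l, ev p (Q l) (u l)

theorem PE_bound (Q : R → MvPolynomial ℕ ℝ) : ∃ M : ℝ, 0 ≤ M ∧ ∀ (p : ℕ) (hp : Fact p.Prime), p ≠ 2 →
    ∀ u : ∀ l, Fin (2 * g l + 1) → ZMod p, |PE g Q p u| ≤ M := by
  choose M hM h using fun l => ev_bd (2 * g l) ⟨g l, rfl⟩ (Q l)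
  refine ⟨∏ l, M l, prod_nonneg fun l _ => hM l, fun p hp h2 u => ?_⟩
  unfold PE
  rw [abs_prod]
  exact prod_le_prod (fun _ _ => abs_nonneg _) fun l _ => (h l p hp h2 (u l)).1

theorem PE_mom (Q : R → MvPolynomial ℕ ℝ) (hQ : ∀ l, Q l ∈ WS (2 * g l + 1)) :
    Nr (fun p _ => av (fun u : ∀ l, Fin (2 * g l + 1) → ZMod p => PE g Q p u)) (∏ l, LF (Q l)) := by
  refine (Nr.prod univ (fun l p _ => av (fun u : Fin (2 * g l + 1) → ZMod p => ev p (Q l) u)) (fun l => LF (Q l)) fun l _ =>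
    ev_mom (2 * g l) ⟨g l, rfl⟩ (Q l) (hQ l)).congr fun p hp hp2 => ?_
  exact (av_pi (fun l (v : Fin (2 * g l + 1) → ZMod p) => ev p (Q l) v)).symm

open Classical in
/-- a function on the parameters, at the primes of good reduction -/
noncomputable def Pf (g : R → ℕ) (F : ∀ (p : ℕ) [Fact p.Prime], (∀ l, Fin (2 * g l + 1) → ZMod p) → ℝ) (p : ℕ)
    (u : (Σ l : R, Fin (2 * g l + 1)) → ZMod p) : ℝ :=
  if h : p.Prime then
    haveI : Fact p.Prime := ⟨h⟩
    if Gd p (cur u) then F p (cur u) else 0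
  else 0

theorem Pf_bound (F : ∀ (p : ℕ) [Fact p.Prime], (∀ l, Fin (2 * g l + 1) → ZMod p) → ℝ)
    (hF : ∃ M : ℝ, 0 ≤ M ∧ ∀ (p : ℕ) (hp : Fact p.Prime), p ≠ 2 → ∀ u : ∀ l, Fin (2 * g l + 1) → ZMod p, |F p u| ≤ M) :
    ∃ C : ℝ, 1 ≤ C ∧ ∀ (p : ℕ) (u : (Σ l : R, Fin (2 * g l + 1)) → ZMod p), |Pf g F p u| ≤ C := by
  classical
  obtain ⟨M, hM, h⟩ := hF
  refine ⟨M + 1, by linarith, fun p u => ?_⟩
  unfold Pf
  split_ifs with hp hg
  · have h1 := h p ⟨hp⟩ hg.1 (cur u)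
    linarith
  · rw [abs_zero]
    linarith
  · rw [abs_zero]
    linarith

theorem Pf_mean (F : ∀ (p : ℕ) [Fact p.Prime], (∀ l, Fin (2 * g l + 1) → ZMod p) → ℝ)
    (hF : ∃ M : ℝ, 0 ≤ M ∧ ∀ (p : ℕ) (hp : Fact p.Prime), p ≠ 2 → ∀ u : ∀ l, Fin (2 * g l + 1) → ZMod p, |F p u| ≤ M)
    (hm : Nr (fun p _ => av (fun u : ∀ l, Fin (2 * g l + 1) → ZMod p => F p u)) 0) :
    ∃ C : ℝ, 0 ≤ C ∧ ∀ (p : ℕ) [Fact p.Prime], |EM p (fun u => Pf g F p u)| ≤ C / Real.sqrt p := by
  classical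
  obtain ⟨M, hM, h⟩ := hF
  obtain ⟨C, hC, hmom⟩ := hm
  have hG0 : (0 : ℝ) ≤ ∑ l, (2 * (g l : ℝ) + 1) + 2 := by
    have : 0 ≤ ∑ l, (2 * (g l : ℝ) + 1) := sum_nonneg fun l _ => by positivity
    linarith
  refine ⟨C + M * (∑ l, (2 * (g l : ℝ) + 1) + 2), by positivity, fun p hp => ?_⟩
  have hs := sqrt_pos p hp
  by_cases h2 : p = 2
  · have h1 : EM p (fun u => Pf g F p u) = 0 := by
      unfold EM
      rw [sum_eq_zero, zero_div]
      intro u _
      unfold Pf
      rw [dif_pos hp.out]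
      rw [if_neg]
      exact fun h3 => h3.1 h2
    rw [h1, abs_zero]
    positivity
  · have h1 : EM p (fun u => Pf g F p u) =
        av (fun v : ∀ l, Fin (2 * g l + 1) → ZMod p => if Gd p v then F p v else 0) := by
      rw [← EM_av]
      unfold Pf
      simp only [dif_pos hp.out]
    rw [h1]
    have h3 : av (fun v : ∀ l, Fin (2 * g l + 1) → ZMod p => if Gd p v then F p v else 0) =
        av (fun v : ∀ l, Fin (2 * g l + 1) → ZMod p => F p v) -
        av (fun v : ∀ l, Fin (2 * g l + 1) → ZMod p => F p v * if Gd p v then 0 else 1) := by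
      unfold av
      rw [← sub_div, ← sum_sub_distrib]
      congr 1
      refine sum_congr rfl fun v _ => ?_
      by_cases hg : Gd p v
      · simp [hg]
      · simp [hg]
    rw [h3]
    have h4 := hmom p hp h2
    rw [sub_zero] at h4
    have h5 : |av (fun v : ∀ l, Fin (2 * g l + 1) → ZMod p => F p v * if Gd p v then 0 else 1)| ≤
        M * ((∑ l, (2 * (g l : ℝ) + 1) + 2) / Real.sqrt p) := by
      refine (Q282.CL.abs_av_le _).trans ?_
      have h6 : av (fun v : ∀ l, Fin (2 * g l + 1) → ZMod p => |F p v * if Gd p v then 0 else 1|) ≤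
          av (fun v : ∀ l, Fin (2 * g l + 1) → ZMod p => M * if Gd p v then (0 : ℝ) else 1) := by
        refine Q282.CL.av_mono fun v => ?_
        rw [abs_mul]
        have h9 : |(if Gd p v then (0 : ℝ) else 1)| = if Gd p v then (0 : ℝ) else 1 := by
          split_ifs <;> norm_num
        rw [h9]
        refine mul_le_mul_of_nonneg_right (h p hp h2 v) ?_
        split_ifs <;> norm_num
      refine h6.trans ?_
      rw [Q282.CL.av_mul]
      exact mul_le_mul_of_nonneg_left (bad_av p) hM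
    refine (abs_sub _ _).trans ?_
    rw [add_div, mul_div_assoc]
    exact add_le_add h4 h5

end

end Pool.Agent.Run7.h712.HE
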