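import Pool.Agent.Run7.h712.HE.Gra

set_option autoImplicit false
set_option linter.unusedSectionVars false
set_option linter.unusedVariables false

/-! The joint moments of the coefficients of the L-polynomials of one hyperelliptic curve. -/

namespace Pool.Agent.Run7.h712.HE

open Finset MvPolynomial
open Run7.h3.ST hiding one_pow
open Q282.CL (av av_pi av_const av_add av_sum)

/-- the normalised character sums -/
noncomputable def sn (p : ℕ) [Fact p.Prime] {d : ℕ} (u : Fin (d + 1) → ZMod p) (j : ℕ) : ℝ := SS (j + 1) u / Real.sqrt p ^ (j + 1)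

/-- the Weil bound -/
theorem sn_abs {p : ℕ} [hp : Fact p.Prime] (h2 : p ≠ 2) {d : ℕ} (hd : Odd (d + 1)) (u : Fin (d + 1) → ZMod p) (j : ℕ) : |sn p u j| ≤ d := by
  obtain ⟨k, _, _, _, _, σ, hk⟩ := exists_field (p := p) (j + 1) (by omega)
  have h1 : SS (j + 1) u = ((∑ a : k, quadraticChar k (fv u a) : ℤ) : ℝ) := by
    unfold SS
    rw [sum_emb (by omega) hk σ.toRingHom, Int.cast_sum]
    refine sum_congr rfl fun a _ => ?_
    have h3 : (fv u (σ a) : KB p) = σ (fv u a) := by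
      unfold fv
      rw [map_add, map_pow, map_sum]
      congr 1
      refine sum_congr rfl fun i _ => ?_
      rw [map_mul, map_pow, AlgHom.commutes]
    show chi p (j + 1) (fv u (σ a)) = _
    rw [h3]
    exact chi_emb h2 (by omega) hk σ.toRingHom _
  have hch : ringChar (ZMod p) ≠ 2 := by
    rw [ZMod.ringChar_zmod_n]
    exact h2
  have h4 := weilL (L := k) hch hd u
  unfold sn
  rw [h1]
  have h5 : Real.sqrt (Fintype.card k : ℝ) = Real.sqrt p ^ (j + 1) := by
    rw [hk]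
    push_cast
    rw [Real.sqrt_eq_iff_mul_self_eq (by positivity) (by have := sqrt_pos p hp; positivity), ← mul_pow, Real.mul_self_sqrt (Nat.cast_nonneg _)]
  rw [h5] at h4
  have h6 : (0 : ℝ) < Real.sqrt p ^ (j + 1) := by
    have := sqrt_pos p hp
    positivity
  rw [abs_div, abs_of_pos h6, div_le_iff₀ h6]
  have h7 : ((d + 1 : ℕ) : ℝ) - 1 = d := by
    push_cast
    ring
  first
    | exact h4
    | (rw [h7] at h4; exact_mod_cast h4)
    | (simpa using h4)

/-- the constants of the error terms -/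
noncomputable def Be (d i : ℕ) : ℝ := d + 1 + ((i : ℝ) + 1) * (((i : ℝ) + 1) * (d + 1) + (i + 1) + 1)

theorem sn_near {p : ℕ} [hp : Fact p.Prime] (h2 : p ≠ 2) {d : ℕ} (u : Fin (d + 1) → ZMod p) (i : ℕ) :
    |sn p u i - eta (i + 1) - ta p (i + 1) u| ≤ ((i : ℝ) + 1) * (((i : ℝ) + 1) * (d + 1) + (i + 1) + 1) * (1 / Real.sqrt p) := by
  have h1 := SS_near h2 (j := i + 1) (by omega) u
  have h0 := sqrt_pos p hp
  have h3 : (0 : ℝ) < Real.sqrt p ^ (i + 1) := by positivity
  have h4 : sn p u i - eta (i + 1) - ta p (i + 1) u = (SS (i + 1) u - (((i + 1 : ℕ) : ℝ) * UU (i + 1) u + eta (i + 1) * Real.sqrt p ^ (i + 1))) / Real.sqrt p ^ (i + 1) := by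
    unfold sn ta
    field_simp
    ring
  rw [h4, abs_div, abs_of_pos h3, div_le_iff₀ h3]
  refine h1.trans (le_of_eq ?_)
  rw [Nat.add_sub_cancel, pow_succ]
  push_cast
  field_simp

section
variable {ι : Type} [Fintype ι] [DecidableEq ι]

theorem coe_bd (d : ℕ) (hd : Odd (d + 1)) (k : ι → ℕ) : ∃ M : ℝ, 0 ≤ M ∧ ∀ (p : ℕ) (hp : Fact p.Prime), p ≠ 2 →
    ∀ u : Fin (d + 1) → ZMod p, |∏ i, coe (sn p u) (k i)| ≤ M ∧
      |∏ i, coe (sn p u) (k i) - eval (fun i => ta p (i + 1) u) (∏ i, AK (k i))| ≤ M / Real.sqrt p := by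
  obtain ⟨M, hM, h⟩ := lip (Be d) (∏ i, AK (k i))
  refine ⟨M, hM, fun p hp h2 u => ?_⟩
  have hs := one_le_sqrt p hp
  have hs0 := sqrt_pos p hp
  have hδ : 1 / Real.sqrt p ≤ 1 := by
    rw [div_le_one hs0]
    exact hs
  have hC : ∀ i : ℕ, 0 ≤ ((i : ℝ) + 1) * (((i : ℝ) + 1) * (d + 1) + (i + 1) + 1) := fun i => by positivity
  have heta : ∀ i : ℕ, |eta i| ≤ 1 := fun i => by
    unfold eta
    split_ifs <;> norm_num
  have h1 : ∀ i, |sn p u i - eta (i + 1)| ≤ d + 1 := fun i => by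
    have h3 := sn_abs h2 hd u i
    have h4 := heta (i + 1)
    have h5 := abs_sub (sn p u i) (eta (i + 1))
    linarith
  have h3 : ∀ i, |sn p u i - eta (i + 1) - ta p (i + 1) u| ≤ Be d i * (1 / Real.sqrt p) := fun i => by
    refine (sn_near h2 u i).trans ?_
    refine mul_le_mul_of_nonneg_right ?_ (by positivity)
    unfold Be
    have : (0 : ℝ) ≤ d + 1 := by positivity
    linarith
  have h4 : ∀ i, |ta p (i + 1) u| ≤ Be d i := fun i => by
    have h5 := sn_near h2 u i
    have h6 := h1 i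
    have h7 : |ta p (i + 1) u| ≤ |sn p u i - eta (i + 1)| + |sn p u i - eta (i + 1) - ta p (i + 1) u| := by
      have h8 := abs_sub (sn p u i - eta (i + 1)) (sn p u i - eta (i + 1) - ta p (i + 1) u)
      rwa [sub_sub_cancel] at h8
    have h8 : ((i : ℝ) + 1) * (((i : ℝ) + 1) * (d + 1) + (i + 1) + 1) * (1 / Real.sqrt p) ≤
        ((i : ℝ) + 1) * (((i : ℝ) + 1) * (d + 1) + (i + 1) + 1) := mul_le_of_le_one_right (hC i) hδ
    unfold Be
    linarith
  obtain ⟨a1, a2, a3⟩ := h (fun i => sn p u i - eta (i + 1)) (fun i => ta p (i + 1) u) (1 / Real.sqrt p) (by positivity)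
    (fun i => (h1 i).trans (by unfold Be; have := hC i; linarith)) h4 h3
  have e1 : eval (fun i => sn p u i - eta (i + 1)) (∏ i, AK (k i)) = ∏ i, coe (sn p u) (k i) := by
    rw [map_prod]
    exact prod_congr rfl fun i _ => eval_AK _ _
  rw [e1] at a1 a3
  refine ⟨a1, ?_⟩
  rw [← mul_one_div]
  exact a3

/-- **the joint moments of the coefficients** -/
theorem coe_mom (d : ℕ) (hd : Odd (d + 1)) (k : ι → ℕ) (hk : ∑ i, k i ≤ d + 1) :
    Nr (fun p _ => av (fun u : Fin (d + 1) → ZMod p => ∏ i, coe (sn p u) (k i))) (gr k) := by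
  classical
  obtain ⟨M, hM, h⟩ := coe_bd d hd k
  have h1 := av_WS d (∏ i, AK (k i)) (WS.mono hk (WS.prod univ k (fun i => AK (k i)) fun i _ => WS.AK (k i)))
  have h3 : LF (∏ i, AK (k i)) = gr k := FF_eq k
  rw [h3] at h1
  refine Nr.near M (fun p hp h2 => ?_) h1
  have h4 : av (fun u : Fin (d + 1) → ZMod p => ∏ i, coe (sn p u) (k i)) - av (fun u : Fin (d + 1) → ZMod p => eval (fun i => ta p (i + 1) u) (∏ i, AK (k i))) =
      av (fun u : Fin (d + 1) → ZMod p => ∏ i, coe (sn p u) (k i) - eval (fun i => ta p (i + 1) u) (∏ i, AK (k i))) := by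
    unfold av
    rw [← sub_div, ← sum_sub_distrib]
  show |av (fun u : Fin (d + 1) → ZMod p => ∏ i, coe (sn p u) (k i)) - av (fun u : Fin (d + 1) → ZMod p => eval (fun i => ta p (i + 1) u) (∏ i, AK (k i)))| ≤ M / Real.sqrt p
  rw [h4]
  unfold av
  have hc : (0 : ℝ) < Fintype.card (Fin (d + 1) → ZMod p) := by exact_mod_cast Fintype.card_pos
  rw [abs_div, abs_of_pos hc, div_le_iff₀ hc]
  refine (abs_sum_le_sum_abs _ _).trans ((sum_le_sum fun u _ => (h p hp h2 u).2).trans (le_of_eq ?_))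
  rw [sum_const, card_univ, nsmul_eq_mul, mul_comm]

end

end Pool.Agent.Run7.h712.HE
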