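import Pool.Agent.Run7.h712.HE.Ext
import Pool.Agent.Run7.h712.HY.Loc

set_option autoImplicit false
set_option linter.unusedSectionVars false
set_option linter.unusedVariables false

/-! The L-functions of class functions near the edge, for almost all members of well distributed families. -/

namespace Pool.Agent.Run7.h712.HE

open Finset
open Q282.CL (av av_pi av_const av_add av_sum)
open Pool.Agent.Y722.HS (EM red PR mem_PR EM_mono EM_const summable_primes)
open Pool.Agent.Y722.LS (Fam bb EM_add EM_mul EM_nonneg)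
open Pool.Agent.N534.LF (Loc)
open Pool.Agent.N666.TM (Well)
open Pool.Agent.Run7.h712.HY (norm_pow)

/-! ### series -/

theorem geo1 (f : ℕ → ℂ) (M x : ℝ) (hM : 0 ≤ M) (hx0 : 0 ≤ x) (hx : x ≤ 1 / 2) (h : ∀ k, ‖f k‖ ≤ M * x ^ (k + 1)) :
    Summable f ∧ ‖∑' k, f k‖ ≤ 2 * M * x ∧ ‖∑' k, f k - f 0‖ ≤ 2 * M * x ^ 2 := by
  have key : ∀ (M : ℝ) (f : ℕ → ℂ), 0 ≤ M → (∀ k, ‖f k‖ ≤ M * x ^ (k + 1)) → Summable f ∧ ‖∑' k, f k‖ ≤ 2 * M * x := by
    intro M f hM h
    have hg : HasSum (fun k : ℕ => M * x ^ (k + 1)) (M * x * (1 - x)⁻¹) := by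
      have h1 := (hasSum_geometric_of_lt_one hx0 (by linarith)).mul_left (M * x)
      refine h1.congr_fun fun k => ?_
      rw [pow_succ]
      ring
    refine ⟨Summable.of_norm_bounded hg.summable h, (tsum_of_norm_bounded hg h).trans ?_⟩
    have h2 : (1 - x)⁻¹ ≤ 2 := by
      rw [inv_le_comm₀ (by linarith) (by norm_num)]
      linarith
    calc M * x * (1 - x)⁻¹ ≤ M * x * 2 := mul_le_mul_of_nonneg_left h2 (by positivity)
      _ = _ := by ring
  obtain ⟨h1, h2⟩ := key M f hM h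
  refine ⟨h1, h2, ?_⟩
  obtain ⟨h3, h4⟩ := key (M * x) (fun k => f (k + 1)) (by positivity) fun k => (h (k + 1)).trans (le_of_eq (by ring))
  rw [h1.tsum_eq_zero_add, add_sub_cancel_left]
  exact h4.trans (le_of_eq (by ring))

section
variable {R : Type} [Fintype R] [DecidableEq R] {g : R → ℕ}

open Classical in
theorem bad_av' (p : ℕ) [hp : Fact p.Prime] :
    av (fun v : ∀ l, Fin (2 * g l + 1) → ZMod p => if Gd p v then (0 : ℝ) else 1) ≤ (∑ l, (2 * (g l : ℝ) + 1) + 2) / p := by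
  have hp0 : (0 : ℝ) < p := by exact_mod_cast hp.out.pos
  have hne : Nonempty (∀ l, Fin (2 * g l + 1) → ZMod p) := ⟨fun _ _ => 0⟩
  by_cases h : p ≠ 2 ∧ ∀ l, 2 * g l + 1 < p
  · have h1 : av (fun v : ∀ l, Fin (2 * g l + 1) → ZMod p => if Gd p v then (0 : ℝ) else 1) ≤
        av (fun v : ∀ l, Fin (2 * g l + 1) → ZMod p => ∑ l, if (pol p (v l)).Separable then (0 : ℝ) else 1) := by
      refine Q282.CL.av_mono fun v => ?_
      have h0 : ∀ l, 0 ≤ (if (pol p (v l)).Separable then (0 : ℝ) else 1) := fun l => by split_ifs <;> norm_num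
      by_cases hg : Gd p v
      · rw [if_pos hg]
        exact sum_nonneg fun l _ => h0 l
      · rw [if_neg hg]
        have h2 : ∃ l, ¬ (pol p (v l)).Separable := by
          by_contra h3
          push Not at h3
          exact hg ⟨h.1, h3⟩
        obtain ⟨l, hl⟩ := h2
        have h3 := single_le_sum (f := fun l => if (pol p (v l)).Separable then (0 : ℝ) else 1) (fun l _ => h0 l) (mem_univ l)
        refine le_trans (le_of_eq ?_) h3
        rw [if_neg hl]
    refine h1.trans ?_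
    rw [av_sum]
    have h2 : ∀ l, av (fun v : ∀ l, Fin (2 * g l + 1) → ZMod p => if (pol p (v l)).Separable then (0 : ℝ) else 1) ≤ (2 * (g l : ℝ) + 1) / p := by
      intro l
      have h3 := Run7.h3.ST.av_hom (Pi.evalAddMonoidHom (fun l => Fin (2 * g l + 1) → ZMod p) l) (fun w => by
        refine ⟨Function.update (0 : ∀ l, Fin (2 * g l + 1) → ZMod p) l w, ?_⟩
        show Function.update (0 : ∀ l, Fin (2 * g l + 1) → ZMod p) l w l = w
        rw [Function.update_self])
        (fun w : Fin (2 * g l + 1) → ZMod p => if (pol p w).Separable then (0 : ℝ) else 1)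
      have h4 : av (fun v : ∀ l, Fin (2 * g l + 1) → ZMod p => if (pol p (v l)).Separable then (0 : ℝ) else 1) =
          av (fun w : Fin (2 * g l + 1) → ZMod p => if (pol p w).Separable then (0 : ℝ) else 1) := h3
      rw [h4]
      unfold av
      have h5 : ∑ w : Fin (2 * g l + 1) → ZMod p, (if (pol p w).Separable then (0 : ℝ) else 1) =
          ((univ : Finset (Fin (2 * g l + 1) → ZMod p)).filter (fun u => ¬ (pol p u).Separable)).card := by
        rw [card_filter]
        push_cast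
        refine sum_congr rfl fun w _ => ?_
        by_cases hw : (pol p w).Separable
        · rw [if_pos hw, if_neg (not_not.2 hw)]
        · rw [if_neg hw, if_pos hw]
      rw [h5, Fintype.card_pi_const, ZMod.card]
      have h6 := bad_card p (h.2 l)
      have h7 : ((((univ : Finset (Fin (2 * g l + 1) → ZMod p)).filter (fun u => ¬ (pol p u).Separable)).card : ℕ) : ℝ) ≤
          (2 * (g l : ℝ) + 1) * (p : ℝ) ^ (2 * g l) := by exact_mod_cast h6
      have h8 : (0 : ℝ) < ((p ^ (2 * g l + 1) : ℕ) : ℝ) := by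
        push_cast
        positivity
      rw [div_le_div_iff₀ h8 hp0]
      push_cast
      calc _ ≤ (2 * (g l : ℝ) + 1) * (p : ℝ) ^ (2 * g l) * p := mul_le_mul_of_nonneg_right h7 hp0.le
        _ = _ := by ring
    refine (sum_le_sum fun l _ => h2 l).trans ?_
    rw [← sum_div]
    exact div_le_div_of_nonneg_right (by linarith) hp0.le
  · have h1 : av (fun v : ∀ l, Fin (2 * g l + 1) → ZMod p => if Gd p v then (0 : ℝ) else 1) ≤ 1 := by
      refine (Q282.CL.av_mono (g := fun _ => (1 : ℝ)) fun v => ?_).trans (le_of_eq (av_const (1 : ℝ)))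
      split_ifs <;> norm_num
    refine h1.trans ?_
    rw [le_div_iff₀ hp0, one_mul]
    have h0 : 0 ≤ ∑ l, (2 * (g l : ℝ) + 1) := sum_nonneg fun l _ => by positivity
    by_cases h3 : p = 2
    · rw [h3]
      push_cast
      linarith
    · have h4 : ∃ l, p ≤ 2 * g l + 1 := by
        by_contra h5
        push Not at h5
        exact h ⟨h3, h5⟩
      obtain ⟨l, hl⟩ := h4
      have h5 : (p : ℝ) ≤ 2 * g l + 1 := by exact_mod_cast hl
      have h6 : 2 * (g l : ℝ) + 1 ≤ ∑ l, (2 * (g l : ℝ) + 1) :=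
        single_le_sum (f := fun l => 2 * (g l : ℝ) + 1) (fun l _ => by positivity) (mem_univ l)
      linarith

/-! ### the family of main terms -/

/-- functions of the parameters modulo a prime -/
abbrev Fn (g : R → ℕ) : Type := ∀ (p : ℕ) [Fact p.Prime], (∀ l, Fin (2 * g l + 1) → ZMod p) → ℝ

/-- bounded functions -/
def Bd (F : Fn g) (M : ℝ) : Prop := ∀ (p : ℕ) (hp : Fact p.Prime), p ≠ 2 → ∀ u : ∀ l, Fin (2 * g l + 1) → ZMod p, |F p u| ≤ M

/-- the centred main term -/
noncomputable def Nf (F : Fn g) (p : ℕ) (u : (Σ l : R, Fin (2 * g l + 1)) → ZMod p) : ℝ :=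
  if h : p.Prime then
    haveI : Fact p.Prime := ⟨h⟩
    (Pf g F p u - EM p (fun v => Pf g F p v)) / p
  else 0

/-- the indicator of the bad reduction -/
noncomputable def Bf (g : R → ℕ) (p : ℕ) (u : (Σ l : R, Fin (2 * g l + 1)) → ZMod p) : ℝ := Ph g (none : Option (Fin 0 → ℕ)) p u

theorem Pf_abs {F : Fn g} {M : ℝ} (hM : 0 ≤ M) (hF : Bd F M) (p : ℕ) (u : (Σ l : R, Fin (2 * g l + 1)) → ZMod p) : |Pf g F p u| ≤ M := by
  classical
  unfold Pf
  split_ifs with hp hg
  · exact hF p ⟨hp⟩ hg.1 (cur u)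
  · rwa [abs_zero]
  · rwa [abs_zero]

theorem EM_abs {F : Fn g} {M : ℝ} (hM : 0 ≤ M) (hF : Bd F M) (p : ℕ) [Fact p.Prime] : |EM p (fun u => Pf g F p u)| ≤ M := by
  rw [abs_le]
  constructor
  · have h1 := EM_mono p (fun _ => -M) (fun u => Pf g F p u) fun u => (abs_le.1 (Pf_abs hM hF p u)).1
    rwa [EM_const] at h1
  · have h1 := EM_mono p (fun u => Pf g F p u) (fun _ => M) fun u => (abs_le.1 (Pf_abs hM hF p u)).2
    rwa [EM_const] at h1

theorem fam {F : Fn g} {M : ℝ} (hM : 0 ≤ M) (hF : Bd F M) :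
    Fam (4 * M ^ 2 + (∑ l, (2 * (g l : ℝ) + 1) + 2)) (Nf F) (Bf g) where
  A0 := by
    have : 0 ≤ ∑ l, (2 * (g l : ℝ) + 1) := sum_nonneg fun l _ => by positivity
    nlinarith [sq_nonneg M]
  sq := by
    intro p hp
    have hp0 : (0 : ℝ) < p := by exact_mod_cast hp.out.pos
    have h0 : 0 ≤ ∑ l, (2 * (g l : ℝ) + 1) := sum_nonneg fun l _ => by positivity
    have h1 := EM_mono p (fun u => Nf F p u ^ 2) (fun _ => 4 * M ^ 2 / (p : ℝ) ^ 2) fun u => by
      unfold Nf
      rw [dif_pos hp.out, div_pow]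
      have h3 := Pf_abs hM hF p u
      have h4 := EM_abs hM hF p
      refine div_le_div_of_nonneg_right ?_ (by positivity)
      have h5 := abs_sub (Pf g F p u) (EM p fun v => Pf g F p v)
      have h6 : |Pf g F p u - EM p fun v => Pf g F p v| ≤ 2 * M := by linarith
      rw [← sq_abs]
      calc |Pf g F p u - EM p fun v => Pf g F p v| ^ 2 ≤ (2 * M) ^ 2 := pow_le_pow_left₀ (abs_nonneg _) h6 2
        _ = _ := by ring
    rw [EM_const] at h1
    exact h1.trans (div_le_div_of_nonneg_right (by linarith) (by positivity))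
  mean := by
    intro p hp
    have hp0 : (0 : ℝ) < p := by exact_mod_cast hp.out.pos
    have h0 : 0 ≤ ∑ l, (2 * (g l : ℝ) + 1) := sum_nonneg fun l _ => by positivity
    have h1 : EM p (fun u => Nf F p u) = 0 := by
      have h2 : (fun u : (Σ l : R, Fin (2 * g l + 1)) → ZMod p => Nf F p u) =
          fun u => (1 / (p : ℝ)) * (Pf g F p u + (-1) * EM p (fun v => Pf g F p v)) := by
        funext u
        unfold Nf
        rw [dif_pos hp.out]
        ring
      rw [h2, EM_mul, EM_add, EM_const]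
      ring
    rw [h1, abs_zero]
    positivity
  nonneg := by
    intro p u
    unfold Bf Ph
    split_ifs <;> norm_num
  le_one := by
    intro p u
    unfold Bf Ph
    split_ifs <;> norm_num
  bad := by
    intro p hp
    have hp0 : (0 : ℝ) < p := by exact_mod_cast hp.out.pos
    classical
    have h1 : EM p (fun u => Bf g p u) =
        av (fun v : ∀ l, Fin (2 * g l + 1) → ZMod p => if Gd p v then (0 : ℝ) else 1) := by
      rw [← EM_av]
      unfold Bf Ph
      simp only [dif_pos hp.out]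
    rw [h1]
    refine (bad_av' p).trans (div_le_div_of_nonneg_right ?_ hp0.le)
    nlinarith [sq_nonneg M]

/-! ### the local logarithms -/

open Classical in
/-- the local logarithm -/
noncomputable def lo (F : ℕ → Fn g) (p : ℕ) (u : (Σ l : R, Fin (2 * g l + 1)) → ZMod p) (s : ℂ) : ℂ :=
  if h : p.Prime then
    haveI : Fact p.Prime := ⟨h⟩
    if Gd p (cur u) then ∑' k : ℕ, ((F (k + 1) p (cur u) / (k + 1) : ℝ) : ℂ) * (p : ℂ) ^ (-(((k + 1 : ℕ) : ℂ) * s)) else 0
  else 0

theorem term_le {F : ℕ → Fn g} {M : ℝ} (hM : 0 ≤ M) (hF : ∀ k, 1 ≤ k → Bd (F k) M) (p : ℕ) [hp : Fact p.Prime] (hp2 : p ≠ 2)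
    (v : ∀ l, Fin (2 * g l + 1) → ZMod p) (s : ℂ) (k : ℕ) :
    ‖((F (k + 1) p v / (k + 1) : ℝ) : ℂ) * (p : ℂ) ^ (-(((k + 1 : ℕ) : ℂ) * s))‖ ≤ M * ((p : ℝ) ^ (-s.re)) ^ (k + 1) := by
  have hp0 : (0 : ℝ) < p := by exact_mod_cast hp.out.pos
  rw [norm_mul, Complex.norm_real, Real.norm_eq_abs, Complex.norm_natCast_cpow_of_pos hp.out.pos]
  have h1 : (-(((k + 1 : ℕ) : ℂ) * s)).re = -s.re * ((k + 1 : ℕ) : ℝ) := by
    rw [Complex.neg_re, Complex.mul_re, Complex.natCast_re, Complex.natCast_im]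
    ring
  rw [h1, Real.rpow_mul hp0.le, Real.rpow_natCast]
  refine mul_le_mul_of_nonneg_right ?_ (by positivity)
  have h2 := hF (k + 1) (by omega) p hp hp2 v
  have h3 : (1 : ℝ) ≤ (k : ℝ) + 1 := by
    have : (0 : ℝ) ≤ k := Nat.cast_nonneg _
    linarith
  rw [abs_div, abs_of_pos (by linarith : (0 : ℝ) < (k : ℝ) + 1), div_le_iff₀ (by linarith)]
  nlinarith

theorem loc {F : ℕ → Fn g} {M D a : ℝ} (hM : 0 ≤ M) (hD : 0 ≤ D) (hF : ∀ k, 1 ≤ k → Bd (F k) M)
    (hm : ∀ (p : ℕ) (_ : Fact p.Prime), |EM p (fun u => Pf g (fun p _ v => F 1 p v - a) p u)| ≤ D / Real.sqrt p)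
    (c : (Σ l : R, Fin (2 * g l + 1)) → ℤ) :
    Loc (2 * M + D + |a|) (Nf (fun p _ v => F 1 p v - a)) (Bf g) c
      (fun p u => lo F p (red p c) (1 + u) - (a : ℂ) * (p : ℂ) ^ (-(1 + u))) := by
  classical
  have key : ∀ (p : ℕ) (hp : p.Prime) (u : ℂ), 0 ≤ u.re → ‖(p : ℂ) ^ (-(1 + u))‖ = (p : ℝ) ^ (-1 - u.re) := by
    intro p hp u hu
    rw [norm_pow p hp]
    congr 1
    simp
    ring
  have hhalf : ∀ (p : ℕ) (hp : p.Prime) (u : ℂ), 0 ≤ u.re → (p : ℝ) ^ (-1 - u.re) ≤ 1 / 2 ∧ (p : ℝ) ^ (-1 - u.re) ≤ 1 / p := by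
    intro p hp u hu
    have hp2 : (2 : ℝ) ≤ p := by exact_mod_cast hp.two_le
    have h1 : (p : ℝ) ^ (-1 - u.re) ≤ (p : ℝ) ^ (-1 : ℝ) := Real.rpow_le_rpow_of_exponent_le (by linarith) (by linarith)
    rw [Real.rpow_neg_one] at h1
    have h2 : (p : ℝ)⁻¹ ≤ 1 / 2 := by
      rw [one_div]
      exact inv_anti₀ (by norm_num) hp2
    exact ⟨h1.trans h2, by rw [one_div]; exact h1⟩
  have h32 : ∀ p : ℕ, p.Prime → (1 / (p : ℝ)) ^ 2 ≤ 1 / (p : ℝ) ^ ((3 : ℝ) / 2) ∧ 1 / Real.sqrt p * (1 / p) = 1 / (p : ℝ) ^ ((3 : ℝ) / 2) := by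
    intro p hp
    have hp1 : (1 : ℝ) ≤ p := by exact_mod_cast hp.one_lt.le
    have hp0 : (0 : ℝ) < p := by linarith
    constructor
    · rw [one_div_pow]
      apply one_div_le_one_div_of_le (by positivity)
      rw [← Real.rpow_natCast]
      exact Real.rpow_le_rpow_of_exponent_le hp1 (by norm_num)
    · rw [Real.sqrt_eq_rpow, one_div_mul_one_div]
      congr 1
      rw [show ((3 : ℝ) / 2) = 1 / 2 + 1 by norm_num, Real.rpow_add hp0, Real.rpow_one]
  -- the series
  have hser : ∀ (p : ℕ) (hp : p.Prime) (u : ℂ), 0 ≤ u.re → ‖lo F p (red p c) (1 + u)‖ ≤ 2 * M * (p : ℝ) ^ (-1 - u.re) := by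
    intro p hp u hu
    have hpF : Fact p.Prime := ⟨hp⟩
    unfold lo
    rw [dif_pos hp]
    split_ifs with hg
    · have h1 := geo1 _ M ((p : ℝ) ^ (-(1 + u).re)) hM (by positivity) (by
        have := (hhalf p hp u hu).1
        rw [Complex.add_re, Complex.one_re, show -(1 + u.re) = -1 - u.re by ring]
        exact this) (term_le hM hF p hg.1 (cur (red p c)) (1 + u))
      refine h1.2.1.trans (le_of_eq ?_)
      rw [Complex.add_re, Complex.one_re, show -(1 + u.re) = -1 - u.re by ring]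
    · rw [norm_zero]
      positivity
  constructor
  · intro p hp u hu
    have hpF : Fact p.Prime := ⟨hp⟩
    have hp0 : (0 : ℝ) < p := by exact_mod_cast hp.pos
    have hp1 : (1 : ℝ) ≤ p := by exact_mod_cast hp.one_lt.le
    have hpc : (p : ℂ) ≠ 0 := by exact_mod_cast hp.ne_zero
    have hmp := hm p hpF
    obtain ⟨μ, hμ⟩ : ∃ μ : ℝ, μ = EM p (fun u => Pf g (fun p _ v => F 1 p v - a) p u) := ⟨_, rfl⟩
    rw [← hμ] at hmp
    have hN : Nf (fun p _ v => F 1 p v - a) p (red p c) = (Pf g (fun p _ v => F 1 p v - a) p (red p c) - μ) / p := by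
      unfold Nf
      rw [dif_pos hp, hμ]
    have hpu : ‖(p : ℂ) ^ (-u)‖ ≤ 1 := by
      rw [norm_pow p hp]
      exact Real.rpow_le_one_of_one_le_of_nonpos hp1 (by linarith)
    have hμ2 : ‖(p : ℂ) ^ (-u) * ((μ / p : ℝ) : ℂ)‖ ≤ D * (1 / (p : ℝ) ^ ((3 : ℝ) / 2)) := by
      rw [norm_mul, Complex.norm_real, Real.norm_eq_abs, abs_div, abs_of_pos hp0]
      have h1 : |μ| / p ≤ D * (1 / (p : ℝ) ^ ((3 : ℝ) / 2)) := by
        rw [← (h32 p hp).2]
        calc |μ| / p ≤ D / Real.sqrt p / p := div_le_div_of_nonneg_right hmp hp0.le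
          _ = _ := by ring
      calc ‖(p : ℂ) ^ (-u)‖ * (|μ| / p) ≤ 1 * (|μ| / p) := mul_le_mul_of_nonneg_right hpu (by positivity)
        _ ≤ _ := by rw [one_mul]; exact h1
    have hpe : (p : ℂ) ^ (-(1 + u)) = (p : ℂ) ^ (-u) * ((1 / p : ℝ) : ℂ) := by
      rw [neg_add, Complex.cpow_add _ _ hpc, Complex.cpow_neg_one]
      push_cast
      ring
    have hbb0 : 0 ≤ bb (Nf (fun p _ v => F 1 p v - a)) (Bf g) (2 * M + D + |a|) p (red p c) :=
      mul_nonneg ((fam (F := fun p _ v => F 1 p v - a) (M := M + |a|) (by positivity) (fun p hp hp2 u => by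
        have h1 := hF 1 le_rfl p hp hp2 u
        have h2 := abs_sub (F 1 p u) a
        linarith)).nonneg p _) (by positivity)
    have habs := abs_nonneg a
    have h32p : 0 ≤ 1 / (p : ℝ) ^ ((3 : ℝ) / 2) := by positivity
    by_cases hg : Gd p (cur (red p c))
    · have hP : Pf g (fun p _ v => F 1 p v - a) p (red p c) = F 1 p (cur (red p c)) - a := by
        unfold Pf
        rw [dif_pos hp, if_pos hg]
      have hlo : lo F p (red p c) (1 + u) = ∑' k : ℕ, ((F (k + 1) p (cur (red p c)) / (k + 1) : ℝ) : ℂ) * (p : ℂ) ^ (-(((k + 1 : ℕ) : ℂ) * (1 + u))) := by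
        unfold lo
        rw [dif_pos hp, if_pos hg]
      have h1 := geo1 _ M ((p : ℝ) ^ (-(1 + u).re)) hM (by positivity) (by
        have := (hhalf p hp u hu).1
        rw [Complex.add_re, Complex.one_re, show -(1 + u.re) = -1 - u.re by ring]
        exact this) (term_le hM hF p hg.1 (cur (red p c)) (1 + u))
      have h2 := h1.2.2
      rw [← hlo, Complex.add_re, Complex.one_re, show -(1 + u.re) = -1 - u.re by ring] at h2
      have h3 : lo F p (red p c) (1 + u) - (a : ℂ) * (p : ℂ) ^ (-(1 + u)) - (p : ℂ) ^ (-u) * ((Nf (fun p _ v => F 1 p v - a) p (red p c) : ℝ) : ℂ) =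
          (lo F p (red p c) (1 + u) - ((F (0 + 1) p (cur (red p c)) / ((0 : ℕ) + 1) : ℝ) : ℂ) * (p : ℂ) ^ (-(((0 + 1 : ℕ) : ℂ) * (1 + u)))) +
            (p : ℂ) ^ (-u) * ((μ / p : ℝ) : ℂ) := by
        rw [hN, hP]
        have h4 : (p : ℂ) ^ (-(((0 + 1 : ℕ) : ℂ) * (1 + u))) = (p : ℂ) ^ (-u) * ((1 / p : ℝ) : ℂ) := by
          rw [← hpe]
          congr 1
          push_cast
          ring
        rw [h4, hpe]
        push_cast
        ring
      rw [h3]
      refine (norm_add_le _ _).trans ?_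
      have h5 : 2 * M * ((p : ℝ) ^ (-1 - u.re)) ^ 2 ≤ 2 * M * (1 / (p : ℝ) ^ ((3 : ℝ) / 2)) := by
        refine mul_le_mul_of_nonneg_left ?_ (by positivity)
        exact (pow_le_pow_left₀ (by positivity) (hhalf p hp u hu).2 2).trans (h32 p hp).1
      have h6 := h2.trans h5
      have h7 : 0 ≤ |a| * (1 / (p : ℝ) ^ ((3 : ℝ) / 2)) := by positivity
      linarith
    · have hP : Pf g (fun p _ v => F 1 p v - a) p (red p c) = 0 := by
        unfold Pf
        rw [dif_pos hp, if_neg hg]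
      have hlo : lo F p (red p c) (1 + u) = 0 := by
        unfold lo
        rw [dif_pos hp, if_neg hg]
      have hB : Bf g p (red p c) = 1 := by
        unfold Bf Ph
        rw [dif_pos hp]
        simp only
        rw [if_neg hg]
      have h3 : lo F p (red p c) (1 + u) - (a : ℂ) * (p : ℂ) ^ (-(1 + u)) - (p : ℂ) ^ (-u) * ((Nf (fun p _ v => F 1 p v - a) p (red p c) : ℝ) : ℂ) =
          -((a : ℂ) * (p : ℂ) ^ (-(1 + u))) + (p : ℂ) ^ (-u) * ((μ / p : ℝ) : ℂ) := by
        rw [hN, hP, hlo]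
        push_cast
        ring
      rw [h3]
      refine (norm_add_le _ _).trans ?_
      rw [norm_neg, norm_mul, Complex.norm_real, Real.norm_eq_abs, key p hp u hu]
      have h4 : |a| * (p : ℝ) ^ (-1 - u.re) ≤ |a| / p := by
        rw [div_eq_mul_one_div]
        exact mul_le_mul_of_nonneg_left (hhalf p hp u hu).2 habs
      have h5 : |a| / p ≤ bb (Nf (fun p _ v => F 1 p v - a)) (Bf g) (2 * M + D + |a|) p (red p c) := by
        unfold bb
        rw [hB, one_mul]
        have h6 : |a| / p ≤ (2 * M + D + |a|) / p := div_le_div_of_nonneg_right (by linarith) hp0.le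
        have h7 := abs_nonneg (Nf (fun p _ v => F 1 p v - a) p (red p c))
        linarith
      have h6 : 0 ≤ 2 * M * (1 / (p : ℝ) ^ ((3 : ℝ) / 2)) := by positivity
      have h7 : 0 ≤ |a| * (1 / (p : ℝ) ^ ((3 : ℝ) / 2)) := by positivity
      linarith
  · intro p hp u hu
    refine (norm_sub_le _ _).trans ?_
    rw [norm_mul, Complex.norm_real, Real.norm_eq_abs, key p hp u hu]
    have h1 := hser p hp u hu
    have h2 : 0 ≤ D * (p : ℝ) ^ (-1 - u.re) := by positivity
    linarith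

end

end Pool.Agent.Run7.h712.HE
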