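import Pool.Agent.Run7.h712.HE.Edg

set_option autoImplicit false
set_option linter.unusedSectionVars false
set_option linter.unusedVariables false

/-! Finite families of L-functions near the edge. -/

namespace Pool.Agent.Run7.h712.HE

open Finset
open Q282.CL (av av_pi av_const av_add av_sum)
open Pool.Agent.Y722.HS (EM red PR mem_PR EM_mono EM_const summable_primes)
open Pool.Agent.N534.LF (Loc)
open Pool.Agent.N666.TM (Well)
open Pool.Agent.Run7.h712.TS (Good abs_main loglog)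

section
variable {J : Type} [Fintype J] [DecidableEq J]

open Classical in
/-- almost all members of well distributed families have the property -/
def Mn (P : ℝ → ℝ → ℕ → ℕ → (J → ℤ) → Prop) (E : ℕ) : Prop :=
  ∀ κ : ℝ, 0 < κ → ∀ N₀ : ℕ, ∃ κ' C : ℝ, 0 < κ' ∧ 0 < C ∧ ∃ y₀ : ℕ, 16 ≤ y₀ ∧ ∀ y M : ℕ, y₀ ≤ y → 2 ≤ M →
    ∀ (S : Finset ℕ) (x : ℕ → J → ℤ), (N₀ ≤ M → ∀ H : ℕ, (H : ℝ) ≤ (M : ℝ) ^ κ → Well S x H) →
    ((S.filter fun t => ¬ P κ' C M y (x t)).card : ℝ) ≤ 1 / (y : ℝ) ^ E * S.card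

theorem Mn.imp {P P' : ℝ → ℝ → ℕ → ℕ → (J → ℤ) → Prop} {E : ℕ} (h : Mn P E)
    (hi : ∀ κ C M y c, 0 < κ → 0 < C → 16 ≤ y → 2 ≤ M → P κ C M y c → P' κ C M y c) : Mn P' E := by
  classical
  intro κ hκ N₀
  obtain ⟨κ', C, hκ', hC, y₀, hy₀, h1⟩ := h κ hκ N₀
  refine ⟨κ', C, hκ', hC, y₀, hy₀, fun y M hy hM S x hw => ?_⟩
  refine le_trans ?_ (h1 y M hy hM S x hw)
  refine Nat.cast_le.2 (card_le_card fun t ht => ?_)
  rw [mem_filter] at ht ⊢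
  exact ⟨ht.1, fun h' => ht.2 (hi _ _ _ _ _ hκ' hC (by omega) hM h')⟩

theorem pos_min {Θ : Type} (Q : Finset Θ) (f : Θ → ℝ) (h : ∀ θ ∈ Q, 0 < f θ) : ∃ m : ℝ, 0 < m ∧ ∀ θ ∈ Q, m ≤ f θ := by
  classical
  induction Q using Finset.induction_on with
  | empty => exact ⟨1, one_pos, fun θ hθ => absurd hθ (notMem_empty θ)⟩
  | insert a Q ha ih =>
    obtain ⟨m, hm, h1⟩ := ih fun θ hθ => h θ (mem_insert_of_mem hθ)
    refine ⟨min m (f a), lt_min hm (h a (mem_insert_self _ _)), fun θ hθ => ?_⟩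
    rw [mem_insert] at hθ
    rcases hθ with rfl | hθ
    · exact min_le_right _ _
    · exact (min_le_left _ _).trans (h1 θ hθ)

open Classical in
theorem Mn.all {Θ : Type} (Q : Finset Θ) (P : Θ → ℝ → ℝ → ℕ → ℕ → (J → ℤ) → Prop) (E : ℕ)
    (hmono : ∀ θ ∈ Q, ∀ κ κ' C C' M y c, 0 < κ' → κ' ≤ κ → C ≤ C' → 16 ≤ y → 2 ≤ M → P θ κ C M y c → P θ κ' C' M y c)
    (h : ∀ θ ∈ Q, Mn (P θ) (E + 1)) : Mn (fun κ C M y c => ∀ θ ∈ Q, P θ κ C M y c) E := by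
  intro κ hκ N₀
  have h1 := fun θ hθ => h θ hθ κ hκ N₀
  choose! k C hk hC y₀ hy₀ hh using h1
  obtain ⟨m, hm, hmk⟩ := pos_min Q k hk
  have hCs : ∀ θ ∈ Q, C θ ≤ ∑ θ ∈ Q, C θ := fun θ hθ => single_le_sum (f := C) (fun θ hθ => (hC θ hθ).le) hθ
  have hys : ∀ θ ∈ Q, y₀ θ ≤ ∑ θ ∈ Q, y₀ θ := fun θ hθ => single_le_sum (f := y₀) (fun θ hθ => Nat.zero_le _) hθ
  have hCn : 0 ≤ ∑ θ ∈ Q, C θ := sum_nonneg fun θ hθ => (hC θ hθ).le
  refine ⟨m, ∑ θ ∈ Q, C θ + 1, hm, by linarith, ∑ θ ∈ Q, y₀ θ + 16 + #Q, by omega, fun y M hy hM S x hw => ?_⟩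
  have hy0 : (0 : ℝ) < y := by exact_mod_cast (by omega : 0 < y)
  refine le_trans (Nat.cast_le.2 (card_le_card (t := Q.biUnion fun θ => S.filter fun t => ¬ P θ (k θ) (C θ) M y (x t)) ?_)) ?_
  · intro t ht
    obtain ⟨htS, ht⟩ := (@Finset.mem_filter _ _ (_) _ _).1 ht
    push Not at ht
    obtain ⟨θ, hθ, hn⟩ := ht
    rw [mem_biUnion]
    refine ⟨θ, hθ, mem_filter.2 ⟨htS, fun h' => hn ?_⟩⟩
    exact hmono θ hθ _ _ _ _ _ _ _ hm (hmk θ hθ) (by have := hCs θ hθ; linarith) (by omega) hM h'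
  have h2 : ((Q.biUnion fun θ => S.filter fun t => ¬ P θ (k θ) (C θ) M y (x t)).card : ℝ) ≤ ∑ θ ∈ Q, (1 / (y : ℝ) ^ (E + 1) * S.card) := by
    have h3 := card_biUnion_le (s := Q) (t := fun θ => S.filter fun t => ¬ P θ (k θ) (C θ) M y (x t))
    have h4 : ((Q.biUnion fun θ => S.filter fun t => ¬ P θ (k θ) (C θ) M y (x t)).card : ℝ) ≤
        ∑ θ ∈ Q, ((S.filter fun t => ¬ P θ (k θ) (C θ) M y (x t)).card : ℝ) := by exact_mod_cast h3
    refine h4.trans (sum_le_sum fun θ hθ => ?_)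
    exact hh θ hθ y M (by have := hys θ hθ; omega) hM S x hw
  refine h2.trans ?_
  rw [sum_const, nsmul_eq_mul, ← mul_assoc]
  refine mul_le_mul_of_nonneg_right ?_ (Nat.cast_nonneg _)
  have h5 : ((#Q : ℕ) : ℝ) ≤ y := by exact_mod_cast (by omega : #Q ≤ y)
  rw [mul_one_div, div_le_div_iff₀ (by positivity) (by positivity), one_mul, pow_succ]
  calc ((#Q : ℕ) : ℝ) * (y : ℝ) ^ E ≤ y * (y : ℝ) ^ E := mul_le_mul_of_nonneg_right h5 (by positivity)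
    _ = _ := by ring

/-- `‖L c u‖ ≤ C log log (y + |Im u|)` for all `u` with `1 / log N ≤ Re u ≤ 1` and `|Im u| ≤ N ^ κ` -/
def Near (L : (J → ℤ) → ℂ → ℂ) (κ C : ℝ) (N y : ℕ) (c : J → ℤ) : Prop :=
  ∀ u : ℂ, 1 / Real.log N ≤ u.re → u.re ≤ 1 → |u.im| ≤ (N : ℝ) ^ κ → ‖L c u‖ ≤ C * Real.log (Real.log (y + |u.im|))

theorem Near.mono {L : (J → ℤ) → ℂ → ℂ} {κ κ' C C' : ℝ} {M y : ℕ} {c : J → ℤ} (h1 : κ' ≤ κ) (h2 : C ≤ C') (hy : 16 ≤ y) (hM : 2 ≤ M)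
    (h : Near L κ C M y c) : Near L κ' C' M y c := by
  intro u hu1 hu2 hu3
  have hM1 : (1 : ℝ) ≤ M := by exact_mod_cast (by omega : 1 ≤ M)
  have h3 := h u hu1 hu2 (hu3.trans (Real.rpow_le_rpow_of_exponent_le hM1 h1))
  refine h3.trans (mul_le_mul_of_nonneg_right h2 ?_)
  have hy16 : (16 : ℝ) ≤ y := by exact_mod_cast hy
  have := loglog (x := y + |u.im|) (by have := abs_nonneg u.im; linarith)
  linarith

end

section
variable {R : Type} [Fintype R] [DecidableEq R] {g : R → ℕ}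

/-- **one L-function** -/
theorem edge1 {F : ℕ → Fn g} {M D a : ℝ} (hM : 0 ≤ M) (hD : 0 ≤ D) (hF : ∀ k, 1 ≤ k → Bd (F k) M)
    (hm : ∀ (p : ℕ) (_ : Fact p.Prime), |EM p (fun u => Pf g (fun p _ v => F 1 p v - a) p u)| ≤ D / Real.sqrt p) (E : ℕ) :
    Mn (Near fun c u => ∑' p : Nat.Primes, (lo F p (red p c) (1 + u) - (a : ℂ) * ((p : ℕ) : ℂ) ^ (-(1 + u)))) E := by
  classical
  intro κ hκ N₀
  have hfam := fam (F := fun p _ v => F 1 p v - a) (M := M + |a|) (by positivity) (fun p hp hp2 u => by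
    have h1 := hF 1 le_rfl p hp hp2 u
    have h2 := abs_sub (F 1 p u) a
    linarith)
  obtain ⟨κ', C, hκ', hC, y₀, hy₀, h⟩ := abs_main hfam (β := 2 * M + D + |a|) (by positivity) E hκ N₀
  refine ⟨κ', C, hκ', hC, y₀, hy₀, fun y N hy hN S x hw => ?_⟩
  refine le_trans ?_ (h y N hy hN S x hw)
  refine Nat.cast_le.2 (card_le_card fun t ht => ?_)
  rw [mem_filter] at ht ⊢
  exact ⟨ht.1, fun hG => ht.2 fun u hu1 hu2 hu3 => hG _ (loc hM hD hF hm (x t)) u hu1 hu2 hu3⟩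

/-- the series converge -/
theorem lo_summable {F : ℕ → Fn g} {M : ℝ} (hM : 0 ≤ M) (hF : ∀ k, 1 ≤ k → Bd (F k) M) (c : (Σ l : R, Fin (2 * g l + 1)) → ℤ) (s : ℂ) (hs : 1 < s.re) :
    (∀ (p : ℕ) (_ : Fact p.Prime), p ≠ 2 → ∀ v : ∀ l, Fin (2 * g l + 1) → ZMod p,
      Summable fun k : ℕ => ((F (k + 1) p v / (k + 1) : ℝ) : ℂ) * (p : ℂ) ^ (-(((k + 1 : ℕ) : ℂ) * s))) ∧
    Summable fun p : Nat.Primes => lo F p (red p c) s := by
  classical
  have hhalf : ∀ p : ℕ, p.Prime → (p : ℝ) ^ (-s.re) ≤ 1 / 2 := by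
    intro p hp
    have hp2 : (2 : ℝ) ≤ p := by exact_mod_cast hp.two_le
    have h1 : (p : ℝ) ^ (-s.re) ≤ (p : ℝ) ^ (-1 : ℝ) := Real.rpow_le_rpow_of_exponent_le (by linarith) (by linarith)
    rw [Real.rpow_neg_one] at h1
    refine h1.trans ?_
    rw [one_div]
    exact inv_anti₀ (by norm_num) hp2
  refine ⟨fun p hp hp2 v => (geo1 _ M ((p : ℝ) ^ (-s.re)) hM (by positivity) (hhalf p hp.out) (term_le hM hF p hp2 v s)).1, ?_⟩
  have h1 : Summable fun p : Nat.Primes => 2 * M * ((p : ℕ) : ℝ) ^ (-1 - (s.re - 1)) := (summable_primes (by linarith)).mul_left _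
  refine Summable.of_norm_bounded h1 fun p => ?_
  have hpF : Fact (p : ℕ).Prime := ⟨p.2⟩
  unfold lo
  rw [dif_pos p.2]
  split_ifs with hg
  · refine (geo1 _ M (((p : ℕ) : ℝ) ^ (-s.re)) hM (by positivity) (hhalf p p.2) (term_le hM hF p hg.1 (cur (red p c)) s)).2.1.trans (le_of_eq ?_)
    rw [show -1 - (s.re - 1) = -s.re by ring]
  · rw [norm_zero]
    positivity

/-- the value of a class function at a power -/
noncomputable def evk (p : ℕ) [Fact p.Prime] (k : ℕ) {d : ℕ} (Q : MvPolynomial ℕ ℝ) (u : Fin (d + 1) → ZMod p) : ℝ :=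
  MvPolynomial.eval (fun i => sn p u (k * (i + 1) - 1) - eta (i + 1)) Q

theorem evk_one (p : ℕ) [Fact p.Prime] {d : ℕ} (Q : MvPolynomial ℕ ℝ) (u : Fin (d + 1) → ZMod p) : evk p 1 Q u = ev p Q u := by
  unfold evk ev
  simp

theorem evk_bd (d : ℕ) (hd : Odd (d + 1)) (Q : MvPolynomial ℕ ℝ) : ∃ M : ℝ, 0 ≤ M ∧ ∀ (p : ℕ) (hp : Fact p.Prime), p ≠ 2 →
    ∀ (k : ℕ) (u : Fin (d + 1) → ZMod p), |evk p k Q u| ≤ M := by
  obtain ⟨M, hM, h⟩ := lip (fun _ => (d : ℝ) + 1) Q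
  refine ⟨M, hM, fun p hp h2 k u => ?_⟩
  have heta : ∀ i : ℕ, |eta i| ≤ 1 := fun i => by
    unfold eta
    split_ifs <;> norm_num
  have h1 : ∀ i, |sn p u (k * (i + 1) - 1) - eta (i + 1)| ≤ d + 1 := fun i => by
    have h3 := sn_abs h2 hd u (k * (i + 1) - 1)
    have h4 := heta (i + 1)
    have h5 := abs_sub (sn p u (k * (i + 1) - 1)) (eta (i + 1))
    linarith
  exact (h _ _ 0 le_rfl h1 h1 (fun i => by simp)).1

/-- the product of class functions of the factors, at a power -/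
noncomputable def PEk (g : R → ℕ) (Q : R → MvPolynomial ℕ ℝ) (k : ℕ) : Fn g := fun p _ u => ∏ l, evk p k (Q l) (u l)

theorem PEk_one (Q : R → MvPolynomial ℕ ℝ) (p : ℕ) [Fact p.Prime] (u : ∀ l, Fin (2 * g l + 1) → ZMod p) : PEk g Q 1 p u = PE g Q p u := by
  unfold PEk PE
  exact prod_congr rfl fun l _ => evk_one p (Q l) (u l)

theorem PEk_bd (Q : R → MvPolynomial ℕ ℝ) : ∃ M : ℝ, 0 ≤ M ∧ ∀ k, Bd (PEk g Q k) M := by
  choose M hM h using fun l => evk_bd (2 * g l) ⟨g l, rfl⟩ (Q l)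
  refine ⟨∏ l, M l, prod_nonneg fun l _ => hM l, fun k p hp h2 u => ?_⟩
  unfold PEk
  rw [abs_prod]
  exact prod_le_prod (fun _ _ => abs_nonneg _) fun l _ => h l p hp h2 k (u l)

/-- a finite linear combination of products of class functions, at a power -/
noncomputable def LC {α : Type} (g : R → ℕ) (I : Finset α) (b : α → ℝ) (Q : α → R → MvPolynomial ℕ ℝ) (k : ℕ) : Fn g :=
  fun p _ u => ∑ i ∈ I, b i * PEk g (Q i) k p u

theorem LC_bd {α : Type} (I : Finset α) (b : α → ℝ) (Q : α → R → MvPolynomial ℕ ℝ) : ∃ M : ℝ, 0 ≤ M ∧ ∀ k, Bd (LC g I b Q k) M := by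
  choose M hM h using fun i => PEk_bd (g := g) (Q i)
  refine ⟨∑ i ∈ I, |b i| * M i, sum_nonneg fun i _ => mul_nonneg (abs_nonneg _) (hM i), fun k p hp h2 u => ?_⟩
  unfold LC
  refine (abs_sum_le_sum_abs _ _).trans (sum_le_sum fun i _ => ?_)
  rw [abs_mul]
  exact mul_le_mul_of_nonneg_left (h i k p hp h2 u) (abs_nonneg _)

theorem LC_mean {α : Type} [DecidableEq α] (I : Finset α) (b : α → ℝ) (Q : α → R → MvPolynomial ℕ ℝ) (hQ : ∀ i ∈ I, ∀ l, Q i l ∈ WS (2 * g l + 1)) :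
    Nr (fun p _ => av (fun u : ∀ l, Fin (2 * g l + 1) → ZMod p => LC g I b Q 1 p u)) (∑ i ∈ I, b i * ∏ l, LF (Q i l)) := by
  refine (Nr.sum I (fun i p _ => b i * av (fun u : ∀ l, Fin (2 * g l + 1) → ZMod p => PE g (Q i) p u)) (fun i => b i * ∏ l, LF (Q i l)) fun i hi =>
    (PE_mom (Q i) (hQ i hi)).smul (b i)).congr fun p hp hp2 => ?_
  have h1 : (fun u : ∀ l, Fin (2 * g l + 1) → ZMod p => LC g I b Q 1 p u) = fun u => ∑ i ∈ I, b i * PE g (Q i) p u := by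
    funext u
    exact sum_congr rfl fun i _ => congrArg (fun z => b i * z) (PEk_one (Q i) p u)
  show ∑ i ∈ I, b i * av (fun u : ∀ l, Fin (2 * g l + 1) → ZMod p => PE g (Q i) p u) = av (fun u : ∀ l, Fin (2 * g l + 1) → ZMod p => LC g I b Q 1 p u)
  rw [h1, av_sum]
  refine sum_congr rfl fun i _ => ?_
  rw [Q282.CL.av_mul]

/-- the mean of the centred function -/
theorem mean_sub {F : Fn g} {a : ℝ} {M : ℝ} (hM : 0 ≤ M) (hF : Bd F M)
    (hm : Nr (fun p _ => av (fun u : ∀ l, Fin (2 * g l + 1) → ZMod p => F p u)) a) :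
    ∃ D : ℝ, 0 ≤ D ∧ ∀ (p : ℕ) (_ : Fact p.Prime), |EM p (fun u => Pf g (fun p _ v => F p v - a) p u)| ≤ D / Real.sqrt p := by
  have h1 : Nr (fun p _ => av (fun u : ∀ l, Fin (2 * g l + 1) → ZMod p => F p u - a)) 0 := by
    obtain ⟨C, hC, h⟩ := hm
    refine ⟨C, hC, fun p hp h2 => ?_⟩
    have h3 := h p hp h2
    have hne : Nonempty (∀ l, Fin (2 * g l + 1) → ZMod p) := ⟨fun _ _ => 0⟩
    have h4 : av (fun u : ∀ l, Fin (2 * g l + 1) → ZMod p => F p u - a) = av (fun u : ∀ l, Fin (2 * g l + 1) → ZMod p => F p u) - a := by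
      have hc : (Fintype.card (∀ l, Fin (2 * g l + 1) → ZMod p) : ℝ) ≠ 0 := by
        exact_mod_cast Fintype.card_ne_zero
      unfold av
      rw [sum_sub_distrib, sum_const, card_univ, nsmul_eq_mul, sub_div, mul_div_cancel_left₀ _ hc]
    show |av (fun u : ∀ l, Fin (2 * g l + 1) → ZMod p => F p u - a) - 0| ≤ C / Real.sqrt p
    rw [h4, sub_zero]
    exact h3
  obtain ⟨C, hC, h⟩ := Pf_mean (fun p _ v => F p v - a) ⟨M + |a|, by positivity, fun p hp hp2 u => by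
    have h1 := hF p hp hp2 u
    have h2 := abs_sub (F p u) a
    linarith⟩ h1
  exact ⟨C, hC, fun p hp => h p⟩

/-- **linear combinations of products of class functions near the edge** -/
theorem edgeLC {α : Type} [DecidableEq α] (I : Finset α) (b : α → ℝ) (Q : α → R → MvPolynomial ℕ ℝ) (hQ : ∀ i ∈ I, ∀ l, Q i l ∈ WS (2 * g l + 1))
    (a : ℝ) (ha : ∑ i ∈ I, b i * ∏ l, LF (Q i l) = a) (E : ℕ) :
    Mn (Near fun c u => ∑' p : Nat.Primes, (lo (LC g I b Q) p (red p c) (1 + u) - (a : ℂ) * ((p : ℕ) : ℂ) ^ (-(1 + u)))) E := by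
  obtain ⟨M, hM, h1⟩ := LC_bd (g := g) I b Q
  have h2 := LC_mean (g := g) I b Q hQ
  rw [ha] at h2
  obtain ⟨D, hD, h3⟩ := mean_sub hM (h1 1) h2
  exact edge1 hM hD (fun k _ => h1 k) h3 E

/-- **products of class functions near the edge** -/
theorem edgePE (Q : R → MvPolynomial ℕ ℝ) (hQ : ∀ l, Q l ∈ WS (2 * g l + 1)) (a : ℝ) (ha : ∏ l, LF (Q l) = a) (E : ℕ) :
    Mn (Near fun c u => ∑' p : Nat.Primes, (lo (PEk g Q) p (red p c) (1 + u) - (a : ℂ) * ((p : ℕ) : ℂ) ^ (-(1 + u)))) E := by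
  obtain ⟨M, hM, h1⟩ := PEk_bd (g := g) Q
  have h2 : Nr (fun p _ => av (fun u : ∀ l, Fin (2 * g l + 1) → ZMod p => PEk g Q 1 p u)) a := by
    rw [← ha]
    refine (PE_mom Q hQ).congr fun p hp hp2 => ?_
    simp only [PEk_one]
  obtain ⟨D, hD, h3⟩ := mean_sub hM (h1 1) h2
  exact edge1 hM hD (fun k _ => h1 k) h3 E

end

end Pool.Agent.Run7.h712.HE
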