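import Pool.Agent.Run7.h712.HE.Cls

set_option autoImplicit false
set_option linter.unusedSectionVars false
set_option linter.unusedVariables false

/-! The determinants in the traces on the exterior powers. -/

namespace Pool.Agent.Run7.h712.HE

open Finset

/-- the trace on the exterior power with the index `k`, and zero if `k` is negative -/
noncomputable def ez (t : ℕ → ℝ) (k : ℤ) : ℝ := if 0 ≤ k then (-1) ^ k.toNat * coe t k.toNat else 0

theorem ez_eq (t : ℕ → ℝ) {k : ℤ} {m r : ℕ} (h : k = m - r) : ez t k = (-1) ^ (m + r) * cz t m r := by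
  unfold ez cz
  by_cases h1 : r ≤ m
  · have h2 : 0 ≤ k := by omega
    have h3 : k.toNat = m - r := by omega
    rw [if_pos h1, if_pos h2, h3]
    congr 1
    obtain ⟨a, rfl⟩ : ∃ a, m = r + a := ⟨m - r, by omega⟩
    rw [Nat.add_sub_cancel_left, show r + a + r = a + 2 * r by ring, pow_add, pow_mul]
    norm_num
  · have h2 : ¬ 0 ≤ k := by omega
    rw [if_neg h1, if_neg h2, mul_zero]

variable {n : ℕ}

theorem ez_det (t : ℕ → ℝ) (μ : Fin n → ℕ) :
    (Matrix.of fun i j : Fin n => ez t ((μ i : ℤ) - (i : ℕ) + (j : ℕ)) - ez t ((μ i : ℤ) - (i : ℕ) - (j : ℕ) - 2)).det =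
      (-1) ^ (∑ i, μ i) * ch t μ := by
  have h1 : (Matrix.of fun i j : Fin n => ez t ((μ i : ℤ) - (i : ℕ) + (j : ℕ)) - ez t ((μ i : ℤ) - (i : ℕ) - (j : ℕ) - 2)) =
      Matrix.of fun i j : Fin n => (-1) ^ (μ i + (i : ℕ)) * (Matrix.of fun i j : Fin n => (-1) ^ (j : ℕ) * (Matrix.of fun i j : Fin n =>
        cz t (μ i + n) (n + (i : ℕ) - (j : ℕ)) - cz t (μ i + n) (n + (i : ℕ) + (j : ℕ) + 2)) i j) i j := by
    ext i j
    simp only [Matrix.of_apply]
    have hj := j.2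
    rw [ez_eq t (m := μ i + n) (r := n + (i : ℕ) - (j : ℕ)) (by push_cast [Nat.cast_sub (show (j : ℕ) ≤ n + (i : ℕ) by omega)]; ring),
      ez_eq t (m := μ i + n) (r := n + (i : ℕ) + (j : ℕ) + 2) (by push_cast; ring)]
    have e1 : (-1 : ℝ) ^ (μ i + n + (n + (i : ℕ) - (j : ℕ))) = (-1) ^ (μ i + (i : ℕ)) * (-1) ^ (j : ℕ) := by
      rw [← pow_add]
      have : μ i + n + (n + (i : ℕ) - (j : ℕ)) + 2 * (j : ℕ) = μ i + (i : ℕ) + (j : ℕ) + 2 * n := by omega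
      have h2 : (-1 : ℝ) ^ (μ i + n + (n + (i : ℕ) - (j : ℕ)) + 2 * (j : ℕ)) = (-1) ^ (μ i + (i : ℕ) + (j : ℕ) + 2 * n) := by rw [this]
      rw [pow_add, pow_add _ _ (2 * n), pow_mul, pow_mul] at h2
      norm_num at h2
      exact h2
    have e2 : (-1 : ℝ) ^ (μ i + n + (n + (i : ℕ) + (j : ℕ) + 2)) = (-1) ^ (μ i + (i : ℕ)) * (-1) ^ (j : ℕ) := by
      rw [← pow_add, show μ i + n + (n + (i : ℕ) + (j : ℕ) + 2) = μ i + (i : ℕ) + (j : ℕ) + 2 * (n + 1) by ring, pow_add, pow_mul]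
      norm_num
    rw [e1, e2]
    ring
  rw [h1, Matrix.det_mul_column, Matrix.det_mul_row, ← mul_assoc]
  unfold ch
  congr 1
  rw [← prod_mul_distrib]
  have h2 : ∀ i : Fin n, (-1 : ℝ) ^ (μ i + (i : ℕ)) * (-1) ^ (i : ℕ) = (-1) ^ μ i := by
    intro i
    rw [← pow_add, show μ i + (i : ℕ) + (i : ℕ) = μ i + 2 * (i : ℕ) by ring, pow_add, pow_mul]
    norm_num
  rw [prod_congr rfl fun i _ => h2 i, prod_pow_eq_pow_sum]

theorem ev_CP (p : ℕ) [Fact p.Prime] {d : ℕ} (μ : Fin n → ℕ) (u : Fin (d + 1) → ZMod p) : ev p (CP μ) u = ch (sn p u) μ := eval_CP _ μ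

section
variable {R : Type} [Fintype R] [DecidableEq R] {g : R → ℕ}

/-- the functions attached to a family of partitions have small means -/
theorem chars_mean (ν : R → Σ n : ℕ, Fin n → ℕ) (hw : ∀ l, ∑ i, (ν l).2 i ≤ 2 * g l + 1)
    (l₀ : R) (h0 : 0 < (ν l₀).1) (h1 : 1 ≤ (ν l₀).2 ⟨0, h0⟩) :
    Nr (fun p _ => Q282.CL.av (fun u : ∀ l, Fin (2 * g l + 1) → ZMod p => PE g (fun l => CP (ν l).2) p u)) 0 := by
  have h2 := PE_mom (g := g) (fun l => CP (ν l).2) fun l => WS.mono (hw l) (CP_WS (ν l).2)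
  rwa [prod_eq_zero (mem_univ l₀) (LF_CP_zero (ν l₀).2 h0 h1)] at h2

end

end Pool.Agent.Run7.h712.HE
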