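import Pool.Agent.Run7.h712.HE.Prd
import Pool.Agent.Run7.h712.TS.Kinds
import Pool.Agent.Run7.h712.TS.Main

set_option autoImplicit false
set_option linter.unusedSectionVars false
set_option linter.unusedVariables false

/-! The functions on the parameters modulo a prime, and the engine. -/

namespace Pool.Agent.Run7.h712.HE

open Finset Filter
open Q282.CL (av av_pi av_const av_add av_sum)
open Pool.Agent.Y722.HS (EM red PR mem_PR)
open Pool.Agent.N666.TM (Well)

section
variable {R : Type} [Fintype R] [DecidableEq R] {g : R → ℕ} {ι : Type} [Fintype ι] [DecidableEq ι]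

/-- the parameters of the factors -/
def cur {A : Type} (u : (Σ l : R, Fin (2 * g l + 1)) → A) (l : R) (i : Fin (2 * g l + 1)) : A := u ⟨l, i⟩

theorem EM_av (p : ℕ) [Fact p.Prime] (F : (∀ l, Fin (2 * g l + 1) → ZMod p) → ℝ) :
    EM p (fun u : (Σ l : R, Fin (2 * g l + 1)) → ZMod p => F (cur u)) = av F := by
  unfold EM av
  congr 1
  · exact Fintype.sum_equiv (Equiv.piCurry fun (l : R) (_ : Fin (2 * g l + 1)) => ZMod p) _ _ fun u => rfl
  · have h1 : Fintype.card (∀ l, Fin (2 * g l + 1) → ZMod p) = Fintype.card ((Σ l : R, Fin (2 * g l + 1)) → ZMod p) :=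
      Fintype.card_congr (Equiv.piCurry fun (l : R) (_ : Fin (2 * g l + 1)) => ZMod p).symm
    rw [h1, Fintype.card_fun, ZMod.card]
    push_cast
    rfl

/-- the reductions of all the curves are smooth -/
def Gd (p : ℕ) [Fact p.Prime] (v : ∀ l, Fin (2 * g l + 1) → ZMod p) : Prop := p ≠ 2 ∧ ∀ l, (pol p (v l)).Separable

theorem av_nonneg {α : Type} [Fintype α] {f : α → ℝ} (h : ∀ a, 0 ≤ f a) : 0 ≤ av f := by
  unfold av
  exact div_nonneg (sum_nonneg fun a _ => h a) (Nat.cast_nonneg _)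

open Classical in
theorem bad_av (p : ℕ) [hp : Fact p.Prime] :
    av (fun v : ∀ l, Fin (2 * g l + 1) → ZMod p => if Gd p v then (0 : ℝ) else 1) ≤ (∑ l, (2 * (g l : ℝ) + 1) + 2) / Real.sqrt p := by
  have hs := sqrt_pos p hp
  have hs1 := one_le_sqrt p hp
  have hp0 : (0 : ℝ) < p := by exact_mod_cast hp.out.pos
  have hsp : Real.sqrt p ≤ p := by
    have := Real.mul_self_sqrt hp0.le
    nlinarith
  have hne : Nonempty (∀ l, Fin (2 * g l + 1) → ZMod p) := ⟨fun _ _ => 0⟩
  by_cases h : p ≠ 2 ∧ ∀ l, 2 * g l + 1 < p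
  · have h1 : av (fun v : ∀ l, Fin (2 * g l + 1) → ZMod p => if Gd p v then (0 : ℝ) else 1) ≤
        av (fun v : ∀ l, Fin (2 * g l + 1) → ZMod p => ∑ l, if (pol p (v l)).Separable then (0 : ℝ) else 1) := by
      refine Q282.CL.av_mono fun v => ?_
      have h0 : ∀ l, 0 ≤ (if (pol p (v l)).Separable then (0 : ℝ) else 1) := fun l => by split_ifs <;> norm_num
      by_cases hg : Gd p v
      · rw [if_pos hg]
        exact sum_nonneg fun l _ => h0 l
      · rw [if_neg hg]
        have h2 : ∃ l, ¬ (pol p (v l)).Separable := by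
          by_contra h3
          push Not at h3
          exact hg ⟨h.1, h3⟩
        obtain ⟨l, hl⟩ := h2
        have h3 := single_le_sum (f := fun l => if (pol p (v l)).Separable then (0 : ℝ) else 1) (fun l _ => h0 l) (mem_univ l)
        refine le_trans (le_of_eq ?_) h3
        rw [if_neg hl]
    refine h1.trans ?_
    rw [av_sum]
    have h2 : ∀ l, av (fun v : ∀ l, Fin (2 * g l + 1) → ZMod p => if (pol p (v l)).Separable then (0 : ℝ) else 1) ≤ (2 * (g l : ℝ) + 1) / Real.sqrt p := by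
      intro l
      have h3 := Run7.h3.ST.av_hom (Pi.evalAddMonoidHom (fun l => Fin (2 * g l + 1) → ZMod p) l) (fun w => by
        refine ⟨Function.update (0 : ∀ l, Fin (2 * g l + 1) → ZMod p) l w, ?_⟩
        show Function.update (0 : ∀ l, Fin (2 * g l + 1) → ZMod p) l w l = w
        rw [Function.update_self])
        (fun w : Fin (2 * g l + 1) → ZMod p => if (pol p w).Separable then (0 : ℝ) else 1)
      have h4 : av (fun v : ∀ l, Fin (2 * g l + 1) → ZMod p => if (pol p (v l)).Separable then (0 : ℝ) else 1) =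
          av (fun w : Fin (2 * g l + 1) → ZMod p => if (pol p w).Separable then (0 : ℝ) else 1) := h3
      rw [h4]
      unfold av
      have h5 : ∑ w : Fin (2 * g l + 1) → ZMod p, (if (pol p w).Separable then (0 : ℝ) else 1) =
          ((univ : Finset (Fin (2 * g l + 1) → ZMod p)).filter (fun u => ¬ (pol p u).Separable)).card := by
        rw [card_filter]
        push_cast
        refine sum_congr rfl fun w _ => ?_
        by_cases hw : (pol p w).Separable
        · rw [if_pos hw, if_neg (not_not.2 hw)]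
        · rw [if_neg hw, if_pos hw]
      rw [h5, Fintype.card_pi_const, ZMod.card]
      have h6 := bad_card p (h.2 l)
      have h7 : ((((univ : Finset (Fin (2 * g l + 1) → ZMod p)).filter (fun u => ¬ (pol p u).Separable)).card : ℕ) : ℝ) ≤
          (2 * (g l : ℝ) + 1) * (p : ℝ) ^ (2 * g l) := by exact_mod_cast h6
      have h8 : (0 : ℝ) < ((p ^ (2 * g l + 1) : ℕ) : ℝ) := by
        push_cast
        positivity
      rw [div_le_div_iff₀ h8 hs]
      push_cast
      calc _ ≤ (2 * (g l : ℝ) + 1) * (p : ℝ) ^ (2 * g l) * Real.sqrt p := mul_le_mul_of_nonneg_right h7 hs.le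
        _ ≤ (2 * (g l : ℝ) + 1) * (p : ℝ) ^ (2 * g l) * p := mul_le_mul_of_nonneg_left hsp (by positivity)
        _ = _ := by ring
    refine (sum_le_sum fun l _ => h2 l).trans ?_
    rw [← sum_div]
    exact div_le_div_of_nonneg_right (by linarith) hs.le
  · have h1 : av (fun v : ∀ l, Fin (2 * g l + 1) → ZMod p => if Gd p v then (0 : ℝ) else 1) ≤ 1 := by
      refine (Q282.CL.av_mono (g := fun _ => (1 : ℝ)) fun v => ?_).trans (le_of_eq (av_const (1 : ℝ)))
      split_ifs <;> norm_num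
    refine h1.trans ?_
    rw [le_div_iff₀ hs, one_mul]
    refine hsp.trans ?_
    have h0 : 0 ≤ ∑ l, (2 * (g l : ℝ) + 1) := sum_nonneg fun l _ => by positivity
    by_cases h3 : p = 2
    · rw [h3]
      push_cast
      linarith
    · have h4 : ∃ l, p ≤ 2 * g l + 1 := by
        by_contra h5
        push Not at h5
        exact h ⟨h3, h5⟩
      obtain ⟨l, hl⟩ := h4
      have h5 : (p : ℝ) ≤ 2 * g l + 1 := by exact_mod_cast hl
      have h6 : 2 * (g l : ℝ) + 1 ≤ ∑ l, (2 * (g l : ℝ) + 1) :=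
        single_le_sum (f := fun l => 2 * (g l : ℝ) + 1) (fun l _ => by positivity) (mem_univ l)
      linarith

open Classical in
/-- the functions: the deviation of the product of the coefficients, or the indicator of the bad reduction -/
noncomputable def Ph (g : R → ℕ) (θ : Option (ι → ℕ)) (p : ℕ) (u : (Σ l : R, Fin (2 * g l + 1)) → ZMod p) : ℝ :=
  if h : p.Prime then
    haveI : Fact p.Prime := ⟨h⟩
    match θ with
    | none => if Gd p (cur u) then 0 else 1
    | some k => if Gd p (cur u) then PC p (d := fun l => 2 * g l) k (cur u) - gR R k else 0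
  else 0

theorem Ph_bound (θ : Option (ι → ℕ)) : ∃ C : ℝ, 1 ≤ C ∧ ∀ (p : ℕ) (u : (Σ l : R, Fin (2 * g l + 1)) → ZMod p), |Ph g θ p u| ≤ C := by
  classical
  cases θ with
  | none =>
    refine ⟨1, le_rfl, fun p u => ?_⟩
    unfold Ph
    split_ifs <;> norm_num
  | some k =>
    obtain ⟨M, hM, h⟩ := PC_bound (R := R) (d := fun l => 2 * g l) (fun l => ⟨g l, rfl⟩) k
    refine ⟨M + gR R k + 1, by
      have : (0 : ℝ) ≤ gR R k := Nat.cast_nonneg _
      linarith, fun p u => ?_⟩
    have h0 : (0 : ℝ) ≤ gR R k := Nat.cast_nonneg _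
    unfold Ph
    split_ifs with hp hg
    · haveI : Fact p.Prime := ⟨hp⟩
      have h1 := h p ⟨hp⟩ hg.1 (cur u)
      have h3 := abs_sub (PC p (d := fun l => 2 * g l) k (cur u)) (gR R k : ℝ)
      rw [Nat.abs_cast] at h3
      linarith
    · rw [abs_zero]
      linarith
    · rw [abs_zero]
      linarith

theorem Ph_mean (θ : Option (ι → ℕ)) (hθ : ∀ k ∈ θ, ∀ l, ∑ i, k i ≤ 2 * g l + 1) :
    ∃ C : ℝ, 0 ≤ C ∧ ∀ (p : ℕ) [Fact p.Prime], |EM p (fun u => Ph g θ p u)| ≤ C / Real.sqrt p := by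
  classical
  have hG0 : (0 : ℝ) ≤ ∑ l, (2 * (g l : ℝ) + 1) + 2 := by
    have : 0 ≤ ∑ l, (2 * (g l : ℝ) + 1) := sum_nonneg fun l _ => by positivity
    linarith
  cases θ with
  | none =>
    refine ⟨_, hG0, fun p hp => ?_⟩
    have h1 : EM p (fun u => Ph g (none : Option (ι → ℕ)) p u) =
        av (fun v : ∀ l, Fin (2 * g l + 1) → ZMod p => if Gd p v then (0 : ℝ) else 1) := by
      rw [← EM_av]
      unfold Ph
      simp only [dif_pos hp.out]
    rw [h1, abs_of_nonneg (av_nonneg fun v => by split_ifs <;> norm_num)]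
    exact bad_av p
  | some k =>
    obtain ⟨M, hM, h⟩ := PC_bound (R := R) (d := fun l => 2 * g l) (fun l => ⟨g l, rfl⟩) k
    obtain ⟨C, hC, hmom⟩ := PC_mom (R := R) (d := fun l => 2 * g l) (fun l => ⟨g l, rfl⟩) k (hθ k rfl)
    have h0 : (0 : ℝ) ≤ gR R k := Nat.cast_nonneg _
    refine ⟨C + (M + gR R k) * (∑ l, (2 * (g l : ℝ) + 1) + 2), by positivity, fun p hp => ?_⟩
    have hs := sqrt_pos p hp
    have hne : Nonempty (∀ l, Fin (2 * g l + 1) → ZMod p) := ⟨fun _ _ => 0⟩
    by_cases h2 : p = 2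
    · have h1 : EM p (fun u => Ph g (some k) p u) = 0 := by
        unfold EM
        rw [sum_eq_zero, zero_div]
        intro u _
        unfold Ph
        rw [dif_pos hp.out]
        simp only
        rw [if_neg]
        exact fun h3 => h3.1 h2
      rw [h1, abs_zero]
      positivity
    · have h1 : EM p (fun u => Ph g (some k) p u) =
          av (fun v : ∀ l, Fin (2 * g l + 1) → ZMod p => if Gd p v then PC p (d := fun l => 2 * g l) k v - gR R k else 0) := by
        rw [← EM_av]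
        unfold Ph
        simp only [dif_pos hp.out]
      rw [h1]
      have h3 : av (fun v : ∀ l, Fin (2 * g l + 1) → ZMod p => if Gd p v then PC p (d := fun l => 2 * g l) k v - gR R k else 0) =
          (av (fun v : ∀ l, Fin (2 * g l + 1) → ZMod p => PC p (d := fun l => 2 * g l) k v) - gR R k) -
          av (fun v : ∀ l, Fin (2 * g l + 1) → ZMod p => (PC p (d := fun l => 2 * g l) k v - gR R k) * if Gd p v then 0 else 1) := by
        have hc : (Fintype.card (∀ l, Fin (2 * g l + 1) → ZMod p) : ℝ) ≠ 0 := by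
          exact_mod_cast Fintype.card_ne_zero
        unfold av
        rw [eq_sub_iff_add_eq, ← add_div, ← sum_add_distrib, div_sub' hc]
        congr 1
        have h4 : (Fintype.card (∀ l, Fin (2 * g l + 1) → ZMod p) : ℝ) * gR R k = ∑ v : ∀ l, Fin (2 * g l + 1) → ZMod p, (gR R k : ℝ) := by
          rw [sum_const, card_univ, nsmul_eq_mul]
        rw [h4, ← sum_sub_distrib]
        refine sum_congr rfl fun v _ => ?_
        split_ifs <;> ring
      rw [h3]
      have h4 := hmom p hp h2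
      have h5 : |av (fun v : ∀ l, Fin (2 * g l + 1) → ZMod p => (PC p (d := fun l => 2 * g l) k v - gR R k) * if Gd p v then 0 else 1)| ≤
          (M + gR R k) * ((∑ l, (2 * (g l : ℝ) + 1) + 2) / Real.sqrt p) := by
        refine (Q282.CL.abs_av_le _).trans ?_
        have h6 : av (fun v : ∀ l, Fin (2 * g l + 1) → ZMod p => |(PC p (d := fun l => 2 * g l) k v - gR R k) * if Gd p v then 0 else 1|) ≤
            av (fun v : ∀ l, Fin (2 * g l + 1) → ZMod p => (M + gR R k) * if Gd p v then (0 : ℝ) else 1) := by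
          refine Q282.CL.av_mono fun v => ?_
          rw [abs_mul]
          have h7 := abs_sub (PC p (d := fun l => 2 * g l) k v) (gR R k : ℝ)
          rw [Nat.abs_cast] at h7
          have h8 := h p hp h2 v
          have h9 : |(if Gd p v then (0 : ℝ) else 1)| = if Gd p v then (0 : ℝ) else 1 := by
            split_ifs <;> norm_num
          rw [h9]
          refine mul_le_mul_of_nonneg_right (by linarith) ?_
          split_ifs <;> norm_num
        refine h6.trans ?_
        rw [Q282.CL.av_mul]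
        exact mul_le_mul_of_nonneg_left (bad_av p) (by positivity)
      refine (abs_sub _ _).trans ?_
      rw [add_div, mul_div_assoc]
      exact add_le_add h4 h5

open Classical in
/-- **almost all members of well distributed families**, for a finite number of bounded functions with small means -/
theorem well_main {J : Type} [Fintype J] [DecidableEq J] {Θ : Type} (Q : Finset Θ) (Φ : Θ → ∀ p : ℕ, (J → ZMod p) → ℝ)
    (hb : ∀ θ ∈ Q, ∃ C : ℝ, 1 ≤ C ∧ ∀ (p : ℕ) (u : J → ZMod p), |Φ θ p u| ≤ C)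
    (hm : ∀ θ ∈ Q, ∃ C : ℝ, 0 ≤ C ∧ ∀ (p : ℕ) [Fact p.Prime], |EM p (fun u => Φ θ p u)| ≤ C / Real.sqrt p)
    (δ : ℝ) (hδ : 0 < δ) (E B : ℕ) (W : ℕ → Finset (ℕ → ℝ)) (hW : ∀ T, (W T).card ≤ T ^ B) (hW1 : ∀ T, ∀ w ∈ W T, ∀ p, |w p| ≤ 1)
    (κ : ℝ) (hκ : 0 < κ) (N₀ : ℕ) : ∃ κ' : ℝ, 0 < κ' ∧ ∃ y₀ : ℕ, 16 ≤ y₀ ∧ ∀ y M : ℕ, y₀ ≤ y → 2 ≤ M →
      ∀ (S : Finset ℕ) (x : ℕ → J → ℤ), (N₀ ≤ M → ∀ H : ℕ, (H : ℝ) ≤ (M : ℝ) ^ κ → Well S x H) →
      ((S.filter fun t => ¬ ∀ T : ℕ, y ≤ T → (T : ℝ) ≤ (M : ℝ) ^ κ' → ∀ w ∈ W T, ∀ θ ∈ Q,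
        |∑ p ∈ PR T, w p * Φ θ p (red p (x t))| ≤ (T : ℝ) ^ (1 / 2 + δ)).card : ℝ) ≤ 1 / (y : ℝ) ^ E * S.card := by
  choose! C hC1 hC using hb
  choose! D hD0 hD using hm
  obtain ⟨Cm, hCm⟩ : ∃ Cm, Cm = ∑ θ ∈ Q, (C θ + D θ) + 1 := ⟨_, rfl⟩
  have hCD : ∀ θ ∈ Q, C θ + D θ ≤ ∑ θ ∈ Q, (C θ + D θ) := fun θ hθ =>
    single_le_sum (f := fun θ => C θ + D θ) (fun θ hθ => by
      have := hC1 θ hθ
      have := hD0 θ hθ
      linarith) hθ
  have hs0 : 0 ≤ ∑ θ ∈ Q, (C θ + D θ) := sum_nonneg fun θ hθ => by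
    have := hC1 θ hθ
    have := hD0 θ hθ
    linarith
  have hCm1 : 1 ≤ Cm := by linarith
  have hCm0 : 0 < Cm := by linarith
  obtain ⟨Me, x₀, hMe, heng⟩ := TS.eng (ι := J) (δ / 2) (by positivity) E B Q (fun θ p u => Φ θ p u / Cm) 1 zero_le_one
    (fun θ hθ p hp u => by
      have h1 := hC θ hθ p u
      have h2 := one_le_sqrt p hp
      have h3 := hCD θ hθ
      have h4 := hD0 θ hθ
      rw [abs_div, abs_of_pos hCm0, div_le_iff₀ hCm0]
      nlinarith)
    (fun θ hθ p hp => by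
      have hle : ∀ u : J → ZMod p, (Φ θ p u / Cm) ^ 2 ≤ 1 := fun u => by
        have h1 := hC θ hθ p u
        have h3 := hCD θ hθ
        have h4 := hD0 θ hθ
        rw [← sq_abs, abs_div, abs_of_pos hCm0]
        have h5 : |Φ θ p u| / Cm ≤ 1 := by
          rw [div_le_one hCm0]
          linarith
        exact pow_le_one₀ (by positivity) h5
      unfold EM
      have hp0 : (0 : ℝ) < (p : ℝ) ^ Fintype.card J := by
        have : (0 : ℝ) < p := by exact_mod_cast hp.out.pos
        positivity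
      rw [div_le_one hp0]
      refine (sum_le_sum fun u _ => hle u).trans (le_of_eq ?_)
      rw [sum_const, card_univ, Fintype.card_fun, ZMod.card, nsmul_eq_mul, mul_one]
      push_cast
      rfl)
    (fun θ hθ p hp => by
      have h1 := hD θ hθ p
      have h3 := hCD θ hθ
      have h4 := hC1 θ hθ
      have h5 : EM p (fun u => Φ θ p u / Cm) = EM p (fun u => Φ θ p u) / Cm := by
        unfold EM
        rw [← sum_div]
        ring
      rw [h5, abs_div, abs_of_pos hCm0, div_le_iff₀ hCm0]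
      refine h1.trans ?_
      rw [one_div_mul_eq_div]
      exact div_le_div_of_nonneg_right (by linarith) (Real.sqrt_nonneg _))
  have hMer : (0 : ℝ) < Me := by exact_mod_cast (by omega : 0 < Me)
  obtain ⟨κ', hκ'⟩ : ∃ κ' : ℝ, κ' = κ / Me := ⟨_, rfl⟩
  have hκ'0 : 0 < κ' := by rw [hκ']; positivity
  obtain ⟨y₃, hy₃⟩ := exists_nat_gt ((N₀ : ℝ) ^ κ')
  obtain ⟨y₄, hy₄⟩ := eventually_atTop.1 (tendsto_natCast_atTop_atTop.eventually
    ((tendsto_rpow_atTop (by positivity : 0 < δ / 2)).eventually (eventually_ge_atTop Cm)))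
  refine ⟨κ', hκ'0, x₀ + y₃ + y₄ + 16, by omega, fun y M hy hM S x hw => ?_⟩
  have hM0 : (0 : ℝ) < M := by exact_mod_cast (by omega : 0 < M)
  by_cases hMN : N₀ ≤ M
  · obtain ⟨H, hH⟩ : ∃ H : ℕ, H = ⌊(M : ℝ) ^ κ⌋₊ := ⟨_, rfl⟩
    have hH1 : (H : ℝ) ≤ (M : ℝ) ^ κ := by
      rw [hH]
      exact Nat.floor_le (by positivity)
    have hH2 : (M : ℝ) ^ κ < H + 1 := by
      rw [hH]
      exact Nat.lt_floor_add_one _
    have h1 := heng S x H y (hw hMN H hH1) (by omega) W (fun n _ => hW n) hW1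
    refine le_trans ?_ h1
    have h2 : (S.filter fun t => ¬ ∀ T : ℕ, y ≤ T → (T : ℝ) ≤ (M : ℝ) ^ κ' → ∀ w ∈ W T, ∀ θ ∈ Q,
        |∑ p ∈ PR T, w p * Φ θ p (red p (x t))| ≤ (T : ℝ) ^ (1 / 2 + δ)) ⊆
        S.filter fun n => ¬ ∀ T : ℕ, y ≤ T → T ^ Me ≤ 2 * H + 1 → ∀ w ∈ W T,
          ∀ θ ∈ Q, |∑ p ∈ PR T, w p * (Φ θ p (red p (x n)) / Cm)| ≤ (T : ℝ) ^ (1 / 2 + δ / 2) := by
      intro t ht
      rw [mem_filter] at ht ⊢
      refine ⟨ht.1, fun h3 => ht.2 fun T hyT hT w hw θ hθ => ?_⟩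
      have h4 : ((T ^ Me : ℕ) : ℝ) ≤ (M : ℝ) ^ κ := by
        push_cast
        calc (T : ℝ) ^ Me ≤ ((M : ℝ) ^ κ') ^ Me := pow_le_pow_left₀ (by positivity) hT _
          _ = (M : ℝ) ^ κ := by
              rw [← Real.rpow_natCast, ← Real.rpow_mul hM0.le, hκ']
              congr 1
              field_simp
      have h5 : ((T ^ Me : ℕ) : ℝ) < ((2 * H + 1 : ℕ) : ℝ) + 1 := by
        have : (0 : ℝ) ≤ H := Nat.cast_nonneg _
        push_cast at h4 ⊢
        linarith
      have h6 : T ^ Me < 2 * H + 1 + 1 := by exact_mod_cast h5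
      have h7 := h3 T hyT (by omega) w hw θ hθ
      have h8 : ∑ p ∈ PR T, w p * (Φ θ p (red p (x t)) / Cm) = (∑ p ∈ PR T, w p * Φ θ p (red p (x t))) / Cm := by
        rw [sum_div]
        exact sum_congr rfl fun p _ => by ring
      rw [h8, abs_div, abs_of_pos hCm0, div_le_iff₀ hCm0] at h7
      refine h7.trans ?_
      have h9 := hy₄ T (by omega)
      have hT0 : (0 : ℝ) < T := by exact_mod_cast (by omega : 0 < T)
      have h10 : (T : ℝ) ^ (1 / 2 + δ) = (T : ℝ) ^ (1 / 2 + δ / 2) * (T : ℝ) ^ (δ / 2) := by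
        rw [← Real.rpow_add hT0]
        congr 1
        ring
      rw [h10]
      exact mul_le_mul_of_nonneg_left h9 (by positivity)
    exact_mod_cast card_le_card h2
  · have hy3 : ∀ T : ℕ, y ≤ T → ¬ (T : ℝ) ≤ (M : ℝ) ^ κ' := by
      intro T hT h1
      have h2 : (M : ℝ) ^ κ' ≤ (N₀ : ℝ) ^ κ' := by
        apply Real.rpow_le_rpow hM0.le _ hκ'0.le
        exact_mod_cast (by omega : M ≤ N₀)
      have h3 : (y₃ : ℝ) ≤ T := by exact_mod_cast (by omega : y₃ ≤ T)
      linarith
    rw [Finset.filter_false_of_mem (fun t _ => not_not.2 fun T hyT hT => absurd hT (hy3 T hyT)), card_empty, Nat.cast_zero]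
    positivity

end

end Pool.Agent.Run7.h712.HE
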