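import Pool.Agent.Run7.h712.HE.Mom

set_option autoImplicit false
set_option linter.unusedSectionVars false
set_option linter.unusedVariables false

/-! The functional on polynomials which is given by the moments of independent normal variables of the variances `1, 2, 3, ...`, and
the coefficients of the power series with given logarithmic coefficients. -/

namespace Pool.Agent.Run7.h712.HE

open Finset MvPolynomial
open Q282.CL (av av_pi av_const av_add av_sum)
open Q282MM (gm)

theorem gm_step (n : ℕ) : gm (n + 2) = (n + 1) * gm n := by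
  unfold gm
  by_cases h : Even n
  · rw [if_pos (h.add even_two), if_pos h]
    rcases n with _ | n
    · rfl
    · rw [show n + 1 + 2 - 1 = n + 2 by omega, show n + 1 - 1 = n by omega, Nat.doubleFactorial_add_two]
  · rw [if_neg h, if_neg, mul_zero]
    intro h'
    apply h
    have := (Nat.even_add' (m := n) (n := 2)).1 h'
    exact (Nat.even_add (m := n) (n := 2)).1 h' |>.2 even_two

theorem gv_zero (j : ℕ) : gv j 0 = 1 := by
  unfold gv
  rw [Run7.h3.ST.gm_zero]
  simp

theorem gv_step (j n : ℕ) : gv j (n + 1) = j * n * gv j (n - 1) := by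
  rcases n with _ | n
  · unfold gv
    rw [Run7.h3.ST.gm_odd (by decide)]
    simp
  · unfold gv
    rw [show n + 1 + 1 = n + 2 by ring, gm_step, Nat.add_sub_cancel, show (n + 2) / 2 = n / 2 + 1 by omega, pow_succ]
    push_cast
    ring

/-- the functional -/
noncomputable def LF : MvPolynomial ℕ ℝ →ₗ[ℝ] ℝ :=
  (basisMonomials ℕ ℝ).constr ℝ fun m => m.prod fun i a => gv (i + 1) a

theorem LF_mono (m : ℕ →₀ ℕ) : LF (monomial m 1) = m.prod fun i a => gv (i + 1) a := by
  unfold LF
  have h1 := (basisMonomials ℕ ℝ).constr_basis ℝ (fun m : ℕ →₀ ℕ => m.prod fun i a => gv (i + 1) a) m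
  rw [coe_basisMonomials] at h1
  exact h1

theorem LF_one : LF 1 = 1 := by
  have h1 := LF_mono 0
  simpa using h1

/-- integration by parts -/
theorem LF_X (i : ℕ) (Q : MvPolynomial ℕ ℝ) : LF (X i * Q) = (i + 1) * LF (pderiv i Q) := by
  have h1 : LF.comp (LinearMap.mulLeft ℝ (X i : MvPolynomial ℕ ℝ)) = ((i + 1 : ℝ)) • (LF.comp (pderiv i : Derivation ℝ (MvPolynomial ℕ ℝ) (MvPolynomial ℕ ℝ)).toLinearMap) := by
    refine (basisMonomials ℕ ℝ).ext fun m => ?_
    rw [coe_basisMonomials]
    simp only [LinearMap.comp_apply, LinearMap.mulLeft_apply, LinearMap.smul_apply, smul_eq_mul]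
    show LF (X i * monomial m 1) = (i + 1) * LF (pderiv i (monomial m 1))
    rw [pderiv_monomial]
    have e1 : (X i * monomial m 1 : MvPolynomial ℕ ℝ) = monomial (m + Finsupp.single i 1) 1 := by
      rw [X, monomial_mul, add_comm, one_mul]
    have e2 : (monomial (m - Finsupp.single i 1) (1 * (m i : ℝ)) : MvPolynomial ℕ ℝ) = (m i : ℝ) • monomial (m - Finsupp.single i 1) 1 := by
      rw [smul_monomial, one_mul, smul_eq_mul, mul_one]
    rw [e1, e2, map_smul, LF_mono, LF_mono, smul_eq_mul]
    -- the products over a common finite set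
    have hs : ∀ m' : ℕ →₀ ℕ, m'.support ⊆ insert i m.support → (m'.prod fun i a => gv (i + 1) a) = ∏ k ∈ insert i m.support, gv (k + 1) (m' k) := by
      intro m' hm'
      exact Finsupp.prod_of_support_subset m' hm' _ fun k _ => gv_zero _
    rw [hs _ (by
      refine Finsupp.support_add.trans (union_subset (subset_insert _ _) ?_)
      exact Finsupp.support_single_subset.trans (singleton_subset_iff.2 (mem_insert_self _ _))),
      hs _ ((Finsupp.support_tsub).trans (subset_insert _ _)), ← mul_prod_erase _ _ (mem_insert_self i m.support),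
      ← mul_prod_erase _ _ (mem_insert_self i m.support)]
    have e3 : ∏ k ∈ (insert i m.support).erase i, gv (k + 1) ((m + Finsupp.single i 1 : ℕ →₀ ℕ) k) =
        ∏ k ∈ (insert i m.support).erase i, gv (k + 1) ((m - Finsupp.single i 1 : ℕ →₀ ℕ) k) := by
      refine prod_congr rfl fun k hk => ?_
      have hki : i ≠ k := fun h => (mem_erase.1 hk).1 h.symm
      rw [Finsupp.add_apply, Finsupp.tsub_apply, Finsupp.single_eq_of_ne' hki, add_zero, Nat.sub_zero]
    rw [e3, Finsupp.add_apply, Finsupp.tsub_apply, Finsupp.single_eq_same, gv_step]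
    push_cast
    ring
  have h2 := congrArg (fun L : MvPolynomial ℕ ℝ →ₗ[ℝ] ℝ => L Q) h1
  simpa using h2

/-! ### the coefficients -/

/-- the coefficients of `exp (∑ t_j T ^ j / j)`: `c_0 = 1` and `(k + 1) c_{k+1} = ∑_{j ≤ k} t_{j+1} c_{k-j}` -/
noncomputable def coe (t : ℕ → ℝ) : ℕ → ℝ
  | 0 => 1
  | k + 1 => (∑ j : Fin (k + 1), t j * coe t (k - j)) / (k + 1)

/-- the coefficients as polynomials in the centred variables -/
noncomputable def AK : ℕ → MvPolynomial ℕ ℝ
  | 0 => 1
  | k + 1 => C (1 / ((k : ℝ) + 1)) * ∑ j : Fin (k + 1), (X (j : ℕ) + C (eta (j + 1))) * AK (k - j)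

theorem AK_zero : AK 0 = 1 := by
  rw [AK]

theorem AK_succ (k : ℕ) : C ((k : ℝ) + 1) * AK (k + 1) = ∑ j ∈ range (k + 1), (X j + C (eta (j + 1))) * AK (k - j) := by
  rw [AK, ← mul_assoc, ← C_mul, mul_one_div_cancel (by positivity), C_1, one_mul, Finset.sum_range]

theorem eval_AK (t : ℕ → ℝ) (k : ℕ) : eval (fun i => t i - eta (i + 1)) (AK k) = coe t k := by
  induction k using Nat.strong_induction_on with
  | _ k ih =>
    rcases k with _ | k
    · rw [AK, coe]
      simp
    · rw [AK, coe, map_mul, eval_C, map_sum, one_div, inv_mul_eq_div]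
      congr 1
      refine sum_congr rfl fun j _ => ?_
      rw [map_mul, map_add, eval_X, eval_C, ih (k - j) (by omega)]
      ring

theorem pderiv_AK (i k : ℕ) : pderiv i (AK k) = if i < k then C (1 / ((i : ℝ) + 1)) * AK (k - 1 - i) else 0 := by
  induction k using Nat.strong_induction_on with
  | _ k ih =>
    rcases k with _ | k
    · rw [AK_zero, if_neg (by omega)]
      exact pderiv_one
    · have h1 := congrArg (pderiv i) (AK_succ k)
      rw [pderiv_C_mul, map_sum] at h1
      have h2 : ∀ j ∈ range (k + 1), pderiv i ((X j + C (eta (j + 1))) * AK (k - j) : MvPolynomial ℕ ℝ) =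
          (if j = i then AK (k - i) else 0) + (X j + C (eta (j + 1))) * (if i < k - j then C (1 / ((i : ℝ) + 1)) * AK (k - j - 1 - i) else 0) := by
        intro j hj
        rw [mem_range] at hj
        rw [pderiv_mul, ih (k - j) (by omega), map_add, pderiv_C, add_zero]
        congr 1
        by_cases hij : j = i
        · rw [if_pos hij, hij, pderiv_X_self, one_mul]
        · rw [if_neg hij, pderiv_X_of_ne hij, zero_mul]
      rw [sum_congr rfl h2, sum_add_distrib, sum_ite_eq'] at h1
      have hk0 : ((k : ℝ) + 1) ≠ 0 := by positivity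
      have hi0 : ((i : ℝ) + 1) ≠ 0 := by positivity
      by_cases hik : i < k + 1
      · rw [if_pos (mem_range.2 hik)] at h1
        rw [if_pos hik, show k + 1 - 1 - i = k - i by omega]
        -- the second sum
        have h3 : ∑ j ∈ range (k + 1), (X j + C (eta (j + 1))) * (if i < k - j then C (1 / ((i : ℝ) + 1)) * AK (k - j - 1 - i) else 0) =
            C (1 / ((i : ℝ) + 1)) * (C (((k - i : ℕ) : ℝ)) * AK (k - i)) := by
          rcases Nat.lt_or_ge i k with hlt | hge
          · obtain ⟨n, hn⟩ : ∃ n, k - i = n + 1 := ⟨k - i - 1, by omega⟩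
            rw [hn]
            push_cast
            rw [AK_succ, mul_sum]
            have hsub : range (n + 1) ⊆ range (k + 1) := range_subset_range.2 (by omega)
            rw [← sum_subset hsub]
            · refine sum_congr rfl fun j hj => ?_
              rw [mem_range] at hj
              rw [if_pos (by omega), show k - j - 1 - i = n - j by omega]
              ring
            · intro j _ hj
              rw [mem_range] at hj
              rw [if_neg (by omega), mul_zero]
          · have : i = k := by omega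
            subst this
            rw [Nat.sub_self]
            simp only [Nat.cast_zero, C_0, zero_mul, mul_zero]
            refine sum_eq_zero fun j _ => ?_
            rw [if_neg (by omega), mul_zero]
        rw [h3] at h1
        have h4 : (C ((k : ℝ) + 1) * pderiv i (AK (k + 1)) : MvPolynomial ℕ ℝ) = C ((k : ℝ) + 1) * (C (1 / ((i : ℝ) + 1)) * AK (k - i)) := by
          rw [h1]
          have h5 : (AK (k - i) + C (1 / ((i : ℝ) + 1)) * (C (((k - i : ℕ) : ℝ)) * AK (k - i)) : MvPolynomial ℕ ℝ) =
              C (1 + 1 / ((i : ℝ) + 1) * ((k - i : ℕ) : ℝ)) * AK (k - i) := by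
            rw [C_add, C_1, C_mul]
            ring
          rw [h5, ← mul_assoc, ← C_mul]
          congr 2
          rw [Nat.cast_sub (by omega)]
          field_simp
          ring
        have h5 := congrArg (fun P : MvPolynomial ℕ ℝ => C (1 / ((k : ℝ) + 1)) * P) h4
        simp only [← mul_assoc, ← C_mul, one_div_mul_cancel hk0, C_1, one_mul] at h5
        exact h5
      · rw [if_neg (fun h => hik (mem_range.1 h)), zero_add] at h1
        rw [if_neg hik]
        have h3 : ∑ j ∈ range (k + 1), (X j + C (eta (j + 1))) * (if i < k - j then C (1 / ((i : ℝ) + 1)) * AK (k - j - 1 - i) else 0) =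
            (0 : MvPolynomial ℕ ℝ) := by
          refine sum_eq_zero fun j _ => ?_
          rw [if_neg (by omega), mul_zero]
        rw [h3] at h1
        have h5 := congrArg (fun P : MvPolynomial ℕ ℝ => C (1 / ((k : ℝ) + 1)) * P) h1
        simp only [← mul_assoc, ← C_mul, one_div_mul_cancel hk0, C_1, one_mul, mul_zero] at h5
        exact h5

/-! ### the weight -/

/-- the weight of a monomial -/
def wt (m : ℕ →₀ ℕ) : ℕ := m.sum fun i a => (i + 1) * a

theorem wt_add (m m' : ℕ →₀ ℕ) : wt (m + m') = wt m + wt m' := by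
  unfold wt
  exact Finsupp.sum_add_index' (fun _ => by simp) (fun _ _ _ => by ring)

/-- polynomials of weight at most `n` -/
noncomputable def WS (n : ℕ) : Submodule ℝ (MvPolynomial ℕ ℝ) := Submodule.span ℝ {Q | ∃ m, wt m ≤ n ∧ Q = monomial m 1}

theorem WS.mono {n n' : ℕ} (h : n ≤ n') : WS n ≤ WS n' := by
  refine Submodule.span_mono ?_
  rintro Q ⟨m, hm, rfl⟩
  exact ⟨m, hm.trans h, rfl⟩

theorem WS.mul {n n' : ℕ} {Q Q' : MvPolynomial ℕ ℝ} (h : Q ∈ WS n) (h' : Q' ∈ WS n') : Q * Q' ∈ WS (n + n') := by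
  have h1 : WS n * WS n' ≤ WS (n + n') := by
    unfold WS
    rw [Submodule.span_mul_span]
    refine Submodule.span_mono ?_
    rintro _ ⟨_, ⟨m, hm, rfl⟩, _, ⟨m', hm', rfl⟩, rfl⟩
    refine ⟨m + m', by rw [wt_add]; omega, ?_⟩
    simp only [monomial_mul, one_mul]
  exact h1 (Submodule.mul_mem_mul h h')

theorem WS.one (n : ℕ) : (1 : MvPolynomial ℕ ℝ) ∈ WS n := Submodule.subset_span ⟨0, by simp [wt], by simp⟩

theorem WS.C (n : ℕ) (a : ℝ) : (C a : MvPolynomial ℕ ℝ) ∈ WS n := by
  have h1 : (MvPolynomial.C a : MvPolynomial ℕ ℝ) = a • 1 := by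
    rw [smul_eq_C_mul, mul_one]
  rw [h1]
  exact Submodule.smul_mem _ _ (WS.one n)

theorem WS.X (i : ℕ) : (X i : MvPolynomial ℕ ℝ) ∈ WS (i + 1) :=
  Submodule.subset_span ⟨Finsupp.single i 1, by simp [wt], rfl⟩

theorem WS.AK (k : ℕ) : AK k ∈ WS k := by
  induction k using Nat.strong_induction_on with
  | _ k ih =>
    rcases k with _ | k
    · rw [AK_zero]
      exact WS.one 0
    · rw [Pool.Agent.Run7.h712.HE.AK]
      have h1 := WS.mul (WS.C 0 (1 / ((k : ℝ) + 1))) (n' := k + 1) (Q' := ∑ j : Fin (k + 1), (MvPolynomial.X (j : ℕ) + MvPolynomial.C (eta (j + 1))) * Pool.Agent.Run7.h712.HE.AK (k - j)) ?_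
      · rwa [zero_add] at h1
      · refine Submodule.sum_mem _ fun j _ => ?_
        have h2 := WS.mul (Submodule.add_mem _ (WS.X (j : ℕ)) (WS.C ((j : ℕ) + 1) (eta (j + 1)))) (ih (k - j) (by omega))
        have h3 : (j : ℕ) + 1 + (k - j) = k + 1 := by omega
        rwa [h3] at h2

theorem WS.prod {α : Type} [DecidableEq α] (R : Finset α) (n : α → ℕ) (Q : α → MvPolynomial ℕ ℝ) (h : ∀ i ∈ R, Q i ∈ WS (n i)) :
    ∏ i ∈ R, Q i ∈ WS (∑ i ∈ R, n i) := by
  induction R using Finset.induction_on with
  | empty => simpa using WS.one 0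
  | insert i R hi ih =>
    rw [prod_insert hi, sum_insert hi]
    exact WS.mul (h i (mem_insert_self _ _)) (ih fun k hk => h k (mem_insert_of_mem hk))

/-- **the means of the polynomials of weight at most `d + 1` in the normalised character sums** -/
theorem av_WS (d : ℕ) (Q : MvPolynomial ℕ ℝ) (hQ : Q ∈ WS (d + 1)) :
    Nr (fun p _ => av (fun u : Fin (d + 1) → ZMod p => eval (fun i => ta p (i + 1) u) Q)) (LF Q) := by
  classical
  induction hQ using Submodule.span_induction with
  | mem Q hQ =>
    obtain ⟨m, hm, rfl⟩ := hQ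
    rw [LF_mono]
    refine (ta_joint d m.support (fun i => m i) hm).congr fun p hp h2 => ?_
    show av (fun u : Fin (d + 1) → ZMod p => ∏ i ∈ m.support, ta p (i + 1) u ^ m i) = av (fun u : Fin (d + 1) → ZMod p => eval (fun i => ta p (i + 1) u) (monomial m 1))
    congr 1
    funext u
    rw [eval_monomial, one_mul]
    rfl
  | zero =>
    rw [map_zero]
    refine (Nr.const 0).congr fun p hp h2 => ?_
    have : Nonempty (Fin (d + 1) → ZMod p) := ⟨0⟩
    show (0 : ℝ) = av (fun u : Fin (d + 1) → ZMod p => eval (fun i => ta p (i + 1) u) 0)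
    simp only [map_zero]
    exact (av_const (α := Fin (d + 1) → ZMod p) (0 : ℝ)).symm
  | add Q Q' _ _ h1 h2 =>
    rw [map_add]
    refine (h1.add h2).congr fun p hp h3 => ?_
    show av (fun u : Fin (d + 1) → ZMod p => eval (fun i => ta p (i + 1) u) Q) + av (fun u : Fin (d + 1) → ZMod p => eval (fun i => ta p (i + 1) u) Q') =
      av (fun u : Fin (d + 1) → ZMod p => eval (fun i => ta p (i + 1) u) (Q + Q'))
    rw [← av_add]
    simp only [map_add]
  | smul a Q _ h1 =>
    rw [map_smul, smul_eq_mul]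
    refine (h1.smul a).congr fun p hp h3 => ?_
    show a * av (fun u : Fin (d + 1) → ZMod p => eval (fun i => ta p (i + 1) u) Q) = av (fun u : Fin (d + 1) → ZMod p => eval (fun i => ta p (i + 1) u) (a • Q))
    rw [← Q282.CL.av_mul]
    simp only [smul_eval]

/-- polynomials are Lipschitz continuous on bounded sets -/
theorem lip (B : ℕ → ℝ) (Q : MvPolynomial ℕ ℝ) : ∃ M : ℝ, 0 ≤ M ∧ ∀ (s t : ℕ → ℝ) (δ : ℝ), 0 ≤ δ → (∀ i, |s i| ≤ B i) → (∀ i, |t i| ≤ B i) →
    (∀ i, |s i - t i| ≤ B i * δ) → |eval s Q| ≤ M ∧ |eval t Q| ≤ M ∧ |eval s Q - eval t Q| ≤ M * δ := by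
  induction Q using MvPolynomial.induction_on with
  | C a =>
    refine ⟨|a|, abs_nonneg _, fun s t δ hδ _ _ _ => ?_⟩
    rw [eval_C, eval_C, sub_self, abs_zero]
    exact ⟨le_rfl, le_rfl, by positivity⟩
  | add P Q hP hQ =>
    obtain ⟨M, hM, hP⟩ := hP
    obtain ⟨N, hN, hQ⟩ := hQ
    refine ⟨M + N, by positivity, fun s t δ hδ h1 h2 h3 => ?_⟩
    obtain ⟨p1, p2, p3⟩ := hP s t δ hδ h1 h2 h3
    obtain ⟨q1, q2, q3⟩ := hQ s t δ hδ h1 h2 h3
    rw [map_add, map_add]
    refine ⟨(abs_add_le _ _).trans (add_le_add p1 q1), (abs_add_le _ _).trans (add_le_add p2 q2), ?_⟩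
    rw [add_sub_add_comm, add_mul]
    exact (abs_add_le _ _).trans (add_le_add p3 q3)
  | mul_X P i hP =>
    obtain ⟨M, hM, hP⟩ := hP
    refine ⟨M * |B i| + M * |B i|, by positivity, fun s t δ hδ h1 h2 h3 => ?_⟩
    obtain ⟨p1, p2, p3⟩ := hP s t δ hδ h1 h2 h3
    rw [map_mul, map_mul, eval_X, eval_X]
    have hs := (h1 i).trans (le_abs_self _)
    have ht := (h2 i).trans (le_abs_self _)
    have hst : |s i - t i| ≤ |B i| * δ := (h3 i).trans (mul_le_mul_of_nonneg_right (le_abs_self _) hδ)
    have hMB : 0 ≤ M * |B i| := by positivity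
    have a1 : |eval s P * s i| ≤ M * |B i| := by
      rw [abs_mul]
      exact mul_le_mul p1 hs (abs_nonneg _) hM
    have a2 : |eval t P * t i| ≤ M * |B i| := by
      rw [abs_mul]
      exact mul_le_mul p2 ht (abs_nonneg _) hM
    refine ⟨by linarith, by linarith, ?_⟩
    have h4 : eval s P * s i - eval t P * t i = (eval s P - eval t P) * s i + eval t P * (s i - t i) := by ring
    rw [h4]
    refine (abs_add_le _ _).trans ?_
    rw [abs_mul, abs_mul]
    have a3 : |eval s P - eval t P| * |s i| ≤ (M * δ) * |B i| := mul_le_mul p3 hs (abs_nonneg _) (by positivity)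
    have a4 : |eval t P| * |s i - t i| ≤ M * (|B i| * δ) := mul_le_mul p2 hst (abs_nonneg _) hM
    linarith

end Pool.Agent.Run7.h712.HE
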