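import Mathlib

set_option autoImplicit false
set_option linter.unusedSectionVars false
set_option linter.unusedVariables false

/-! The denominator formula for the symplectic group. -/

namespace Pool.Agent.Run7.h712.HE

open Finset Polynomial

section
variable {K : Type} [Field K]

/-- the polynomials with `(1 / x - x) u_j (x + 1 / x) = x ^ (- j - 1) - x ^ (j + 1)` -/
noncomputable def uq (K : Type) [Field K] : ℕ → K[X]
  | 0 => 1
  | 1 => X
  | j + 2 => X * uq K (j + 1) - uq K j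

theorem uq_monic (j : ℕ) : ((uq K j).natDegree = j ∧ (uq K j).Monic) ∧ ((uq K (j + 1)).natDegree = j + 1 ∧ (uq K (j + 1)).Monic) := by
  induction j with
  | zero =>
    refine ⟨⟨?_, ?_⟩, ?_, ?_⟩
    · rw [uq, natDegree_one]
    · rw [uq]
      exact monic_one
    · rw [uq, natDegree_X]
    · rw [uq]
      exact monic_X
  | succ j ih =>
    refine ⟨ih.2, ?_⟩
    have h1 : (X * uq K (j + 1)).natDegree = j + 2 := by
      rw [natDegree_X_mul ih.2.2.ne_zero, ih.2.1]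
    have h2 : (X * uq K (j + 1)).Monic := monic_X.mul ih.2.2
    have h3 : (uq K j).degree < (X * uq K (j + 1)).degree := by
      rw [degree_eq_natDegree ih.1.2.ne_zero, degree_eq_natDegree h2.ne_zero, h1, ih.1.1]
      exact_mod_cast (by omega : j < j + 2)
    have e : uq K (j + 1 + 1) = X * uq K (j + 1) - uq K j := by rw [uq]
    rw [e]
    refine ⟨?_, ?_⟩
    · rw [natDegree_sub_eq_left_of_natDegree_lt, h1]
      rw [h1, ih.1.1]
      omega
    · exact h2.sub_of_left h3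

theorem uq_eval {x : K} (hx : x ≠ 0) (j : ℕ) : (x⁻¹ - x) * (uq K j).eval (x + x⁻¹) = x⁻¹ ^ (j + 1) - x ^ (j + 1) ∧
    (x⁻¹ - x) * (uq K (j + 1)).eval (x + x⁻¹) = x⁻¹ ^ (j + 2) - x ^ (j + 2) := by
  induction j with
  | zero =>
    refine ⟨?_, ?_⟩
    · rw [uq, eval_one]
      ring
    · rw [uq, eval_X]
      ring
  | succ j ih =>
    refine ⟨ih.2, ?_⟩
    rw [show uq K (j + 1 + 1) = X * uq K (j + 1) - uq K j by rw [uq], eval_sub, eval_mul, eval_X]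
    have h1 : (x⁻¹ - x) * ((x + x⁻¹) * (uq K (j + 1)).eval (x + x⁻¹) - (uq K j).eval (x + x⁻¹)) =
        (x + x⁻¹) * ((x⁻¹ - x) * (uq K (j + 1)).eval (x + x⁻¹)) - (x⁻¹ - x) * (uq K j).eval (x + x⁻¹) := by ring
    rw [h1, ih.1, ih.2]
    have h2 : x * x⁻¹ = 1 := mul_inv_cancel₀ hx
    have h3 : x * x⁻¹ ^ (j + 2) = x⁻¹ ^ (j + 1) := by
      rw [pow_succ x⁻¹ (j + 1)]
      calc x * (x⁻¹ ^ (j + 1) * x⁻¹) = x⁻¹ ^ (j + 1) * (x * x⁻¹) := by ring
        _ = _ := by rw [h2, mul_one]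
    have h4 : x⁻¹ * x ^ (j + 2) = x ^ (j + 1) := by
      rw [pow_succ x (j + 1)]
      calc x⁻¹ * (x ^ (j + 1) * x) = x ^ (j + 1) * (x * x⁻¹) := by ring
        _ = _ := by rw [h2, mul_one]
    have h5 : (x + x⁻¹) * (x⁻¹ ^ (j + 2) - x ^ (j + 2)) =
        x * x⁻¹ ^ (j + 2) - x ^ (j + 3) + (x⁻¹ ^ (j + 3) - x⁻¹ * x ^ (j + 2)) := by ring
    rw [h5, h3, h4]
    ring

theorem entry_eq {x : K} (hx : x ≠ 0) (n i j : ℕ) (hj : j ≤ n + i) :
    x ^ (n + i - j) - x ^ (n + i + j + 2) = (x ^ (n + i) * (1 - x ^ 2)) * (uq K j).eval (x + x⁻¹) := by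
  have h1 := (uq_eval hx j).1
  have h2 : x * x⁻¹ = 1 := mul_inv_cancel₀ hx
  have h3 : (1 - x ^ 2) = x * (x⁻¹ - x) := by
    rw [mul_sub, h2]
    ring
  have h4 : x ^ (n + i) * (1 - x ^ 2) * (uq K j).eval (x + x⁻¹) = x ^ (n + i) * x * ((x⁻¹ - x) * (uq K j).eval (x + x⁻¹)) := by
    rw [h3]
    ring
  rw [h4, h1, mul_sub]
  congr 1
  · obtain ⟨m, hm⟩ : ∃ m, n + i = m + j := ⟨n + i - j, by omega⟩
    rw [hm, Nat.add_sub_cancel]
    calc x ^ m = x ^ m * (x * x⁻¹) ^ (j + 1) := by rw [h2, one_pow, mul_one]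
      _ = _ := by
        rw [mul_pow]
        ring
  · ring

theorem inv_prod {n : ℕ} (f : Fin n → K) : ∏ i, ∏ j ∈ Ioi i, (f i * f j) = ∏ i, f i ^ (n - 1) := by
  have h1 : ∏ i, ∏ j ∈ Ioi i, (f i * f j) = (∏ i, ∏ j ∈ Ioi i, f i) * ∏ i, ∏ j ∈ Ioi i, f j := by
    rw [← prod_mul_distrib]
    exact prod_congr rfl fun i _ => prod_mul_distrib
  have h2 : ∏ i : Fin n, ∏ j ∈ Ioi i, f j = ∏ j : Fin n, ∏ i ∈ Iio j, f j := by
    refine prod_comm' fun i j => ?_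
    simp
  rw [h1, h2, ← prod_mul_distrib]
  refine prod_congr rfl fun i _ => ?_
  rw [prod_const, prod_const, Fin.card_Ioi, Fin.card_Iio, ← pow_add]
  congr 1
  have := i.2
  omega

/-- **the denominator formula** -/
theorem det_field {n : ℕ} (x : Fin n → K) (hx : ∀ i, x i ≠ 0) :
    (Matrix.of fun i j : Fin n => x i ^ (n + (i : ℕ) - (j : ℕ)) - x i ^ (n + (i : ℕ) + (j : ℕ) + 2)).det =
      (∏ i : Fin n, x i ^ ((i : ℕ) + 1) * (1 - x i ^ 2)) * ∏ i, ∏ j ∈ Ioi i, (x j - x i) * (x i * x j - 1) := by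
  have h1 : (Matrix.of fun i j : Fin n => x i ^ (n + (i : ℕ) - (j : ℕ)) - x i ^ (n + (i : ℕ) + (j : ℕ) + 2)) =
      Matrix.of fun i j : Fin n => (x i ^ (n + (i : ℕ)) * (1 - x i ^ 2)) * (Matrix.of fun i j : Fin n => (uq K j).eval (x i + (x i)⁻¹)) i j := by
    ext i j
    rw [Matrix.of_apply, Matrix.of_apply, Matrix.of_apply]
    exact entry_eq (hx i) n i j (by have := j.2; omega)
  rw [h1, Matrix.det_mul_column, ← Matrix.det_eval_matrixOfPolynomials_eq_det_vandermonde (fun i => x i + (x i)⁻¹) (fun j => uq K j)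
    (fun j => (uq_monic (j : ℕ)).1.1) (fun j => (uq_monic (j : ℕ)).1.2), Matrix.det_vandermonde]
  have h2 : ∀ i j : Fin n, (x j + (x j)⁻¹ - (x i + (x i)⁻¹)) = ((x j - x i) * (x i * x j - 1)) * ((x i)⁻¹ * (x j)⁻¹) := by
    intro i j
    have hi := hx i
    have hj := hx j
    field_simp
    ring
  have h6 : (∏ i, ∏ j ∈ Ioi i, (x j + (x j)⁻¹ - (x i + (x i)⁻¹))) =
      (∏ i, ∏ j ∈ Ioi i, ((x j - x i) * (x i * x j - 1))) * ∏ i, ∏ j ∈ Ioi i, ((x i)⁻¹ * (x j)⁻¹) := by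
    rw [← prod_mul_distrib]
    refine prod_congr rfl fun i _ => ?_
    rw [← prod_mul_distrib]
    exact prod_congr rfl fun j _ => h2 i j
  rw [h6]
  have h3 : (∏ i, ∏ j ∈ Ioi i, ((x i)⁻¹ * (x j)⁻¹)) = ∏ i, (x i)⁻¹ ^ (n - 1) := inv_prod fun i => (x i)⁻¹
  rw [h3, mul_comm (∏ i, ∏ j ∈ Ioi i, ((x j - x i) * (x i * x j - 1))), ← mul_assoc, ← prod_mul_distrib]
  congr 1
  refine prod_congr rfl fun i _ => ?_
  have h2 : x i * (x i)⁻¹ = 1 := mul_inv_cancel₀ (hx i)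
  have hi := i.2
  obtain ⟨m, hm⟩ : ∃ m, n = m + 1 := ⟨n - 1, by omega⟩
  have h5 : n + (i : ℕ) = (i : ℕ) + 1 + (n - 1) := by omega
  calc x i ^ (n + (i : ℕ)) * (1 - x i ^ 2) * (x i)⁻¹ ^ (n - 1) = x i ^ ((i : ℕ) + 1) * (1 - x i ^ 2) * (x i * (x i)⁻¹) ^ (n - 1) := by
        rw [h5, pow_add, mul_pow]
        ring
    _ = _ := by rw [h2, one_pow, mul_one]

end

/-- the denominator formula in a domain -/
theorem det_domain {R : Type} [CommRing R] [IsDomain R] {n : ℕ} (x : Fin n → R) (hx : ∀ i, x i ≠ 0) :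
    (Matrix.of fun i j : Fin n => x i ^ (n + (i : ℕ) - (j : ℕ)) - x i ^ (n + (i : ℕ) + (j : ℕ) + 2)).det =
      (∏ i : Fin n, x i ^ ((i : ℕ) + 1) * (1 - x i ^ 2)) * ∏ i, ∏ j ∈ Ioi i, (x j - x i) * (x i * x j - 1) := by
  have hinj : Function.Injective (algebraMap R (FractionRing R)) := IsFractionRing.injective R (FractionRing R)
  apply hinj
  have h1 := det_field (fun i => algebraMap R (FractionRing R) (x i)) fun i h => hx i (hinj (h.trans (map_zero _).symm))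
  rw [RingHom.map_det, map_mul, map_prod, map_prod]
  simp only [map_prod, map_mul, map_sub, map_pow, map_one]
  rw [← h1]
  congr 1
  ext i j
  simp

end Pool.Agent.Run7.h712.HE
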