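import Pool.Agent.Run7.h712.HE.Gra
import Pool.Agent.Run7.h712.HE.Weyl

set_option autoImplicit false
set_option linter.unusedSectionVars false
set_option linter.unusedVariables false

/-! The generating series of the numbers of multigraphs with given degrees. -/

namespace Pool.Agent.Run7.h712.HE

open Finset

variable {n : ℕ}

theorem prod_sym2 {M : Type} [CommMonoid M] (f : Sym2 (Fin n) → M) :
    ∏ z, f z = (∏ i, f s(i, i)) * ∏ i, ∏ j ∈ Ioi i, f s(i, j) := by
  have h1 : ∏ z, f z = ∏ i : Fin n, ∏ j ∈ Ici i, f s(i, j) := by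
    rw [prod_sigma']
    symm
    refine prod_bij (fun q _ => s(q.1, q.2)) (fun q _ => mem_univ _) (fun q hq q' hq' h => ?_) (fun z _ => ?_) (fun q _ => rfl)
    · rw [mem_sigma, mem_Ici] at hq hq'
      rw [Sym2.eq_iff] at h
      rcases h with h | h
      · exact Sigma.ext h.1 (heq_of_eq h.2)
      · have h3 : q.1 = q.2 := le_antisymm hq.2 (by rw [h.1, h.2]; exact hq'.2)
        have h4 : q'.1 = q'.2 := by rw [← h.1, ← h.2, h3]
        refine Sigma.ext ?_ (heq_of_eq ?_)
        · rw [h3, h.2]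
        · rw [← h3, h.1]
    · induction z using Sym2.ind with
      | _ a b =>
        rcases le_total a b with h | h
        · exact ⟨⟨a, b⟩, by rw [mem_sigma, mem_Ici]; exact ⟨mem_univ _, h⟩, rfl⟩
        · exact ⟨⟨b, a⟩, by rw [mem_sigma, mem_Ici]; exact ⟨mem_univ _, h⟩, Sym2.eq_swap⟩
  rw [h1, ← prod_mul_distrib]
  refine prod_congr rfl fun i _ => ?_
  have h2 : Ici i = insert i (Ioi i) := by
    ext j
    rw [mem_Ici, mem_insert, mem_Ioi]
    constructor
    · intro h
      rcases eq_or_lt_of_le h with h | h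
      · exact Or.inl h.symm
      · exact Or.inr h
    · rintro (h | h)
      · exact h.ge
      · exact h.le
  rw [h2, prod_insert (by simp)]

/-- the degrees of an edge -/
noncomputable def wz (z : Sym2 (Fin n)) : Fin n →₀ ℕ := Finsupp.equivFunOnFinite.symm fun i => deg (Pi.single z 1) i

theorem wz_apply (a b i : Fin n) : wz s(a, b) i = dz a b i := by
  unfold wz
  rw [Finsupp.equivFunOnFinite_symm_apply_apply, deg_single, one_mul]

theorem wz_ne (z : Sym2 (Fin n)) : wz z ≠ 0 := by
  induction z using Sym2.ind with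
  | _ a b =>
    intro h
    have h1 := congrArg (fun f : Fin n →₀ ℕ => f a) h
    simp only [wz_apply, Finsupp.zero_apply] at h1
    unfold dz at h1
    rw [if_pos rfl] at h1
    omega

theorem deg_sum (e : Sym2 (Fin n) → ℕ) (i : Fin n) : deg e i = ∑ z, e z * wz z i := by
  have h1 : e = ∑ z, Pi.single z (e z) := (Finset.univ_sum_single e).symm
  have h2 : ∀ S : Finset (Sym2 (Fin n)), deg (∑ z ∈ S, Pi.single z (e z) : Sym2 (Fin n) → ℕ) i = ∑ z ∈ S, e z * wz z i := by
    intro S
    induction S using Finset.induction_on with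
    | empty =>
      rw [sum_empty, sum_empty]
      unfold deg
      simp
    | insert z S hz ih =>
      rw [sum_insert hz, sum_insert hz, deg_add, ih]
      congr 1
      unfold wz
      rw [Finsupp.equivFunOnFinite_symm_apply_apply]
      induction z using Sym2.ind with
      | _ a b => rw [deg_single, deg_single, one_mul]
  conv_lhs => rw [h1]
  exact h2 univ

open Classical in
/-- the geometric series -/
noncomputable def geo (w : Fin n →₀ ℕ) : MvPowerSeries (Fin n) ℝ := fun l => if ∃ m : ℕ, l = m • w then 1 else 0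

open Classical in
theorem coeff_geo (w l : Fin n →₀ ℕ) : MvPowerSeries.coeff l (geo w) = if ∃ m : ℕ, l = m • w then 1 else 0 := rfl

theorem geo_mul {w : Fin n →₀ ℕ} (hw : w ≠ 0) : (1 - MvPowerSeries.monomial w (1 : ℝ)) * geo w = 1 := by
  classical
  ext l
  rw [sub_mul, one_mul, map_sub, MvPowerSeries.coeff_monomial_mul, coeff_geo, MvPowerSeries.coeff_one]
  by_cases h0 : l = 0
  · rw [if_pos ⟨0, by rw [h0, zero_smul]⟩, if_pos h0, if_neg, sub_zero]
    intro h
    rw [h0] at h
    exact hw (le_antisymm h zero_le)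
  · rw [if_neg h0]
    by_cases h1 : ∃ m : ℕ, l = m • w
    · obtain ⟨m, hm⟩ := h1
      obtain ⟨k, rfl⟩ : ∃ k, m = k + 1 := ⟨m - 1, by
        have : m ≠ 0 := by
          rintro rfl
          exact h0 (by rw [hm, zero_smul])
        omega⟩
      have h2 : w ≤ l := by
        rw [hm, succ_nsmul]
        exact le_add_left le_rfl
      rw [if_pos ⟨_, hm⟩, if_pos h2, coeff_geo, if_pos ⟨k, by rw [hm, succ_nsmul, add_tsub_cancel_right]⟩]
      ring
    · rw [if_neg h1]
      by_cases h2 : w ≤ l
      · rw [if_pos h2, coeff_geo, if_neg]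
        · ring
        · rintro ⟨k, hk⟩
          exact h1 ⟨k + 1, by rw [succ_nsmul, ← hk, tsub_add_cancel_of_le h2]⟩
      · rw [if_neg h2, sub_zero]

/-- the generating series of the numbers of multigraphs -/
noncomputable def GS (n : ℕ) : MvPowerSeries (Fin n) ℝ := fun k => (gr (fun i => k i) : ℝ)

theorem coeff_GS (k : Fin n →₀ ℕ) : MvPowerSeries.coeff k (GS n) = (gr (fun i => k i) : ℝ) := rfl

theorem GS_eq : GS n = ∏ z : Sym2 (Fin n), geo (wz z) := by
  classical
  ext k
  rw [MvPowerSeries.coeff_prod, coeff_GS]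
  simp only [coeff_geo]
  have h1 : ∀ l : Sym2 (Fin n) →₀ (Fin n →₀ ℕ), ∏ z, (if ∃ m : ℕ, l z = m • wz z then (1 : ℝ) else 0) =
      if ∀ z, ∃ m : ℕ, l z = m • wz z then 1 else 0 := by
    intro l
    by_cases h : ∀ z, ∃ m : ℕ, l z = m • wz z
    · rw [if_pos h, prod_eq_one]
      intro z _
      rw [if_pos (h z)]
    · rw [if_neg h]
      push Not at h
      obtain ⟨z, hz⟩ := h
      refine prod_eq_zero (mem_univ z) ?_
      rw [if_neg]
      rintro ⟨m, hm⟩
      exact hz m hm
  simp only [h1]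
  rw [← sum_filter, sum_const, nsmul_eq_mul, mul_one, gr_eq]
  congr 1
  symm
  refine card_bij' (fun l _ => fun z => if h : ∃ m : ℕ, l z = m • wz z then h.choose else 0)
    (fun e _ => Finsupp.equivFunOnFinite.symm fun z => e z • wz z) (fun l hl => ?_) (fun e he => ?_) (fun l hl => ?_) (fun e he => ?_)
  · rw [mem_filter, mem_finsuppAntidiag] at hl
    rw [mem_MG]
    intro i
    rw [deg_sum]
    have h2 : ∀ z, (if h : ∃ m : ℕ, l z = m • wz z then h.choose else 0) * wz z i = l z i := by
      intro z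
      rw [dif_pos (hl.2 z)]
      conv_rhs => rw [(hl.2 z).choose_spec]
      rfl
    rw [sum_congr rfl fun z _ => h2 z, ← hl.1.1, Finsupp.finsetSum_apply]
  · rw [mem_MG] at he
    rw [mem_filter, mem_finsuppAntidiag]
    refine ⟨⟨?_, subset_univ _⟩, fun z => ⟨e z, rfl⟩⟩
    ext i
    rw [Finsupp.finsetSum_apply, ← he i, deg_sum]
    rfl
  · rw [mem_filter] at hl
    ext z i
    show ((if h : ∃ m : ℕ, l z = m • wz z then h.choose else 0) • wz z) i = l z i
    rw [dif_pos (hl.2 z), ← (hl.2 z).choose_spec]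
  · funext z
    have h3 : ∃ m : ℕ, (Finsupp.equivFunOnFinite.symm (fun z => e z • wz z) : Sym2 (Fin n) →₀ (Fin n →₀ ℕ)) z = m • wz z := ⟨e z, rfl⟩
    show (if h : ∃ m : ℕ, (Finsupp.equivFunOnFinite.symm (fun z => e z • wz z) : Sym2 (Fin n) →₀ (Fin n →₀ ℕ)) z = m • wz z then h.choose else 0) = e z
    rw [dif_pos h3]
    have h4 : e z • wz z = h3.choose • wz z := h3.choose_spec
    obtain ⟨i, hi⟩ : ∃ i, wz z i ≠ 0 := by
      by_contra hc
      push Not at hc
      exact wz_ne z (Finsupp.ext hc)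
    have h5 := congrArg (fun f : Fin n →₀ ℕ => f i) h4
    simp only [Finsupp.smul_apply, smul_eq_mul] at h5
    exact (Nat.eq_of_mul_eq_mul_right (Nat.pos_of_ne_zero hi) h5).symm

theorem mono_wz (a b : Fin n) : MvPowerSeries.monomial (wz s(a, b)) (1 : ℝ) = MvPowerSeries.X a * MvPowerSeries.X b := by
  classical
  rw [MvPowerSeries.X, MvPowerSeries.X, MvPowerSeries.monomial_mul_monomial, one_mul]
  have hw : wz s(a, b) = Finsupp.single a 1 + Finsupp.single b 1 := by
    ext i
    rw [wz_apply, Finsupp.add_apply, Finsupp.single_apply, Finsupp.single_apply]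
    unfold dz
    congr 1
    · by_cases h : i = a
      · rw [if_pos h, if_pos h.symm]
      · rw [if_neg h, if_neg fun h' => h h'.symm]
    · by_cases h : i = b
      · rw [if_pos h, if_pos h.symm]
      · rw [if_neg h, if_neg fun h' => h h'.symm]
  rw [hw]

/-- **the product formula for the generating series** -/
theorem GS_mul : ((∏ i : Fin n, (1 - MvPowerSeries.X i ^ 2)) * ∏ i : Fin n, ∏ j ∈ Ioi i, (1 - MvPowerSeries.X i * MvPowerSeries.X j)) * GS n =
    (1 : MvPowerSeries (Fin n) ℝ) := by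
  have h1 : (∏ i : Fin n, (1 - MvPowerSeries.X i ^ 2)) * ∏ i : Fin n, ∏ j ∈ Ioi i, (1 - MvPowerSeries.X i * MvPowerSeries.X j) =
      ∏ z : Sym2 (Fin n), (1 - MvPowerSeries.monomial (wz z) (1 : ℝ)) := by
    rw [prod_sym2]
    congr 1
    · refine prod_congr rfl fun i _ => ?_
      rw [mono_wz, sq]
    · refine prod_congr rfl fun i _ => prod_congr rfl fun j _ => ?_
      rw [mono_wz]
  rw [h1, GS_eq, ← prod_mul_distrib]
  exact prod_eq_one fun z _ => geo_mul (wz_ne z)

end Pool.Agent.Run7.h712.HE
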