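import Pool.Agent.Run7.h712.HE.Ptc

set_option autoImplicit false
set_option linter.unusedSectionVars false
set_option linter.unusedVariables false

/-! The joint moments of the normalised character sums. -/

namespace Pool.Agent.Run7.h712.HE

open Finset
open Run7.h3.ST hiding one_pow
open Q282.CL (av av_pi av_const av_add av_sum)
open Q282MM (gm)

/-! ### quantities which depend on a prime and converge with rate `p ^ (-1 / 2)` -/

/-- `f p` tends to `a` with the rate `p ^ (-1 / 2)` -/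
def Nr (f : ∀ p : ℕ, Fact p.Prime → ℝ) (a : ℝ) : Prop :=
  ∃ C : ℝ, 0 ≤ C ∧ ∀ (p : ℕ) (hp : Fact p.Prime), p ≠ 2 → |f p hp - a| ≤ C / Real.sqrt p

theorem sqrt_pos (p : ℕ) (hp : Fact p.Prime) : 0 < Real.sqrt p := Real.sqrt_pos.2 (by exact_mod_cast hp.out.pos)

theorem one_le_sqrt (p : ℕ) (hp : Fact p.Prime) : 1 ≤ Real.sqrt p :=
  Real.one_le_sqrt.2 (by exact_mod_cast hp.out.one_lt.le)

theorem Nr.const (a : ℝ) : Nr (fun _ _ => a) a := ⟨0, le_rfl, fun p hp _ => by simp⟩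

theorem Nr.congr {f g : ∀ p : ℕ, Fact p.Prime → ℝ} {a : ℝ} (h : ∀ p hp, p ≠ 2 → f p hp = g p hp) (hf : Nr f a) : Nr g a := by
  obtain ⟨C, hC, hf⟩ := hf
  exact ⟨C, hC, fun p hp h2 => by rw [← h p hp h2]; exact hf p hp h2⟩

theorem Nr.near {f g : ∀ p : ℕ, Fact p.Prime → ℝ} {a : ℝ} (B : ℝ) (h : ∀ p hp, p ≠ 2 → |g p hp - f p hp| ≤ B / Real.sqrt p)
    (hf : Nr f a) : Nr g a := by
  obtain ⟨C, hC, hf⟩ := hf
  refine ⟨|B| + C, by positivity, fun p hp h2 => ?_⟩
  have h1 := h p hp h2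
  have h3 := hf p hp h2
  have h4 : B / Real.sqrt p ≤ |B| / Real.sqrt p := div_le_div_of_nonneg_right (le_abs_self B) (sqrt_pos p hp).le
  have h5 := abs_add_le (g p hp - f p hp) (f p hp - a)
  rw [sub_add_sub_cancel] at h5
  rw [add_div]
  linarith

theorem Nr.add {f g : ∀ p : ℕ, Fact p.Prime → ℝ} {a b : ℝ} (hf : Nr f a) (hg : Nr g b) : Nr (fun p hp => f p hp + g p hp) (a + b) := by
  obtain ⟨C, hC, hf⟩ := hf
  obtain ⟨E, hE, hg⟩ := hg
  refine ⟨C + E, by positivity, fun p hp h2 => ?_⟩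
  have h1 := hf p hp h2
  have h3 := hg p hp h2
  have h5 := abs_add_le (f p hp - a) (g p hp - b)
  rw [show f p hp + g p hp - (a + b) = (f p hp - a) + (g p hp - b) by ring, add_div]
  linarith

theorem Nr.smul {f : ∀ p : ℕ, Fact p.Prime → ℝ} {a : ℝ} (c : ℝ) (hf : Nr f a) : Nr (fun p hp => c * f p hp) (c * a) := by
  obtain ⟨C, hC, hf⟩ := hf
  refine ⟨|c| * C, by positivity, fun p hp h2 => ?_⟩
  rw [← mul_sub, abs_mul, mul_div_assoc]
  exact mul_le_mul_of_nonneg_left (hf p hp h2) (abs_nonneg _)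

theorem Nr.mul {f g : ∀ p : ℕ, Fact p.Prime → ℝ} {a b : ℝ} (hf : Nr f a) (hg : Nr g b) : Nr (fun p hp => f p hp * g p hp) (a * b) := by
  obtain ⟨C, hC, hf⟩ := hf
  obtain ⟨E, hE, hg⟩ := hg
  refine ⟨(|a| + C) * E + |b| * C, by positivity, fun p hp h2 => ?_⟩
  have h1 := hf p hp h2
  have h3 := hg p hp h2
  have hs := one_le_sqrt p hp
  have hs0 := sqrt_pos p hp
  have h4 : |f p hp| ≤ |a| + C := by
    have h5 := abs_add_le (f p hp - a) a
    rw [sub_add_cancel] at h5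
    have h6 : C / Real.sqrt p ≤ C := div_le_self hC hs
    linarith
  have h5 : f p hp * g p hp - a * b = f p hp * (g p hp - b) + b * (f p hp - a) := by ring
  rw [h5]
  refine (abs_add_le _ _).trans ?_
  rw [abs_mul, abs_mul, add_div]
  have h6 : |f p hp| * |g p hp - b| ≤ (|a| + C) * (E / Real.sqrt p) := mul_le_mul h4 h3 (abs_nonneg _) (by positivity)
  have h7 : |b| * |f p hp - a| ≤ |b| * (C / Real.sqrt p) := mul_le_mul_of_nonneg_left h1 (abs_nonneg _)
  have h8 : (|a| + C) * E / Real.sqrt p = (|a| + C) * (E / Real.sqrt p) := by ring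
  have h9 : |b| * C / Real.sqrt p = |b| * (C / Real.sqrt p) := by ring
  rw [h8, h9]
  exact add_le_add h6 h7

theorem Nr.prod {α : Type} [DecidableEq α] (R : Finset α) (f : α → ∀ p : ℕ, Fact p.Prime → ℝ) (a : α → ℝ)
    (h : ∀ i ∈ R, Nr (f i) (a i)) : Nr (fun p hp => ∏ i ∈ R, f i p hp) (∏ i ∈ R, a i) := by
  induction R using Finset.induction_on with
  | empty => simpa using Nr.const 1
  | insert i R hi ih =>
    simp only [prod_insert hi]
    exact (h i (mem_insert_self _ _)).mul (ih fun k hk => h k (mem_insert_of_mem hk))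

theorem Nr.sum {α : Type} [DecidableEq α] (R : Finset α) (f : α → ∀ p : ℕ, Fact p.Prime → ℝ) (a : α → ℝ)
    (h : ∀ i ∈ R, Nr (f i) (a i)) : Nr (fun p hp => ∑ i ∈ R, f i p hp) (∑ i ∈ R, a i) := by
  induction R using Finset.induction_on with
  | empty => simpa using Nr.const 0
  | insert i R hi ih =>
    simp only [sum_insert hi]
    exact (h i (mem_insert_self _ _)).add (ih fun k hk => h k (mem_insert_of_mem hk))

/-! ### the moments of one sum -/

/-- the moments of the normal law of variance `j` -/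
noncomputable def gv (j l : ℕ) : ℝ := (gm l : ℝ) * (j : ℝ) ^ (l / 2)

/-- the normalised main part of the character sum -/
noncomputable def ta (p : ℕ) [Fact p.Prime] {d : ℕ} (j : ℕ) (u : Fin (d + 1) → ZMod p) : ℝ := j * UU j u / Real.sqrt p ^ j

theorem pow_near (h : ℕ) {θ : ℝ} (h0 : 0 ≤ θ) (h1 : θ ≤ 1) : |θ ^ h - 1| ≤ h * (1 - θ) := by
  induction h with
  | zero => simp
  | succ h ih =>
    have h2 : θ ^ (h + 1) - 1 = θ * (θ ^ h - 1) + (θ - 1) := by ring
    rw [h2]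
    refine (abs_add_le _ _).trans ?_
    rw [abs_mul, abs_of_nonneg h0, abs_of_nonpos (by linarith : θ - 1 ≤ 0)]
    have h3 : θ * |θ ^ h - 1| ≤ 1 * |θ ^ h - 1| := mul_le_mul_of_nonneg_right h1 (abs_nonneg _)
    push_cast
    linarith

theorem ta_mom (d j l : ℕ) (hj : 1 ≤ j) (hl : j * l ≤ d + 1) :
    Nr (fun p _ => av (fun u : Fin (d + 1) → ZMod p => ta p j u ^ l)) (gv j l) := by
  classical
  rcases Nat.eq_zero_or_pos l with rfl | hl0
  · have h0 : gv j 0 = 1 := by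
      unfold gv
      rw [gm_zero]
      simp
    rw [h0]
    refine (Nr.const 1).congr fun p hp _ => ?_
    have : Nonempty (Fin (d + 1) → ZMod p) := ⟨0⟩
    simp only [pow_zero]
    exact (av_const (α := Fin (d + 1) → ZMod p) (1 : ℝ)).symm
  · obtain ⟨C, hC, hmom⟩ := mom_near l
    refine ⟨(j : ℝ) ^ l * C + gm l * ((j : ℝ) ^ (l / 2) * ((l / 2 : ℕ) * (j + 1))), by positivity, fun p hp h2 => ?_⟩
    have : Nonempty (Fin (d + 1) → ZMod p) := ⟨0⟩
    have hp1 : (1 : ℝ) ≤ p := by exact_mod_cast hp.out.one_lt.le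
    obtain ⟨s, hs⟩ : ∃ s, s = Real.sqrt (p : ℝ) := ⟨_, rfl⟩
    have hs1 : 1 ≤ s := by
      rw [hs]
      exact one_le_sqrt p hp
    have hs2 : s ^ 2 = p := by
      rw [hs]
      exact Real.sq_sqrt (by linarith)
    obtain ⟨r, hr⟩ : ∃ r, r = s ^ j := ⟨_, rfl⟩
    have hr1 : 1 ≤ r := by
      rw [hr]
      exact one_le_pow₀ hs1
    have hr0 : 0 < r := by linarith
    have hrs : s ≤ r := by
      rw [hr]
      exact le_self_pow₀ hs1 (by omega)
    have hs0 : 0 < s := by linarith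
    have hr2 : r ^ 2 = (p : ℝ) ^ j := by rw [hr, ← pow_mul, mul_comm, pow_mul, hs2]
    have hjd : j ≤ d + 1 := le_trans (Nat.le_mul_of_pos_right j hl0) hl
    have hcard := card_QQ (n := 1) (p := p) (W := Wa) Wa_stab hj
    have hj0 : (1 : ℝ) ≤ j := by exact_mod_cast hj
    have hA0 : (0 : ℝ) ≤ (AA (n := 1) (p := p) Wa j).card := Nat.cast_nonneg _
    have hAQ : ((AA (n := 1) (p := p) Wa j).card : ℝ) ≤ (QQ (n := 1) (p := p) Wa j).card := by
      rw [hcard]
      nlinarith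
    have hQ := QQ_le (p := p) hj
    have hQ2 := QQ_ge (p := p) hj
    rw [← hs, ← hr] at hQ2
    have hE2 : Em p j 2 = 1 - 1 / (p : ℝ) ^ j := Em_even h2 hj even_two two_ne_zero
    have hE20 : 0 ≤ Em p j 2 := by
      rw [hE2, ← hr2]
      have : 1 / r ^ 2 ≤ 1 := by
        rw [div_le_one (by positivity)]
        nlinarith
      linarith
    have hE21 : Em p j 2 ≤ 1 := (le_abs_self _).trans (Em_abs h2 hj 2)
    have key := hmom (Fin 2 → KB p) (Fin (d + 1) → ZMod p) (KB p) (fun v u => V v u) dg (Om (n := 1) (p := p) Wa (d + 1)) (d + 1) j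
      (chi p j) (fun i => Em p j i) r (ind_V (d + 1)) hr1 (Em_zero h2 hj) (Em_odd h2 hj odd_one) hE20 (Em_abs h2 hj)
      (AA (n := 1) (p := p) Wa j) (fun v hv => mem_Om.2 ⟨j, mem_Icc.2 ⟨hj, hjd⟩, hv⟩)
      (fun v hv => ⟨AA_dg hj hv, fun i _ => by
        have h3 := av_chi (d := d) (AA_Wa hj hv) (by rw [AA_dg hj hv]; exact hjd) i
        rw [AA_dg hj hv] at h3
        exact h3⟩) (by rw [hr2]; exact hAQ.trans hQ) l le_rfl hl
    have hav : av (fun u : Fin (d + 1) → ZMod p => ta p j u ^ l) = (j / r) ^ l * av (fun u : Fin (d + 1) → ZMod p => UU j u ^ l) := by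
      rw [← Q282.CL.av_mul]
      congr 1
      funext u
      unfold ta
      rw [← hs, ← hr, ← mul_pow]
      congr 1
      ring
    have hUU : (fun u : Fin (d + 1) → ZMod p => UU j u ^ l) =
      fun u => cs (fun (v : Fin 2 → KB p) (u : Fin (d + 1) → ZMod p) => V v u) (chi p j) (AA (n := 1) (p := p) Wa j) u ^ l := rfl
    show |av (fun u : Fin (d + 1) → ZMod p => ta p j u ^ l) - gv j l| ≤ _
    rw [hav, hUU]
    obtain ⟨X, hX⟩ : ∃ X, X = av (fun u : Fin (d + 1) → ZMod p =>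
      cs (fun (v : Fin 2 → KB p) (u : Fin (d + 1) → ZMod p) => V v u) (chi p j) (AA (n := 1) (p := p) Wa j) u ^ l) := ⟨_, rfl⟩
    rw [← hX] at key ⊢
    obtain ⟨Y, hY⟩ : ∃ Y : ℝ, Y = (AA (n := 1) (p := p) Wa j).card * Em p j 2 := ⟨_, rfl⟩
    rw [← hY] at key
    obtain ⟨θ, hθ⟩ : ∃ θ : ℝ, θ = j * Y / r ^ 2 := ⟨_, rfl⟩
    have hjY : j * Y = (QQ (n := 1) (p := p) Wa j).card * Em p j 2 := by
      rw [hY, hcard]
      ring
    have hθ0 : 0 ≤ θ := by
      rw [hθ, hjY]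
      positivity
    have hθ1 : θ ≤ 1 := by
      rw [hθ, hjY, div_le_one (by positivity), hr2]
      have : ((QQ (n := 1) (p := p) Wa j).card : ℝ) * Em p j 2 ≤ (QQ (n := 1) (p := p) Wa j).card * 1 :=
        mul_le_mul_of_nonneg_left hE21 (Nat.cast_nonneg _)
      linarith
    have hθ2 : 1 - θ ≤ (j + 1) / s := by
      have h3 : (1 : ℝ) - θ ≤ j / r + 1 / r := by
        rw [hθ, hjY, hE2, ← hr2]
        rw [← hr2] at hQ2 hQ
        have h4 : (1 : ℝ) - 1 / r ^ 2 ≥ 0 := by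
          have : 1 / r ^ 2 ≤ 1 := by
            rw [div_le_one (by positivity)]
            nlinarith
          linarith
        have h5 : (r ^ 2 - j * r) * (1 - 1 / r ^ 2) ≤ ((QQ (n := 1) (p := p) Wa j).card : ℝ) * (1 - 1 / r ^ 2) :=
          mul_le_mul_of_nonneg_right hQ2 h4
        have h6 : (r ^ 2 - j * r) * (1 - 1 / r ^ 2) / r ^ 2 ≤ ((QQ (n := 1) (p := p) Wa j).card : ℝ) * (1 - 1 / r ^ 2) / r ^ 2 :=
          div_le_div_of_nonneg_right h5 (by positivity)
        have h7 : (r ^ 2 - j * r) * (1 - 1 / r ^ 2) / r ^ 2 = 1 - j / r - 1 / r ^ 2 + j / r ^ 3 := by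
          field_simp
          ring
        have h8 : 1 / r ^ 2 ≤ 1 / r := one_div_le_one_div_of_le hr0 (by nlinarith)
        have h9 : (0 : ℝ) ≤ j / r ^ 3 := by positivity
        linarith
      refine h3.trans ?_
      rw [← add_div]
      exact div_le_div_of_nonneg_left (by positivity) hs0 hrs
    have hmain : (gm l : ℝ) * ((j / r) ^ l * Y ^ (l / 2)) = gm l * ((j : ℝ) ^ (l / 2) * θ ^ (l / 2)) := by
      rcases Nat.even_or_odd l with he | ho
      · obtain ⟨h, hh⟩ := he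
        have h3 : l / 2 = h := by omega
        rw [h3, ← mul_pow]
        have h4 : (j / r : ℝ) ^ l = ((j / r) ^ 2) ^ h := by
          rw [← pow_mul]
          congr 1
          omega
        rw [h4, ← mul_pow]
        congr 2
        rw [hθ]
        field_simp
      · rw [gm_odd (Nat.not_even_iff_odd.2 ho)]
        simp
    have hpow := pow_near (l / 2) hθ0 hθ1
    unfold gv
    have h3 : (j / r : ℝ) ^ l * X - gm l * (j : ℝ) ^ (l / 2) =
        (j / r) ^ l * (X - gm l * Y ^ (l / 2)) + gm l * ((j : ℝ) ^ (l / 2) * (θ ^ (l / 2) - 1)) := by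
      have h4 : (j / r : ℝ) ^ l * (gm l * Y ^ (l / 2)) = gm l * ((j : ℝ) ^ (l / 2) * θ ^ (l / 2)) := by
        rw [← hmain]
        ring
      rw [mul_sub, h4]
      ring
    rw [h3, ← hs, add_div]
    refine (abs_add_le _ _).trans (add_le_add ?_ ?_)
    · rw [abs_mul, abs_of_nonneg (by positivity : (0 : ℝ) ≤ (j / r) ^ l)]
      have h5 : (j / r : ℝ) ^ l * |X - gm l * Y ^ (l / 2)| ≤ (j / r) ^ l * (C * r ^ (l - 1)) :=
        mul_le_mul_of_nonneg_left key (by positivity)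
      refine h5.trans ?_
      have h6 : (j / r : ℝ) ^ l * (C * r ^ (l - 1)) = (j : ℝ) ^ l * C / r := by
        obtain ⟨l', rfl⟩ : ∃ l', l = l' + 1 := ⟨l - 1, by omega⟩
        rw [Nat.add_sub_cancel, div_pow]
        field_simp
        ring
      rw [h6]
      exact div_le_div_of_nonneg_left (by positivity) hs0 hrs
    · rw [abs_mul, Nat.abs_cast, abs_mul, abs_of_nonneg (by positivity : (0 : ℝ) ≤ (j : ℝ) ^ (l / 2)), mul_div_assoc]
      refine mul_le_mul_of_nonneg_left ?_ (Nat.cast_nonneg _)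
      rw [mul_div_assoc]
      refine mul_le_mul_of_nonneg_left ?_ (by positivity)
      refine hpow.trans ?_
      rw [mul_div_assoc]
      exact mul_le_mul_of_nonneg_left hθ2 (Nat.cast_nonneg _)

/-- **the joint moments** -/
theorem ta_joint (d : ℕ) (R : Finset ℕ) (m : ℕ → ℕ) (hm : ∑ i ∈ R, (i + 1) * m i ≤ d + 1) :
    Nr (fun p _ => av (fun u : Fin (d + 1) → ZMod p => ∏ i ∈ R, ta p (i + 1) u ^ m i)) (∏ i ∈ R, gv (i + 1) (m i)) := by
  classical
  have h0 : ∀ i ∈ R, (i + 1) * m i ≤ d + 1 := fun i hi =>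
    le_trans (single_le_sum (f := fun i => (i + 1) * m i) (fun _ _ => Nat.zero_le _) hi) hm
  refine (Nr.prod R (fun i p _ => av (fun u : Fin (d + 1) → ZMod p => ta p (i + 1) u ^ m i)) _ fun i hi =>
    ta_mom d (i + 1) (m i) (by omega) (h0 i hi)).congr fun p hp h2 => ?_
  have : Nonempty (Fin (d + 1) → ZMod p) := ⟨0⟩
  -- only the indices with positive exponents
  obtain ⟨R', hR'⟩ : ∃ R', R' = R.filter fun i => m i ≠ 0 := ⟨_, rfl⟩
  have e1 : ∀ F : ℕ → ℝ, (∀ i ∈ R, m i = 0 → F i = 1) → ∏ i ∈ R, F i = ∏ i ∈ R', F i := by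
    intro F hF
    rw [hR', prod_filter]
    refine prod_congr rfl fun i hi => ?_
    by_cases h : m i = 0
    · rw [if_neg (by simpa using h), hF i hi h]
    · rw [if_pos h]
  have e2 : (fun u : Fin (d + 1) → ZMod p => ∏ i ∈ R, ta p (i + 1) u ^ m i) = fun u => ∏ i ∈ R', ta p (i + 1) u ^ m i := by
    funext u
    exact e1 (fun i => ta p (i + 1) u ^ m i) fun i _ h => by simp only [h, pow_zero]
  have e3 : ∏ i ∈ R, av (fun u : Fin (d + 1) → ZMod p => ta p (i + 1) u ^ m i) = ∏ i ∈ R', av (fun u : Fin (d + 1) → ZMod p => ta p (i + 1) u ^ m i) :=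
    e1 (fun i => av (fun u : Fin (d + 1) → ZMod p => ta p (i + 1) u ^ m i)) fun i _ h => by
      simp only [h, pow_zero]
      exact av_const (α := Fin (d + 1) → ZMod p) (1 : ℝ)
  show ∏ i ∈ R, av (fun u : Fin (d + 1) → ZMod p => ta p (i + 1) u ^ m i) = av (fun u : Fin (d + 1) → ZMod p => ∏ i ∈ R, ta p (i + 1) u ^ m i)
  rw [e2, e3]
  symm
  refine (ind_V (p := p) (d := d) (d + 1)).av_prod R' (fun i => AA (n := 1) (p := p) Wa (i + 1)) (fun i => (i + 1) * m i)
    (fun i u => ta p (i + 1) u ^ m i) (fun i hi v hv => ?_) (fun i hi k hk hik => ?_) ?_ (fun i hi => ?_)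
  · rw [hR', mem_filter] at hi
    refine mem_Om.2 ⟨i + 1, mem_Icc.2 ⟨by omega, ?_⟩, hv⟩
    exact le_trans (Nat.le_mul_of_pos_right _ (Nat.pos_of_ne_zero hi.2)) (h0 i hi.1)
  · rw [Function.onFun, Finset.disjoint_left]
    intro v hv hv'
    have h3 := (AA_dg (by omega) hv).symm.trans (AA_dg (by omega) hv')
    exact hik (by omega)
  · refine le_trans ?_ hm
    rw [hR']
    exact sum_le_sum_of_subset (filter_subset _ _)
  · refine PV.pow ?_ _
    have h3 : (fun u : Fin (d + 1) → ZMod p => ta p (i + 1) u) = (((i + 1 : ℕ) : ℝ) / Real.sqrt p ^ (i + 1)) • fun u => UU (i + 1) u := by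
      funext u
      unfold ta
      rw [Pi.smul_apply, smul_eq_mul]
      ring
    have h4 : (fun u : Fin (d + 1) → ZMod p => ta p (i + 1) u) ∈ PV (fun (v : Fin 2 → KB p) (u : Fin (d + 1) → ZMod p) => V v u) dg
        (AA (n := 1) (p := p) Wa (i + 1)) (i + 1) := by
      rw [h3]
      exact Submodule.smul_mem _ _ (PV.cs (fun v hv => (AA_dg (by omega) hv).le) _)
    exact h4

end Pool.Agent.Run7.h712.HE
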