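import Pool.Agent.Run7.h712.HE.Chi

set_option autoImplicit false
set_option linter.unusedSectionVars false
set_option linter.unusedVariables false

/-! The values of a random monic polynomial at the closed points of the affine line are independent up to total degree `d + 1`;
the decomposition of the character sums over the fields with `p ^ j` elements. -/

namespace Pool.Agent.Run7.h712.HE

open Finset
open Run7.h3.ST hiding one_pow
open Pool.Agent.Y722.HS (Mon mev mkMon mkMon_apply)
open Q282.CL (av av_pi av_const av_add av_sum)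

section

variable {p : ℕ} [hp : Fact p.Prime] {d : ℕ}

/-- the points of the affine line -/
def Wa (v : Fin 2 → KB p) : Prop := v 0 = 1

theorem Wa_stab : Stab (n := 1) (p := p) Wa := by
  intro v s
  rw [Fr_iter]
  show v 0 ^ p ^ s = 1 ↔ v 0 = 1
  constructor
  · intro h
    have h3 : (v 0 - 1) ^ p ^ s = 0 := by
      rw [sub_pow_char_pow, one_pow, h, sub_self]
    exact sub_eq_zero.1 (eq_zero_of_pow_eq_zero h3)
  · intro h
    rw [h, one_pow]

theorem Wa_nv {v : Fin 2 → KB p} (h : Wa v) : v ∈ Nv 1 (KB p) :=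
  ⟨0, h, fun j hj => absurd hj (Fin.not_lt_zero j)⟩

/-- the value of the monic polynomial at a point of the affine line -/
noncomputable def V (v : Fin 2 → KB p) (u : Fin (d + 1) → ZMod p) : KB p := fv u (v 1)

/-- the lower terms -/
noncomputable def lin (x : KB p) (u : Fin (d + 1) → ZMod p) : KB p := ∑ i, algebraMap (ZMod p) (KB p) (u i) * x ^ (i : ℕ)

theorem V_eq (v : Fin 2 → KB p) (u : Fin (d + 1) → ZMod p) : V v u = v 1 ^ (d + 1) + lin (v 1) u := rfl

theorem lin_frob (x : KB p) (u : Fin (d + 1) → ZMod p) (e : ℕ) : lin x u ^ p ^ e = lin (x ^ p ^ e) u := by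
  unfold lin
  rw [sum_pow_char_pow]
  refine sum_congr rfl fun i _ => ?_
  rw [mul_pow, ← map_pow, ZMod.pow_card_pow, ← pow_mul, ← pow_mul, mul_comm (i : ℕ)]

theorem fv_frob (x : KB p) (u : Fin (d + 1) → ZMod p) (e : ℕ) : fv u x ^ p ^ e = fv u (x ^ p ^ e) := by
  have h1 : ∀ y : KB p, fv u y = y ^ (d + 1) + lin y u := fun _ => rfl
  rw [h1, h1, add_pow_char_pow, lin_frob, ← pow_mul, ← pow_mul, mul_comm]

/-- the monomials in two variables -/
noncomputable def mo (i : Fin (d + 1)) : Mon 1 d :=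
  mkMon (fun t : Fin 2 => if t = 0 then d - (i : ℕ) else (i : ℕ)) (by
    rw [Fin.sum_univ_two]
    simp
    have := i.2
    omega)

theorem mo_one (i : Fin (d + 1)) : (((mo i).1 1 : Fin (d + 1)) : ℕ) = i := by
  unfold mo
  rw [mkMon_apply]
  simp

theorem mo_bij : Function.Bijective (mo (d := d)) := by
  constructor
  · intro i j h
    apply Fin.ext
    rw [← mo_one i, ← mo_one j, h]
  · intro ν
    have h1 := ν.2
    rw [Fin.sum_univ_two] at h1
    refine ⟨⟨(ν.1 1 : ℕ), by omega⟩, ?_⟩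
    apply Subtype.ext
    funext t
    apply Fin.ext
    unfold mo
    rw [mkMon_apply]
    fin_cases t
    · simp
      omega
    · simp

theorem val_lin {v : Fin 2 → KB p} (hv : Wa v) (c : Mon 1 d → ZMod p) : Run7.h3.ST.val v c = lin (v 1) fun i => c (mo i) := by
  unfold Run7.h3.ST.val lin
  rw [← (Equiv.ofBijective _ (mo_bij (d := d))).sum_comp]
  refine sum_congr rfl fun i _ => ?_
  show _ * mev v (mo i) = _
  congr 1
  unfold mev
  rw [Fin.prod_univ_two, show v 0 = 1 from hv, one_pow, one_mul, mo_one]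

theorem surjA (S : Finset (Fin 2 → KB p)) (hS : Sep S) (hW : ∀ v ∈ S, Wa v) (hD : ∑ v ∈ S, dg v ≤ d + 1)
    (y : (Fin 2 → KB p) → KB p) (hy : ∀ v ∈ S, y v ^ (p ^ dg v) = y v) :
    ∃ u : Fin (d + 1) → ZMod p, ∀ v ∈ S, lin (v 1) u = y v := by
  obtain ⟨c, hc⟩ := surj (n := 1) (D := d) S hS (fun v hv => Wa_nv (hW v hv)) hD y hy
  exact ⟨fun i => c (mo i), fun v hv => by rw [← val_lin (hW v hv), hc v hv]⟩

/-- the mean of a function on the field with `p ^ e` elements -/
noncomputable def mu (p e : ℕ) [Fact p.Prime] (g : KB p → ℝ) : ℝ := (∑ y ∈ Fx p e, g y) / (p : ℝ) ^ e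

theorem av_V (S : Finset (Fin 2 → KB p)) (hS : Sep S) (hW : ∀ v ∈ S, Wa v) (hD : ∑ v ∈ S, dg v ≤ d + 1)
    (g : (Fin 2 → KB p) → KB p → ℝ) :
    av (fun u : Fin (d + 1) → ZMod p => ∏ v ∈ S, g v (V v u)) = ∏ v ∈ S, mu p (dg v) (g v) := by
  classical
  have hft : ∀ v : S, Finite (FG p (dg v.1)) := fun v => by
    have h1 : (FG p (dg v.1) : Set (KB p)).Finite := by
      rw [FG_coe (dg_pos _)]
      exact finite_toSet _
    exact h1
  have hfi : ∀ v : S, Fintype (FG p (dg v.1)) := fun v => Fintype.ofFinite _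
  have hcard : ∀ v : S, Fintype.card (FG p (dg v.1)) = p ^ dg v.1 := fun v => by
    rw [← Nat.card_eq_fintype_card]
    have h2 := Set.ncard_coe_finset (Fx p (dg v.1))
    rw [← FG_coe (dg_pos v.1), card_Fx (dg_pos v.1)] at h2
    exact h2
  have hfix : ∀ v : Fin 2 → KB p, v 1 ^ p ^ dg v = v 1 := fun v => dg_dvd.1 (dvd_refl _) 1
  obtain ⟨φ, hφ⟩ : ∃ φ : (Fin (d + 1) → ZMod p) →+ (∀ v : S, FG p (dg v.1)), ∀ u v, (φ u v : KB p) = lin (v.1 1) u := by
    refine ⟨{ toFun := fun u v => ⟨lin (v.1 1) u, ?_⟩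
              map_zero' := ?_
              map_add' := ?_ }, fun c v => rfl⟩
    · show lin (v.1 1) u ^ p ^ dg v.1 = lin (v.1 1) u
      rw [lin_frob, hfix]
    · funext v
      apply Subtype.ext
      simp [lin]
    · intro c c'
      funext v
      apply Subtype.ext
      simp [lin, add_mul, sum_add_distrib]
  have hsurj : Function.Surjective φ := by
    intro y
    obtain ⟨u, hu⟩ := surjA (d := d) S hS hW hD
      (fun v => if h : v ∈ S then (y ⟨v, h⟩ : KB p) else 0) (fun v hv => by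
        simp only [dif_pos hv]
        exact (y ⟨v, hv⟩).2)
    refine ⟨u, funext fun v => Subtype.ext ?_⟩
    rw [hφ, hu v.1 v.2, dif_pos v.2]
  have h1 := av_hom φ hsurj (fun y => ∏ v : S, g v.1 (v.1 1 ^ (d + 1) + (y v : KB p)))
  have h2 : (fun u : Fin (d + 1) → ZMod p => ∏ v ∈ S, g v (V v u)) =
      fun u => ∏ v : S, g v.1 (v.1 1 ^ (d + 1) + (φ u v : KB p)) := by
    funext u
    rw [← prod_coe_sort]
    refine prod_congr rfl fun v _ => ?_
    rw [hφ, V_eq]
  rw [h2, h1, av_pi (fun (v : S) (x : FG p (dg v.1)) => g v.1 (v.1 1 ^ (d + 1) + (x : KB p)))]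
  rw [← prod_coe_sort S]
  refine prod_congr rfl fun v _ => ?_
  unfold av mu
  rw [hcard v]
  push_cast
  congr 1
  have h3 : v.1 1 ^ (d + 1) ∈ FG p (dg v.1) := by
    show (v.1 1 ^ (d + 1)) ^ p ^ dg v.1 = v.1 1 ^ (d + 1)
    rw [← pow_mul, mul_comm, pow_mul, hfix]
  have h4 : ∑ a : FG p (dg v.1), g v.1 (v.1 1 ^ (d + 1) + (a : KB p)) = ∑ a : FG p (dg v.1), g v.1 (a : KB p) := by
    refine Fintype.sum_equiv (Equiv.addLeft (⟨_, h3⟩ : FG p (dg v.1))) _ _ fun a => ?_
    rfl
  rw [h4]
  symm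
  refine Finset.sum_subtype (Fx p (dg v.1)) (fun x => ?_) (fun a => g v.1 a)
  rw [← mem_coe, ← FG_coe (dg_pos v.1)]
  rfl

theorem Om_sep (B : ℕ) : Sep (Om (n := 1) (p := p) Wa B) := by
  intro v hv w hw h
  obtain ⟨e, he, hv⟩ := mem_Om.1 hv
  obtain ⟨e', he', hw⟩ := mem_Om.1 hw
  have h1 := dg_orb h
  rw [AA_dg (mem_Icc.1 he).1 hv, AA_dg (mem_Icc.1 he').1 hw] at h1
  subst h1
  exact AA_sep _ v hv w hw h

theorem AA_Wa {e : ℕ} (he : 1 ≤ e) {v : Fin 2 → KB p} (hv : v ∈ AA (n := 1) (p := p) Wa e) : Wa v :=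
  ((mem_QQ he).1 (AA_sub e hv)).2.2

theorem Om_Wa {B : ℕ} {v : Fin 2 → KB p} (hv : v ∈ Om (n := 1) (p := p) Wa B) : Wa v := by
  obtain ⟨e, he, hv⟩ := mem_Om.1 hv
  exact AA_Wa (mem_Icc.1 he).1 hv

theorem av_one {v : Fin 2 → KB p} (hW : Wa v) (hD : dg v ≤ d + 1) (g : KB p → ℝ) :
    av (fun u : Fin (d + 1) → ZMod p => g (V v u)) = mu p (dg v) g := by
  have h1 := av_V (d := d) {v} (fun a ha b hb _ => by rw [mem_singleton.1 ha, mem_singleton.1 hb])
    (fun w hw => by rw [mem_singleton.1 hw]; exact hW) (by simpa using hD) (fun _ => g)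
  simpa using h1

theorem ind_V (B : ℕ) : Ind (fun (v : Fin 2 → KB p) (u : Fin (d + 1) → ZMod p) => V v u) dg (Om (n := 1) (p := p) Wa B) (d + 1) := by
  intro S hS hw g
  rw [av_V (d := d) S (fun v hv w hw h => Om_sep B v (hS hv) w (hS hw) h) (fun v hv => Om_Wa (hS hv)) hw g]
  refine prod_congr rfl fun v hv => ?_
  have h1 : dg v ≤ d + 1 := le_trans (single_le_sum (f := fun v => dg v) (fun _ _ => Nat.zero_le _) hv) hw
  exact (av_one (Om_Wa (hS hv)) h1 (g v)).symm

theorem av_chi {v : Fin 2 → KB p} (hW : Wa v) (hD : dg v ≤ d + 1) (j : ℕ) :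
    av (fun u : Fin (d + 1) → ZMod p => chi p (dg v) (V v u) ^ j) = Em p (dg v) j :=
  av_one hW hD fun y => chi p (dg v) y ^ j

/-! ### the sums over the fields -/

/-- the character sum over the field with `p ^ j` elements -/
noncomputable def SS (j : ℕ) (u : Fin (d + 1) → ZMod p) : ℝ := ∑ y ∈ Fx p j, chi p j (fv u y)

theorem sum_line {j : ℕ} (hj : 1 ≤ j) (F : KB p → ℝ) : ∑ y ∈ Fx p j, F y = ∑ v ∈ VW (n := 1) (p := p) Wa j, F (v 1) := by
  classical
  refine sum_bij (fun y _ => ![1, y]) (fun y hy => ?_) (fun y hy z hz h => ?_) (fun v hv => ?_) (fun y hy => rfl)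
  · rw [mem_VW hj]
    have h0 : Wa (![1, y] : Fin 2 → KB p) := rfl
    refine ⟨Wa_nv h0, ?_, h0⟩
    rw [dg_dvd]
    intro i
    fin_cases i
    · simp
    · simpa using (mem_Fx hj).1 hy
  · have := congrFun h 1
    simpa using this
  · rw [mem_VW hj] at hv
    refine ⟨v 1, ?_, ?_⟩
    · rw [mem_Fx hj]
      exact dg_dvd.1 hv.2.1 1
    · funext i
      fin_cases i
      · exact hv.2.2.symm
      · rfl

theorem card_line {j : ℕ} (hj : 1 ≤ j) : ((VW (n := 1) (p := p) Wa j).card : ℝ) = (p : ℝ) ^ j := by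
  have h1 := sum_line (p := p) hj fun _ => 1
  simp only [sum_const, nsmul_eq_mul, mul_one] at h1
  rw [← h1, card_Fx hj]
  push_cast
  rfl

theorem SS_eq (h2 : p ≠ 2) {j : ℕ} (hj : 1 ≤ j) (u : Fin (d + 1) → ZMod p) :
    SS j u = ∑ e ∈ j.divisors, (e : ℝ) * ∑ a ∈ AA (n := 1) (p := p) Wa e, chi p e (V a u) ^ (j / e) := by
  unfold SS
  rw [sum_line hj, sum_VW hj]
  refine sum_congr rfl fun e he => ?_
  have he1 : 1 ≤ e := Nat.pos_of_mem_divisors he
  have hdvd := (Nat.mem_divisors.1 he).1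
  rw [sum_QQ Wa_stab he1 (fun v => chi p j (fv u (v 1))) (fun v s => by
    rw [Fr_iter]
    show chi p j (fv u (v 1 ^ p ^ s)) = _
    rw [← fv_frob, chi_frob])]
  congr 1
  refine sum_congr rfl fun a ha => ?_
  have hda : dg a = e := AA_dg he1 ha
  have hfix : (fv u (a 1) : KB p) ^ p ^ e = fv u (a 1) := by
    rw [fv_frob, ← hda, dg_dvd.1 (dvd_refl _) 1]
  have h3 := chi_ext h2 (k := j / e) (Nat.div_pos (Nat.le_of_dvd (by omega) hdvd) he1) hfix
  rw [Nat.mul_div_cancel' hdvd] at h3
  exact h3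

theorem QQ_le {e : ℕ} (he : 1 ≤ e) : ((QQ (n := 1) (p := p) Wa e).card : ℝ) ≤ (p : ℝ) ^ e := by
  rw [← card_line he]
  exact_mod_cast card_le_card (QQ_sub e)

theorem QQ_ge {e : ℕ} (he : 1 ≤ e) : (p : ℝ) ^ e - e * Real.sqrt p ^ e ≤ ((QQ (n := 1) (p := p) Wa e).card : ℝ) := by
  have h1 := sum_VW (n := 1) (p := p) (W := Wa) he fun _ => 1
  simp only [sum_const, nsmul_eq_mul, mul_one] at h1
  rw [card_line he] at h1
  have hmem : e ∈ e.divisors := Nat.mem_divisors_self e (by omega)
  rw [← add_sum_erase _ _ hmem] at h1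
  have hp1 : (1 : ℝ) ≤ p := by exact_mod_cast hp.out.one_lt.le
  obtain ⟨r, hr⟩ : ∃ r, r = Real.sqrt (p : ℝ) := ⟨_, rfl⟩
  rw [← hr]
  have hr1 : 1 ≤ r := by
    rw [hr]
    exact Real.one_le_sqrt.2 hp1
  have hr2 : r ^ 2 = p := by
    rw [hr]
    exact Real.sq_sqrt (by linarith)
  have h3 : ∑ x ∈ e.divisors.erase e, ((QQ (n := 1) (p := p) Wa x).card : ℝ) ≤ e * r ^ e := by
    have h4 : ∀ x ∈ e.divisors.erase e, ((QQ (n := 1) (p := p) Wa x).card : ℝ) ≤ r ^ e := by
      intro x hx
      rw [mem_erase, Nat.mem_divisors] at hx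
      have hx1 : 1 ≤ x := Nat.pos_of_dvd_of_pos hx.2.1 (by omega)
      refine (QQ_le hx1).trans ?_
      rw [← hr2, ← pow_mul]
      refine pow_le_pow_right₀ hr1 ?_
      obtain ⟨c, hc⟩ := hx.2.1
      have hc2 : 2 ≤ c := by
        rcases c with _ | _ | c
        · simp at hc
          omega
        · simp at hc
          exact absurd hc.symm hx.1
        · omega
      calc 2 * x ≤ x * c := by rw [mul_comm]; exact Nat.mul_le_mul_left x hc2
        _ = e := hc.symm
    refine (sum_le_sum h4).trans ?_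
    rw [sum_const, nsmul_eq_mul]
    refine mul_le_mul_of_nonneg_right ?_ (by positivity)
    have h5 : (e.divisors.erase e).card ≤ e := (card_le_card (erase_subset _ _)).trans (Nat.card_divisors_le_self e)
    exact_mod_cast h5
  linarith

/-- the main part -/
noncomputable def UU (j : ℕ) (u : Fin (d + 1) → ZMod p) : ℝ := cs (fun (v : Fin 2 → KB p) (u : Fin (d + 1) → ZMod p) => V v u) (chi p j)
  (AA (n := 1) (p := p) Wa j) u

/-- `1` for even numbers, `0` for odd numbers -/
noncomputable def eta (j : ℕ) : ℝ := if Even j then 1 else 0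

theorem SS_near (h2 : p ≠ 2) {j : ℕ} (hj : 1 ≤ j) (u : Fin (d + 1) → ZMod p) :
    |SS j u - (j * UU j u + eta j * Real.sqrt p ^ j)| ≤ (j : ℝ) * (j * (d + 1) + j + 1) * Real.sqrt p ^ (j - 1) := by
  classical
  have hp1 : (1 : ℝ) ≤ p := by exact_mod_cast hp.out.one_lt.le
  obtain ⟨r, hr⟩ : ∃ r, r = Real.sqrt (p : ℝ) := ⟨_, rfl⟩
  rw [← hr]
  have hr1 : 1 ≤ r := by
    rw [hr]
    exact Real.one_le_sqrt.2 hp1
  have hr0 : 0 < r := by linarith
  have hr2 : r ^ 2 = p := by
    rw [hr]
    exact Real.sq_sqrt (by linarith)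
  rw [SS_eq h2 hj]
  obtain ⟨T, hT⟩ : ∃ T : ℕ → ℝ, T = fun e : ℕ => (e : ℝ) * ∑ a ∈ AA (n := 1) (p := p) Wa e, chi p e (V a u) ^ (j / e) := ⟨_, rfl⟩
  obtain ⟨t, ht⟩ : ∃ t : ℕ → ℝ, t = fun e : ℕ => (if e = j then (j : ℝ) * UU j u else 0) + (if 2 * e = j then r ^ j else 0) := ⟨_, rfl⟩
  have hsum : ∑ e ∈ j.divisors, t e = j * UU j u + eta j * r ^ j := by
    rw [ht]
    rw [sum_add_distrib]
    congr 1
    · rw [sum_ite_eq' j.divisors j, if_pos (Nat.mem_divisors_self j (by omega))]
    · unfold eta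
      by_cases hev : Even j
      · obtain ⟨h, hh⟩ := hev
        rw [if_pos ⟨h, hh⟩, one_mul]
        rw [sum_eq_single_of_mem h (by rw [Nat.mem_divisors]; exact ⟨⟨2, by omega⟩, by omega⟩)]
        · rw [if_pos (by omega)]
        · intro b _ hb
          rw [if_neg (by omega)]
      · rw [if_neg hev, zero_mul]
        refine sum_eq_zero fun e _ => ?_
        rw [if_neg]
        intro h
        exact hev ⟨e, by omega⟩
  have hterm : ∀ e ∈ j.divisors, |T e - t e| ≤ (j * (d + 1) + j + 1) * r ^ (j - 1) := by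
    intro e he
    rw [Nat.mem_divisors] at he
    have he1 : 1 ≤ e := Nat.pos_of_dvd_of_pos he.1 (by omega)
    have hrj : (0 : ℝ) ≤ r ^ (j - 1) := by positivity
    rw [hT, ht]
    simp only
    by_cases h1 : e = j
    · subst h1
      rw [if_pos rfl, if_neg (by omega), add_zero, Nat.div_self (by omega)]
      have h3 : (e : ℝ) * ∑ a ∈ AA (n := 1) (p := p) Wa e, chi p e (V a u) ^ 1 - e * UU e u = 0 := by
        unfold UU cs
        simp only [pow_one]
        ring
      rw [h3, abs_zero]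
      positivity
    · rw [if_neg h1, zero_add]
      have hcard := card_QQ (n := 1) (p := p) (W := Wa) Wa_stab he1
      by_cases h3 : 2 * e = j
      · rw [if_pos h3]
        have h4 : j / e = 2 := by
          rw [← h3]
          exact Nat.mul_div_cancel _ (by omega)
        rw [h4]
        -- the number of the zeros
        obtain ⟨Z, hZ⟩ : ∃ Z, Z = (AA (n := 1) (p := p) Wa e).filter fun a => (V a u : KB p) = 0 := ⟨_, rfl⟩
        have h5 : ∑ a ∈ AA (n := 1) (p := p) Wa e, chi p e (V a u) ^ 2 = (AA (n := 1) (p := p) Wa e).card - Z.card := by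
          have h6 : ∀ a ∈ AA (n := 1) (p := p) Wa e, chi p e (V a u) ^ 2 = 1 - if (V a u : KB p) = 0 then (1 : ℝ) else 0 := by
            intro a _
            by_cases h7 : (V a u : KB p) = 0
            · rw [if_pos h7, h7, chi_zero]
              norm_num
            · rw [if_neg h7, chi_sq h7]
              norm_num
          rw [sum_congr rfl h6, sum_sub_distrib, sum_const, nsmul_eq_mul, mul_one, hZ, card_filter]
          push_cast
          rfl
        have hZc : (Z.card : ℝ) ≤ d + 1 := by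
          have h6 : (Z.image fun a => a 1).card = Z.card := by
            refine card_image_of_injOn fun a ha b hb hab => ?_
            rw [mem_coe, hZ, mem_filter] at ha hb
            funext i
            fin_cases i
            · exact (AA_Wa he1 ha.1).trans (AA_Wa he1 hb.1).symm
            · exact hab
          have h7 := zeros_le u (Z.image fun a => a 1) (fun y hy => by
            obtain ⟨a, ha, rfl⟩ := mem_image.1 hy
            rw [hZ, mem_filter] at ha
            exact ha.2)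
          rw [h6] at h7
          exact_mod_cast h7
        rw [h5, mul_sub, ← hcard]
        have h8 := QQ_le (p := p) he1
        have h9 := QQ_ge (p := p) he1
        rw [← hr] at h9
        have h10 : (p : ℝ) ^ e = r ^ j := by rw [← hr2, ← pow_mul, h3]
        rw [h10] at h8 h9
        have h11 : r ^ e ≤ r ^ (j - 1) := pow_le_pow_right₀ hr1 (by omega)
        have hej : (e : ℝ) ≤ j := by exact_mod_cast Nat.le_of_dvd (by omega) he.1
        have he0 : (0 : ℝ) ≤ e := Nat.cast_nonneg _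
        have h12 : (e : ℝ) * r ^ e ≤ j * r ^ (j - 1) := mul_le_mul hej h11 (by positivity) (by positivity)
        have h13 : (e : ℝ) * Z.card ≤ j * (d + 1) * r ^ (j - 1) := by
          have h14 : (e : ℝ) * Z.card ≤ j * (d + 1) := mul_le_mul hej hZc (by positivity) (by positivity)
          have h15 : (1 : ℝ) ≤ r ^ (j - 1) := one_le_pow₀ hr1
          have h16 : (0 : ℝ) ≤ j * (d + 1) := by positivity
          nlinarith
        have h17 : 0 ≤ (e : ℝ) * Z.card := by positivity
        have h18 : ((j : ℝ) * (d + 1) + j + 1) * r ^ (j - 1) = j * (d + 1) * r ^ (j - 1) + j * r ^ (j - 1) + r ^ (j - 1) := by ring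
        rw [h18, abs_le]
        constructor <;> linarith
      · rw [if_neg h3, sub_zero]
        have h5 : |∑ a ∈ AA (n := 1) (p := p) Wa e, chi p e (V a u) ^ (j / e)| ≤ (AA (n := 1) (p := p) Wa e).card := by
          refine (abs_sum_le_sum_abs _ _).trans ?_
          have h6 : ∀ a ∈ AA (n := 1) (p := p) Wa e, |chi p e (V a u) ^ (j / e)| ≤ 1 := by
            intro a _
            rw [abs_pow]
            exact pow_le_one₀ (abs_nonneg _) (chi_abs _ _)
          refine (sum_le_sum h6).trans ?_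
          rw [sum_const, nsmul_eq_mul, mul_one]
        rw [abs_mul, Nat.abs_cast]
        have h6 : (e : ℝ) * |∑ a ∈ AA (n := 1) (p := p) Wa e, chi p e (V a u) ^ (j / e)| ≤ (QQ (n := 1) (p := p) Wa e).card := by
          rw [hcard]
          exact mul_le_mul_of_nonneg_left h5 (Nat.cast_nonneg _)
        refine h6.trans ((QQ_le he1).trans ?_)
        rw [← hr2, ← pow_mul]
        have h7 : r ^ (2 * e) ≤ r ^ (j - 1) := by
          refine pow_le_pow_right₀ hr1 ?_
          obtain ⟨c, hc⟩ := he.1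
          have hc3 : 3 ≤ c := by
            rcases c with _ | _ | _ | c
            · simp at hc
              omega
            · simp at hc
              exact absurd hc.symm h1
            · exact absurd (by omega) h3
            · omega
          have h8 : 3 * e ≤ j := by
            calc 3 * e ≤ e * c := by rw [mul_comm]; exact Nat.mul_le_mul_left e hc3
              _ = j := hc.symm
          omega
        refine h7.trans ?_
        have h8 : (1 : ℝ) ≤ j * (d + 1) + j + 1 := by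
          have : (0 : ℝ) ≤ j * (d + 1) + j := by positivity
          linarith
        nlinarith [mul_nonneg (sub_nonneg.2 h8) hrj]
  rw [← hsum]
  have h3 : ∑ e ∈ j.divisors, (e : ℝ) * ∑ a ∈ AA (n := 1) (p := p) Wa e, chi p e (V a u) ^ (j / e) = ∑ e ∈ j.divisors, T e := by
    rw [hT]
  rw [h3, ← sum_sub_distrib]
  refine (abs_sum_le_sum_abs _ _).trans ((sum_le_sum hterm).trans ?_)
  rw [sum_const, nsmul_eq_mul, mul_assoc]
  refine mul_le_mul_of_nonneg_right ?_ (by positivity)
  exact_mod_cast Nat.card_divisors_le_self j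

end

end Pool.Agent.Run7.h712.HE
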